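import Pool.Agent.N906.EQ.Orbit

/-!
# Heights and primitive vectors
-/

set_option autoImplicit false
set_option linter.unusedSectionVars false

namespace Pool.Agent.N906.EQ

open NumberField NumberField.InfinitePlace Module Finset Filter Topology Pool.Agent.N852

section

variable {K : Type} [Field K] [NumberField K] {m : ℕ}

lemma norm_eq_iSup [Nonempty (Fin m)] (f : Fin m → ℝ) (hf : ∀ i, 0 ≤ f i) : ‖f‖ = ⨆ i, f i := by
  apply le_antisymm
  · rw [pi_norm_le_iff_of_nonneg (Real.iSup_nonneg hf)]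
    intro i
    rw [Real.norm_of_nonneg (hf i)]
    exact le_ciSup (Finite.bddAbove_range f) i
  · refine ciSup_le fun i => ?_
    have := norm_le_pi_norm f i
    rwa [Real.norm_of_nonneg (hf i)] at this

/-- the height of a primitive vector -/
theorem mh_int {c : ClassGroup (𝓞 K)} {z : Fin m × Jx K → ℤ} (hz : z ∈ Vc c) :
    Height.mulHeight (kv (vec z)) * (Ideal.absNorm (Jr c) : ℝ) = Hc (ic z) := by
  have hz0 := ne_zero_of_mem hz
  have hv0 := vec_ne_zero.2 hz0
  have : Nonempty (Fin m) := by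
    obtain ⟨i, -⟩ := Function.ne_iff.1 hv0
    exact ⟨i⟩
  rw [NumberField.mulHeight_eq (kv_ne hv0)]
  have h1 := NumberField.absNorm_mul_finprod_finitePlace_eq_one (K := K) hv0
  have h2 : Ideal.span (Set.range (vec z)) = Jr c := hz
  rw [h2] at h1
  have h3 : (∏ᶠ v : FinitePlace K, ⨆ i, v (kv (vec z) i)) =
      ∏ᶠ v : FinitePlace K, ⨆ i, v ((vec z i : 𝓞 K) : K) := rfl
  rw [h3, mul_assoc, mul_comm (∏ᶠ v : FinitePlace K, ⨆ i, v ((vec z i : 𝓞 K) : K)), h1, mul_one]
  unfold Hc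
  refine prod_congr rfl fun w _ => ?_
  rw [sN_int, norm_eq_iSup _ fun i => apply_nonneg w _]
  rfl

lemma Jr_norm_pos (c : ClassGroup (𝓞 K)) : (1 : ℝ) ≤ Ideal.absNorm (Jr c) := by
  have : 0 < Ideal.absNorm (Jr c) := Nat.pos_of_ne_zero (by
    rw [Ne, Ideal.absNorm_eq_zero_iff]
    exact Jr_ne c)
  exact_mod_cast this

variable (K m) in
/-- points of small height have short primitive vectors -/
theorem small_rep : ∃ C : ℝ, 0 < C ∧ ∀ x : Fin m → K, x ≠ 0 → ∀ B : ℝ, 0 < B →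
    Height.mulHeight x ≤ B ^ (finrank ℚ K) → ∃ (c : ClassGroup (𝓞 K))
    (z : Fin m × Jx K → ℤ) (t : K), z ∈ Vc c ∧ t ≠ 0 ∧ kv (vec z) = t • x ∧ ‖ic z‖ ≤ C * B := by
  obtain ⟨R, hR, hcov⟩ := cover K
  obtain ⟨C, hC, hnorm⟩ := norm_le_sN K m
  set d := finrank ℚ K with hd
  have hd0 : (0 : ℝ) < d := fr_pos
  have hd1 : 0 < d := finrank_pos (R := ℚ) (M := K)
  set N : ℝ := ∑ c : ClassGroup (𝓞 K), (Ideal.absNorm (Jr c) : ℝ) with hN
  have hNc : ∀ c : ClassGroup (𝓞 K), (Ideal.absNorm (Jr c) : ℝ) ≤ N := fun c =>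
    single_le_sum (f := fun c : ClassGroup (𝓞 K) => (Ideal.absNorm (Jr c) : ℝ))
      (fun c _ => Nat.cast_nonneg _) (mem_univ c)
  have hN1 : 1 ≤ N := (Jr_norm_pos 1).trans (hNc 1)
  refine ⟨C * Real.exp (R + Real.log N / d), by positivity, fun x hx B hB hxB => ?_⟩
  obtain ⟨c, z₀, t, hz₀, ht, hk⟩ := exists_prim x hx
  obtain ⟨u, hu⟩ := hcov (el (ic z₀))
  obtain ⟨z, hz⟩ := vec_surj (m := m) ((u : 𝓞 K) • vec z₀)
  have hzc := unit_mem hz₀ u hz
  have hz0 := ne_zero_of_mem hzc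
  have huK : ((u : 𝓞 K) : K) ≠ 0 := by
    intro h
    exact u.ne_zero (FaithfulSMul.algebraMap_injective (𝓞 K) K (h.trans (map_zero _).symm))
  have hkz : kv (vec z) = (((u : 𝓞 K) : K) * t) • x := by
    rw [mul_smul, ← hk, hz]
    funext i
    exact map_mul (algebraMap (𝓞 K) K) _ _
  refine ⟨c, z, ((u : 𝓞 K) : K) * t, hzc, mul_ne_zero huK ht, hkz, ?_⟩
  have hH : Hc (ic z) ≤ N * B ^ d := by
    rw [← mh_int hzc, hkz, Height.mulHeight_smul_eq_mulHeight x (mul_ne_zero huK ht), mul_comm N]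
    exact mul_le_mul hxB (hNc c) (Nat.cast_nonneg _) (by positivity)
  have hpos : ∀ w, 0 < sN w (ic z) := fun w => sN_int_pos w hz0
  have h6 : ∀ w, sN w (ic z) ≤ Real.exp (R + Real.log N / d) * B := by
    intro w
    rw [el_unit (ne_zero_of_mem hz₀) u hz |>.symm] at hu
    have h7 := (norm_le_pi_norm (fun w => el (ic z) w - mn (el (ic z))) w).trans hu
    rw [Real.norm_eq_abs, mn_el hpos] at h7
    have h8 := (abs_le.1 h7).2
    have h9 : Real.log (Hc (ic z)) / d ≤ Real.log N / d + Real.log B := by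
      have h10 : Real.log (Hc (ic z)) ≤ Real.log N + d * Real.log B := by
        rw [← Real.log_pow, ← Real.log_mul (by positivity) (by positivity)]
        exact Real.log_le_log (Hc_int_pos hz0) hH
      rw [div_le_iff₀ hd0, add_mul, div_mul_cancel₀ _ hd0.ne']
      linarith
    have h10 : Real.log (sN w (ic z)) ≤ R + Real.log N / d + Real.log B := by
      have : el (ic z) w = Real.log (sN w (ic z)) := rfl
      linarith
    rw [Real.log_le_iff_le_exp (hpos w), Real.exp_add, Real.exp_log hB] at h10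
    exact h10
  rw [mul_assoc]
  exact hnorm _ _ (by positivity) h6

variable (K m) in
/-- the number of points of bounded height -/
theorem count_le : ∃ C : ℝ, 0 < C ∧ ∀ B : ℝ, 1 ≤ B →
    {P : Projectivization K (Fin m → K) | Height.mulHeight P.rep ≤ B ^ (finrank ℚ K)}.Finite ∧
    ({P : Projectivization K (Fin m → K) |
      Height.mulHeight P.rep ≤ B ^ (finrank ℚ K)}.ncard : ℝ) ≤ C * B ^ (m * finrank ℚ K) := by
  classical
  obtain ⟨C, hC, h⟩ := small_rep K m
  refine ⟨(2 * C + 1) ^ (m * finrank ℚ K), by positivity, fun B hB => ?_⟩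
  have hB0 : 0 < B := by linarith
  have hex : ∀ P : Projectivization K (Fin m → K), Height.mulHeight P.rep ≤ B ^ (finrank ℚ K) →
      ∃ (z : Fin m × Jx K → ℤ) (t : K), t ≠ 0 ∧ kv (vec z) = t • P.rep ∧ ‖ic z‖ ≤ C * B := by
    intro P hP
    obtain ⟨c, z, t, -, h2, h3, h4⟩ := h P.rep P.rep_nonzero B hB0 hP
    exact ⟨z, t, h2, h3, h4⟩
  choose! Z t ht hZ hZn using hex
  have hinj : Set.InjOn Z {P : Projectivization K (Fin m → K) |
      Height.mulHeight P.rep ≤ B ^ (finrank ℚ K)} := by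
    intro P hP P' hP' hPP
    have h1 := hZ P hP
    have h2 := hZ P' hP'
    rw [hPP, h2] at h1
    rw [← P.mk_rep, ← P'.mk_rep]
    refine (Projectivization.mk_eq_mk_iff' K _ _ _ _).2 ⟨(t P)⁻¹ * t P', ?_⟩
    rw [mul_smul, h1, smul_smul, inv_mul_cancel₀ (ht P hP), one_smul]
  have himg : Z '' {P : Projectivization K (Fin m → K) |
      Height.mulHeight P.rep ≤ B ^ (finrank ℚ K)} ⊆ {z | ‖ic z‖ ≤ C * B} := by
    rintro _ ⟨P, hP, rfl⟩
    exact hZn P hP
  have hfin : {P : Projectivization K (Fin m → K) |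
      Height.mulHeight P.rep ≤ B ^ (finrank ℚ K)}.Finite :=
    Set.Finite.of_finite_image ((finite_box (C * B)).subset himg) hinj
  refine ⟨hfin, ?_⟩
  obtain ⟨S, hS⟩ : ∃ S : Finset (Fin m × Jx K → ℤ), S = (finite_box (C * B)).toFinset := ⟨_, rfl⟩
  have hmemS : ∀ z, z ∈ S ↔ ‖ic z‖ ≤ C * B := by
    intro z
    rw [hS, Set.Finite.mem_toFinset]
    rfl
  have h1 : {P : Projectivization K (Fin m → K) |
      Height.mulHeight P.rep ≤ B ^ (finrank ℚ K)}.ncard ≤ S.card := by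
    rw [← Set.InjOn.ncard_image hinj, ← Set.ncard_coe_finset S]
    refine Set.ncard_le_ncard (fun z hz => ?_) S.finite_toSet
    exact mem_coe.2 ((hmemS z).2 (himg hz))
  have h2 := card_box_le (C * B) (by positivity) S (fun z hz => (hmemS z).1 hz)
  rw [card_idx] at h2
  calc _ ≤ ((S.card : ℕ) : ℝ) := by
        exact_mod_cast h1
    _ ≤ (2 * (C * B) + 1) ^ (m * finrank ℚ K) := h2
    _ ≤ ((2 * C + 1) * B) ^ (m * finrank ℚ K) := by
        refine pow_le_pow_left₀ (by positivity) ?_ _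
        nlinarith
    _ = _ := mul_pow _ _ _

end

end Pool.Agent.N906.EQ
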