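import Mathlib

/-!
# A partition of unity for the logarithms of units
-/

set_option autoImplicit false
set_option linter.unusedSectionVars false

namespace Pool.Agent.N906.EQ

open NumberField NumberField.InfinitePlace NumberField.Units NumberField.Units.dirichletUnitTheorem
  Module Finset Filter Topology

section

variable {K : Type} [Field K] [NumberField K]

/-- the logarithms of a unit -/
noncomputable def lu (u : (𝓞 K)ˣ) : InfinitePlace K → ℝ := fun w => Real.log (w ((u : 𝓞 K) : K))

/-- the mean -/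
noncomputable def mn (t : InfinitePlace K → ℝ) : ℝ := (∑ w, (w.mult : ℝ) * t w) / finrank ℚ K

/-- the deviation from the mean -/
noncomputable def dv (t : InfinitePlace K → ℝ) : ℝ := ‖fun w => t w - mn t‖

lemma fr_pos : (0 : ℝ) < finrank ℚ K := by exact_mod_cast finrank_pos (R := ℚ) (M := K)

lemma sum_mult : ∑ w : InfinitePlace K, (w.mult : ℝ) = finrank ℚ K := by
  exact_mod_cast sum_mult_eq (K := K)

lemma mult_ge (w : InfinitePlace K) : (1 : ℝ) ≤ w.mult := by
  exact_mod_cast one_le_mult (w := w)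

lemma lu_mul (u v : (𝓞 K)ˣ) : lu (u * v) = lu u + lu v := by
  funext w
  have h1 : w ((u : 𝓞 K) : K) ≠ 0 := (Units.pos_at_place u w).ne'
  have h2 : w ((v : 𝓞 K) : K) ≠ 0 := (Units.pos_at_place v w).ne'
  have h3 : (((u * v : (𝓞 K)ˣ) : 𝓞 K) : K) = ((u : 𝓞 K) : K) * ((v : 𝓞 K) : K) := by
    rw [Units.val_mul]
    exact map_mul (algebraMap (𝓞 K) K) _ _
  simp only [lu, Pi.add_apply]
  rw [h3, map_mul, Real.log_mul h1 h2]

lemma mn_add (s t : InfinitePlace K → ℝ) : mn (s + t) = mn s + mn t := by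
  unfold mn
  rw [← add_div, ← sum_add_distrib]
  congr 1
  exact sum_congr rfl fun w _ => by rw [Pi.add_apply, mul_add]

lemma mn_const (c : ℝ) : mn (fun _ : InfinitePlace K => c) = c := by
  unfold mn
  rw [← sum_mul, sum_mult, mul_div_assoc, mul_div_cancel₀ _ (fr_pos (K := K)).ne']

lemma mn_lu (u : (𝓞 K)ˣ) : mn (lu u) = 0 := by
  unfold mn lu
  have := sum_mult_mul_log u
  rw [this, zero_div]

lemma mn_add_lu (t : InfinitePlace K → ℝ) (u : (𝓞 K)ˣ) : mn (t + lu u) = mn t := by
  rw [mn_add, mn_lu, add_zero]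

lemma abs_mn_le (t : InfinitePlace K → ℝ) : |mn t| ≤ ‖t‖ := by
  unfold mn
  rw [abs_div, abs_of_pos (fr_pos (K := K)), div_le_iff₀ (fr_pos (K := K))]
  calc |∑ w, (w.mult : ℝ) * t w| ≤ ∑ w : InfinitePlace K, (w.mult : ℝ) * ‖t‖ := by
        refine (abs_sum_le_sum_abs _ _).trans (sum_le_sum fun w _ => ?_)
        rw [abs_mul, abs_of_nonneg (Nat.cast_nonneg _)]
        exact mul_le_mul_of_nonneg_left (norm_le_pi_norm t w) (Nat.cast_nonneg _)
    _ = ‖t‖ * finrank ℚ K := by rw [← sum_mul, sum_mult, mul_comm]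

lemma mn_continuous : Continuous (mn : (InfinitePlace K → ℝ) → ℝ) := by
  unfold mn
  fun_prop

lemma dv_continuous : Continuous (dv : (InfinitePlace K → ℝ) → ℝ) := by
  unfold dv
  refine continuous_norm.comp (continuous_pi fun w => ?_)
  exact (continuous_apply w).sub mn_continuous

lemma dv_add_const (t : InfinitePlace K → ℝ) (c : ℝ) : dv (t + fun _ => c) = dv t := by
  unfold dv
  congr 1
  funext w
  rw [mn_add, mn_const, Pi.add_apply]
  ring

open scoped Classical in
/-- a real basis of the logarithmic space, consisting of the vectors of fundamental units -/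
noncomputable def ub (K : Type) [Field K] [NumberField K] :
    Basis (Fin (Units.rank K)) ℝ (logSpace K) :=
  (basisUnitLattice K).ofZLatticeBasis ℝ _

open scoped Classical in
theorem exists_unit_repr (m : Fin (Units.rank K) → ℤ) : ∃ u : (𝓞 K)ˣ,
    ∀ j, (ub K).repr (logEmbedding K (Additive.ofMul u)) j = m j := by
  set x : unitLattice K := ∑ j, m j • basisUnitLattice K j with hx
  obtain ⟨u, _, hu⟩ := x.2
  refine ⟨Additive.toMul u, fun j => ?_⟩
  have h1 : logEmbedding K (Additive.ofMul (Additive.toMul u)) = (x : logSpace K) := hu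
  rw [h1]
  have h2 := (basisUnitLattice K).ofZLatticeBasis_repr_apply ℝ (unitLattice K) x j
  rw [ub, h2, hx]
  simp [Finsupp.single_apply]

variable (K) in
/-- every vector can be balanced by a unit -/
theorem cover : ∃ R : ℝ, 0 < R ∧ ∀ t : InfinitePlace K → ℝ, ∃ u : (𝓞 K)ˣ, dv (t + lu u) ≤ R := by
  classical
  set C1 : ℝ := ∑ j, ‖ub K j‖ with hC1
  have hC10 : 0 ≤ C1 := by positivity
  refine ⟨(Fintype.card (InfinitePlace K) + 1) * (C1 + 1), by positivity, fun t => ?_⟩
  set l : logSpace K := fun w => (mult w.1 : ℝ) * (t w.1 - mn t) with hl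
  obtain ⟨u, hu⟩ := exists_unit_repr (K := K) fun j => -⌊(ub K).repr l j⌋
  refine ⟨u, ?_⟩
  set m : InfinitePlace K → ℝ := fun w => (w.mult : ℝ) * ((t + lu u) w - mn (t + lu u)) with hm
  have hsum : ∑ w, m w = 0 := by
    simp only [hm, mul_sub, sum_sub_distrib]
    rw [← sum_mul, sum_mult]
    unfold mn
    rw [mul_div_cancel₀ _ (fr_pos (K := K)).ne', sub_self]
  have h1 : ‖l + logEmbedding K (Additive.ofMul u)‖ ≤ C1 := by
    rw [← (ub K).sum_repr (l + logEmbedding K (Additive.ofMul u)), hC1]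
    refine (norm_sum_le _ _).trans (sum_le_sum fun j _ => ?_)
    rw [norm_smul]
    refine mul_le_of_le_one_left (norm_nonneg _) ?_
    rw [map_add, Finsupp.add_apply, hu, Real.norm_eq_abs, abs_le]
    have h2 := Int.floor_le ((ub K).repr l j)
    have h3 := Int.lt_floor_add_one ((ub K).repr l j)
    push_cast
    constructor <;> linarith
  have h2 : ∀ w : InfinitePlace K, w ≠ w₀ → |m w| ≤ C1 := by
    intro w hw
    have h3 := (norm_le_pi_norm (l + logEmbedding K (Additive.ofMul u)) ⟨w, hw⟩).trans h1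
    rw [Real.norm_eq_abs, Pi.add_apply, logEmbedding_component] at h3
    have h4 : m w = l ⟨w, hw⟩ + (w.mult : ℝ) * Real.log (w ((u : 𝓞 K) : K)) := by
      simp only [hm, hl, mn_add_lu, Pi.add_apply, lu]
      ring
    rw [h4]
    exact h3
  have h3 : |m w₀| ≤ Fintype.card (InfinitePlace K) * C1 := by
    have h4 : m w₀ = -∑ w ∈ univ.erase (w₀ : InfinitePlace K), m w := by
      rw [← add_sum_erase univ m (mem_univ w₀)] at hsum
      linarith
    rw [h4, abs_neg]
    refine (abs_sum_le_sum_abs _ _).trans ?_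
    calc ∑ w ∈ univ.erase (w₀ : InfinitePlace K), |m w|
        ≤ ∑ w ∈ univ.erase (w₀ : InfinitePlace K), C1 :=
          sum_le_sum fun w hw => h2 w (ne_of_mem_erase hw)
      _ = (univ.erase (w₀ : InfinitePlace K)).card * C1 := by rw [sum_const, nsmul_eq_mul]
      _ ≤ _ := by
          refine mul_le_mul_of_nonneg_right ?_ hC10
          exact_mod_cast (card_le_card (erase_subset _ _)).trans (le_of_eq card_univ)
  unfold dv
  rw [pi_norm_le_iff_of_nonneg (by positivity)]
  intro w
  have h4 : |m w| ≤ (Fintype.card (InfinitePlace K) + 1) * (C1 + 1) := by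
    by_cases hw : w = w₀
    · rw [hw]
      refine h3.trans ?_
      have : (0 : ℝ) ≤ Fintype.card (InfinitePlace K) := Nat.cast_nonneg _
      nlinarith
    · refine (h2 w hw).trans ?_
      have : (0 : ℝ) ≤ Fintype.card (InfinitePlace K) := Nat.cast_nonneg _
      nlinarith
  refine le_trans ?_ h4
  rw [Real.norm_eq_abs]
  simp only [hm]
  rw [abs_mul, abs_of_nonneg (show (0 : ℝ) ≤ w.mult from Nat.cast_nonneg _)]
  exact le_mul_of_one_le_left (abs_nonneg _) (mult_ge w)

/-- few units have small logarithms -/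
theorem finite_units (C : ℝ) : {u : (𝓞 K)ˣ | ‖lu u‖ ≤ C}.Finite := by
  have hfin := NumberField.finite_setOfPred_logHeight₁_le K
    (∑ w : InfinitePlace K, (w.mult : ℝ) * max 0 C)
  refine Set.Finite.of_finite_image (f := fun u : (𝓞 K)ˣ => ((u : 𝓞 K) : K))
    (hfin.subset ?_) ?_
  · rintro _ ⟨u, hu, rfl⟩
    show Height.logHeight₁ _ ≤ _
    rw [NumberField.logHeight₁_eq]
    have h1 : ∑ᶠ v : FinitePlace K, Real.posLog (v ((u : 𝓞 K) : K)) = 0 := by
      refine finsum_eq_zero_of_forall_eq_zero fun v => ?_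
      have h2 : v ((u : 𝓞 K) : K) ≤ 1 := by
        rw [← FinitePlace.norm_embedding_eq]
        exact FinitePlace.norm_le_one K v.maximalIdeal (u : 𝓞 K)
      exact (Real.posLog_eq_zero_iff _).2 (by rw [abs_of_nonneg (apply_nonneg v _)]; exact h2)
    rw [h1, add_zero]
    refine sum_le_sum fun w _ => mul_le_mul_of_nonneg_left ?_ (Nat.cast_nonneg _)
    rw [Real.posLog_apply]
    exact max_le_max le_rfl ((le_abs_self _).trans ((norm_le_pi_norm (lu u) w).trans hu))
  · intro u _ v _ h
    apply Units.ext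
    exact RingOfIntegers.coe_injective h

variable (K) in
/-- **The weight.** -/
theorem exists_weight : ∃ (Φ : (InfinitePlace K → ℝ) → ℝ) (R : ℝ), 0 < R ∧ Continuous Φ ∧
    (∀ t, 0 ≤ Φ t) ∧ (∀ t, Φ t ≤ 1) ∧ (∀ t, Φ t ≠ 0 → dv t ≤ R) ∧
    (∀ t, HasSum (fun u : (𝓞 K)ˣ => Φ (t + lu u)) 1) ∧
    ∀ t (c : ℝ), Φ (t + fun _ => c) = Φ t := by
  classical
  obtain ⟨R₀, hR₀, hcov⟩ := cover K
  set R := R₀ + 1 with hR
  have hR0 : 0 < R := by positivity
  set g : (InfinitePlace K → ℝ) → ℝ := fun t => max 0 (R - dv t) with hg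
  have hg0 : ∀ t, 0 ≤ g t := fun t => le_max_left _ _
  have hgc : Continuous g := continuous_const.max (continuous_const.sub dv_continuous)
  have hgs : ∀ t, g t ≠ 0 → dv t ≤ R := by
    intro t h
    by_contra h1
    rw [not_le] at h1
    exact h (max_eq_left (by linarith))
  -- finiteness
  have hfin : ∀ t : InfinitePlace K → ℝ, ∀ A : ℝ, ‖t‖ ≤ A → ∀ u : (𝓞 K)ˣ,
      g (t + lu u) ≠ 0 → ‖lu u‖ ≤ R + 2 * A := by
    intro t A hA u hu
    have h1 := hgs _ hu
    have hA0 : 0 ≤ A := (norm_nonneg t).trans hA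
    rw [pi_norm_le_iff_of_nonneg (by positivity)]
    intro w
    have h2 := (norm_le_pi_norm (fun w => (t + lu u) w - mn (t + lu u)) w).trans h1
    rw [mn_add_lu, Real.norm_eq_abs, Pi.add_apply] at h2
    have h3 := (abs_mn_le t).trans hA
    have h4 := (norm_le_pi_norm t w).trans hA
    rw [Real.norm_eq_abs] at h4 ⊢
    rw [abs_le] at h2 h3 h4 ⊢
    constructor <;> linarith [h2.1, h2.2, h3.1, h3.2, h4.1, h4.2]
  set G : (InfinitePlace K → ℝ) → ℝ := fun t => ∑' u : (𝓞 K)ˣ, g (t + lu u) with hG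
  have hsum : ∀ t, Summable fun u : (𝓞 K)ˣ => g (t + lu u) := by
    intro t
    apply summable_of_hasFiniteSupport
    exact (finite_units (R + 2 * ‖t‖)).subset fun u hu => hfin t _ le_rfl u hu
  have hGc : Continuous G := by
    rw [continuous_iff_continuousAt]
    intro t₀
    set A := ‖t₀‖ + 1 with hA
    have hF := finite_units (K := K) (R + 2 * A)
    have h1 : (fun t => ∑ u ∈ hF.toFinset, g (t + lu u)) =ᶠ[𝓝 t₀] G := by
      filter_upwards [Metric.ball_mem_nhds t₀ one_pos] with t ht
      rw [Metric.mem_ball, dist_eq_norm] at ht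
      have ht' : ‖t‖ ≤ A := by
        have := norm_add_le (t - t₀) t₀
        rw [sub_add_cancel] at this
        linarith
      rw [hG]
      simp only
      rw [tsum_eq_sum]
      intro u hu
      by_contra h
      exact hu (hF.mem_toFinset.2 (hfin t A ht' u h))
    refine ContinuousAt.congr ?_ h1
    refine Continuous.continuousAt (continuous_finsetSum _ fun u _ => ?_)
    exact hgc.comp (continuous_id.add continuous_const)
  have hG1 : ∀ t, 1 ≤ G t := by
    intro t
    obtain ⟨u, hu⟩ := hcov t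
    have h1 : 1 ≤ g (t + lu u) := by
      rw [hg]
      exact le_max_of_le_right (by rw [hR]; linarith)
    exact h1.trans ((hsum t).le_tsum u fun _ _ => hg0 _)
  have hGu : ∀ t (u : (𝓞 K)ˣ), G (t + lu u) = G t := by
    intro t u
    rw [hG]
    simp only
    rw [← (Equiv.mulLeft u).tsum_eq (fun v : (𝓞 K)ˣ => g (t + lu v))]
    refine tsum_congr fun v => ?_
    rw [Equiv.coe_mulLeft, lu_mul, add_assoc]
  have hgconst : ∀ t (c : ℝ), g (t + fun _ => c) = g t := by
    intro t c
    rw [hg]
    simp only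
    rw [dv_add_const]
  refine ⟨fun t => g t / G t, R, hR0, hgc.div hGc fun t => by linarith [hG1 t], ?_, ?_, ?_, ?_, ?_⟩
  · intro t
    exact div_nonneg (hg0 t) (by linarith [hG1 t])
  · intro t
    rw [div_le_one (by linarith [hG1 t])]
    have h1 : g t = g (t + lu 1) := by
      congr 1
      funext w
      simp [lu]
    rw [h1]
    exact (hsum t).le_tsum 1 fun _ _ => hg0 _
  · intro t h
    apply hgs
    intro h1
    exact h (by simp only; rw [h1, zero_div])
  · intro t
    have h1 := (hsum t).hasSum.div_const (G t)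
    have h2 : (∑' u : (𝓞 K)ˣ, g (t + lu u)) / G t = 1 := div_self (by linarith [hG1 t])
    rw [h2] at h1
    refine h1.congr_fun fun u => ?_
    simp only
    rw [hGu]
  · intro t c
    simp only
    rw [hgconst]
    congr 1
    rw [hG]
    refine tsum_congr fun u => ?_
    rw [show t + (fun _ => c) + lu u = t + lu u + fun _ => c by
      funext w; simp only [Pi.add_apply]; ring, hgconst]

end

end Pool.Agent.N906.EQ
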