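import Pool.Agent.N906.EQ.Soft

/-!
# The limit law in both orders
-/

set_option autoImplicit false

namespace Pool.Agent.N906.EQ

open Filter Topology MeasureTheory

/-- **The limit law, in both orders.** -/
theorem soft {Ω : Type} {ρ E : Ω → ℝ} {κ D c₀ C : ℝ} (hκ : 0 < κ) (hD : 0 < D)
    (hρ : ∀ P, 0 < ρ P) (hT : Tail (rn ρ E κ) E D c₀) (hC0 : 0 ≤ C)
    (hC : ∀ B : ℝ, 1 ≤ B → ({P | ρ P ≤ B}.ncard : ℝ) ≤ C * B ^ D)
    (hsm : ∀ f : ℝ → ℝ, Continuous f → (∀ x, 0 ≤ f x) → (∃ M : ℝ, ∀ x, |f x| ≤ M) →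
      (∃ b : ℝ, ∀ x, b ≤ x → f x = 0) →
      ∀ χ : ℝ → ℝ, Continuous χ → (∃ a₀ : ℝ, 0 < a₀ ∧ ∀ y, y ≤ a₀ → χ y = 0) →
      (∃ b : ℝ, ∀ y, b ≤ y → χ y = 0) → (∃ M : ℝ, ∀ y, |χ y| ≤ M) →
      ∃ ℓ : ℝ, Tendsto (fun B : ℝ => (∑' P, χ (ρ P / B) * f (E P)) / B ^ D) atTop (𝓝 ℓ)) :
    ∃ μ : Measure ℝ, IsFiniteMeasure μ ∧ Integrable (fun s => Real.exp (D * s / κ)) μ ∧
      (∀ f : ℝ → ℝ, Continuous f → (∃ M : ℝ, ∀ x, |f x| ≤ M) →
        Tendsto (fun B : ℝ => SS ρ E f B / B ^ D) atTop (𝓝 (∫ x, f x ∂μ))) ∧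
      (∀ f : ℝ → ℝ, Continuous f → (∃ M : ℝ, ∀ x, |f x| ≤ M) →
        Tendsto (fun B : ℝ => SS (rn ρ E κ) E f B / B ^ D) atTop
          (𝓝 (∫ x, f x * Real.exp (D * x / κ) ∂μ))) := by
  have hfin := rn_fin hρ hκ hT
  have hlim : ∀ f : ℝ → ℝ, Continuous f → HasCompactSupport f → (∀ x, 0 ≤ f x) →
      ∃ ℓ : ℝ, Tendsto (fun B : ℝ => SS ρ E f B / B ^ D) atTop (𝓝 ℓ) := by
    intro f hf hcs hf0
    obtain ⟨M, hM⟩ : ∃ M : ℝ, ∀ x, |f x| ≤ M := by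
      obtain ⟨M, hM⟩ := hcs.exists_bound_of_continuous hf
      exact ⟨M, fun x => by rw [← Real.norm_eq_abs]; exact hM x⟩
    obtain ⟨b, hb⟩ : ∃ b : ℝ, ∀ x, b ≤ x → f x = 0 := by
      obtain ⟨M', hM'⟩ := hcs.isCompact.isBounded.exists_norm_le
      refine ⟨M' + 1, fun x hx => ?_⟩
      by_contra h
      have h1 := hM' x (subset_tsupport f h)
      rw [Real.norm_eq_abs] at h1
      linarith [le_abs_self x]
    have hM0 : 0 ≤ M := (abs_nonneg _).trans (hM 0)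
    exact cutoff ρ (fun P => f (E P)) hD hC0 hρ (fun P => hf0 _) hM0
      (fun P => (le_abs_self _).trans (hM _)) hfin hC (hsm f hf hf0 ⟨M, hM⟩ ⟨b, hb⟩)
  obtain ⟨μ, hμc, hμ⟩ := exists_measure hfin hlim
  obtain ⟨hμf, hμb⟩ := extend (tail_size hκ hD hρ hT) hμ
  -- the weighted measure
  set w : ℝ → ℝ := fun x => Real.exp (D * x / κ) with hw
  have hwc : Continuous w := by
    rw [hw]
    fun_prop
  set ν : Measure ℝ := μ.withDensity fun x => ENNReal.ofReal (w x) with hν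
  have hνl : IsLocallyFiniteMeasure ν := IsLocallyFiniteMeasure.withDensity_ofReal hwc
  have hint : ∀ f : ℝ → ℝ, ∫ x, f x ∂ν = ∫ x, f x * Real.exp (D * x / κ) ∂μ := by
    intro f
    rw [hν, integral_withDensity_eq_integral_toReal_smul (by fun_prop)
      (Eventually.of_forall fun x => ENNReal.ofReal_lt_top)]
    refine integral_congr_ae (Eventually.of_forall fun x => ?_)
    show (ENNReal.ofReal (w x)).toReal • f x = f x * Real.exp (D * x / κ)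
    rw [ENNReal.toReal_ofReal (Real.exp_pos _).le, smul_eq_mul, mul_comm]
  have hνc : ConvC (rn ρ E κ) E D ν := by
    intro f hf hcs hf0
    rw [hint]
    exact convC_rn hκ hρ hfin hT.fin hD hμ hf hcs hf0
  obtain ⟨hνf, hνb⟩ := extend hT hνc
  refine ⟨μ, hμf, ?_, hμb, fun f hf hM => ?_⟩
  · refine ⟨hwc.aestronglyMeasurable, ?_⟩
    rw [hasFiniteIntegral_iff_ofReal (Eventually.of_forall fun x => (Real.exp_pos _).le)]
    have h1 : ν Set.univ < ⊤ := measure_lt_top ν _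
    rw [hν, withDensity_apply _ MeasurableSet.univ, Measure.restrict_univ] at h1
    exact h1
  · rw [← hint]
    exact hνb f hf hM

/-- the sum for the constant function `1` -/
lemma ss_one {Ω : Type} {ρ E : Ω → ℝ} (hfin : ∀ B : ℝ, {P | ρ P ≤ B}.Finite) (B : ℝ) :
    SS ρ E (fun _ => 1) B = ({P | ρ P ≤ B}.ncard : ℝ) := by
  classical
  unfold SS
  rw [tsum_eq_sum (s := (hfin B).toFinset), Set.ncard_eq_toFinset_card _ (hfin B)]
  · have h1 : ∀ P ∈ (hfin B).toFinset, (if ρ P ≤ B then (1 : ℝ) else 0) = 1 := fun P hP =>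
      if_pos ((hfin B).mem_toFinset.1 hP)
    rw [Finset.sum_congr rfl h1, Finset.sum_const, nsmul_eq_mul, mul_one]
  · intro P hP
    exact if_neg fun h => hP ((hfin B).mem_toFinset.2 h)

end Pool.Agent.N906.EQ
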