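import Pool.Agent.N906.EQ.Smooth
import Pool.Agent.N906.EQ.Soft2

/-!
# The limit law for sums over the points of projective space
-/

set_option autoImplicit false
set_option linter.unusedSectionVars false

namespace Pool.Agent.N906.EQ

open NumberField NumberField.InfinitePlace IsDedekindDomain Module Finset Filter Topology
  Pool.Agent.N852 Pool.Agent.H691R3 Pool.Agent.TH876.Loc MeasureTheory

section

variable {K : Type} [Field K] [NumberField K] {m q : ℕ}

/-- the height as a sum over the places -/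
lemma logHeight_sum {x : Fin m → K} (hx : x ≠ 0) : Height.logHeight x =
    ∑ w : InfinitePlace K, (w.mult : ℝ) * Real.log (iN w x) + ∑ᶠ v : Pr K, Real.log (fN v x) := by
  have : Nonempty (Fin m) := by
    obtain ⟨i, -⟩ := Function.ne_iff.1 hx
    exact ⟨i⟩
  have e1 : ∏ᶠ v : FinitePlace K, ⨆ i, v (x i) = ∏ᶠ v : Pr K, fN v x := by
    rw [← finprod_comp_equiv (FinitePlace.equivHeightOneSpectrum (K := K)).symm]
    refine finprod_congr fun v => ?_
    unfold fN
    rw [norm_eq_iSup _ fun i => (fv v).nonneg _]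
    rfl
  have hS : (Function.mulSupport fun v : Pr K => fN v x) ⊆ ((fN_finite hx).toFinset : Set (Pr K)) := by
    intro v hv
    rw [Set.Finite.coe_toFinset]
    exact hv
  have e2 : ∏ᶠ v : Pr K, fN v x = ∏ v ∈ (fN_finite hx).toFinset, fN v x :=
    finprod_eq_prod_of_mulSupport_subset _ hS
  have e3 : ∑ᶠ v : Pr K, Real.log (fN v x) = ∑ v ∈ (fN_finite hx).toFinset, Real.log (fN v x) := by
    refine finsum_eq_sum_of_support_subset _ ?_
    intro v hv
    apply hS
    intro h
    have h' : fN v x = 1 := h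
    rw [Function.mem_support, h', Real.log_one] at hv
    exact hv rfl
  rw [Height.logHeight_eq_log_mulHeight, NumberField.mulHeight_eq hx, e1, e2, e3, Real.log_mul,
    Real.log_prod, Real.log_prod]
  · congr 1
    refine sum_congr rfl fun w _ => ?_
    rw [Real.log_pow]
    unfold iN
    rw [norm_eq_iSup _ fun i => apply_nonneg w _]
  · intro v _
    exact (fN_pos v hx).ne'
  · intro w _
    have h1 := iN_pos w hx
    unfold iN at h1
    rw [norm_eq_iSup _ fun i => apply_nonneg w _] at h1
    exact (pow_pos h1 _).ne'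
  · refine (prod_pos fun w _ => pow_pos ?_ _).ne'
    have h1 := iN_pos w hx
    unfold iN at h1
    rwa [norm_eq_iSup _ fun i => apply_nonneg w _] at h1
  · exact (prod_pos fun v _ => fN_pos v hx).ne'

lemma log_fN_finite {x : Fin m → K} (hx : x ≠ 0) :
    (Function.support fun v : Pr K => Real.log (fN v x)).Finite := by
  refine (fN_finite hx).subset fun v hv => ?_
  intro h
  rw [Function.mem_support, h, Real.log_one] at hv
  exact hv rfl

lemma ne_of_lf {L x : Fin m → K} (h : lfK L x ≠ 0) : L ≠ 0 ∧ x ≠ 0 := by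
  constructor
  · rintro rfl
    exact h (sum_eq_zero fun i _ => by simp)
  · rintro rfl
    exact h (sum_eq_zero fun i _ => by simp)

/-- the sum of all the local heights -/
lemma sum_loc {L x : Fin m → K} (h : lfK L x ≠ 0) :
    ∑ w : InfinitePlace K, (w.mult : ℝ) * lamI w L x + ∑ᶠ v : Pr K, lamF v L x =
      Height.logHeight x + Height.logHeight L := by
  obtain ⟨hL, hx⟩ := ne_of_lf h
  have h1 := log_product_formula (K := K) h
  have e1 : ∑ w : InfinitePlace K, (w.mult : ℝ) * lamI w L x =
      ∑ w : InfinitePlace K, (w.mult : ℝ) * Real.log (iN w x) +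
      ∑ w : InfinitePlace K, (w.mult : ℝ) * Real.log (iN w L) -
      ∑ w : InfinitePlace K, (w.mult : ℝ) * Real.log (w (lfK L x)) := by
    rw [← sum_add_distrib, ← sum_sub_distrib]
    refine sum_congr rfl fun w _ => ?_
    unfold lamI
    rw [Real.log_div (mul_pos (iN_pos w hx) (iN_pos w hL)).ne' ((w.pos_iff).2 h).ne',
      Real.log_mul (iN_pos w hx).ne' (iN_pos w hL).ne']
    ring
  have e2 : ∑ᶠ v : Pr K, lamF v L x = ∑ᶠ v : Pr K, Real.log (fN v x) +
      ∑ᶠ v : Pr K, Real.log (fN v L) - ∑ᶠ v : Pr K, Real.log (fv v (lfK L x)) := by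
    rw [← finsum_add_distrib (log_fN_finite hx) (log_fN_finite hL),
      ← finsum_sub_distrib _ (log_fv_support_finite h)]
    · refine finsum_congr fun v => ?_
      unfold lamF
      rw [Real.log_div (mul_pos (fN_pos v hx) (fN_pos v hL)).ne' ((fv v).pos h).ne',
        Real.log_mul (fN_pos v hx).ne' (fN_pos v hL).ne']
    · exact ((log_fN_finite hx).union (log_fN_finite hL)).subset (Function.support_add _ _)
  rw [e1, e2, logHeight_sum hx, logHeight_sum hL]
  linarith

lemma lamF_finite {L x : Fin m → K} (h : lfK L x ≠ 0) :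
    (Function.support fun v : Pr K => lamF v L x).Finite := by
  obtain ⟨hL, hx⟩ := ne_of_lf h
  refine (((fN_finite hx).union (fN_finite hL)).union (fv_support_finite h)).subset fun v hv => ?_
  by_contra hcon
  simp only [Set.mem_union, Set.mem_ofPred_eq] at hcon
  push Not at hcon
  apply hv
  show lamF v L x = 0
  unfold lamF
  rw [hcon.1.1, hcon.1.2, hcon.2, mul_one, div_one, Real.log_one]

lemma lamF_nonneg' (v : Pr K) {L x : Fin m → K} (h : lfK L x ≠ 0) : 0 ≤ lamF v L x := by
  obtain ⟨n, hn, -⟩ := lamF_discrete v h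
  rw [hn]
  exact mul_nonneg (Nat.cast_nonneg _) (Real.log_nonneg (Nv_gt v).le)

/-- `d` times the truncated counting function -/
noncomputable def NTd (T : Set (Pr K)) (L : Fin q → Fin m → K) (x : Fin m → K) : ℝ :=
  ∑ᶠ (v : Pr K) (_ : v ∉ T), ∑ l, min (lamF v (L l) x) (Real.log (Nv v))

open Classical in
/-- what is lost at a prime -/
noncomputable def gT (T : Set (Pr K)) (v : Pr K) (t : ℝ) : ℝ :=
  if v ∈ T then t else t - min t (Real.log (Nv v))

lemma gT_nonneg (T : Set (Pr K)) (v : Pr K) {t : ℝ} (ht : 0 ≤ t) : 0 ≤ gT T v t := by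
  unfold gT
  split_ifs
  · exact ht
  · linarith [min_le_left t (Real.log (Nv v))]

lemma gT_zero {T : Set (Pr K)} {v : Pr K} (hv : v ∉ T) :
    gT T v 0 = 0 ∧ gT T v (Real.log (Nv v)) = 0 := by
  have h1 : 0 ≤ Real.log (Nv v) := Real.log_nonneg (Nv_gt v).le
  unfold gT
  rw [if_neg hv, if_neg hv, min_eq_left h1, min_self]
  simp

/-- the error term is the difference of the height and the counting function -/
lemma DE_eq (T : Set (Pr K)) (L : Fin q → Fin m → K) {x : Fin m → K}
    (h : ∀ l, lfK (L l) x ≠ 0) : DE (gT T) L x =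
      q * Height.logHeight x + ∑ l, Height.logHeight (L l) - NTd T L x := by
  classical
  have h1 : (q : ℝ) * Height.logHeight x + ∑ l, Height.logHeight (L l) =
      ∑ l, ∑ w : InfinitePlace K, (w.mult : ℝ) * lamI w (L l) x +
        ∑ᶠ v : Pr K, ∑ l, lamF v (L l) x := by
    rw [finsum_sum_comm _ _ fun l _ => lamF_finite (h l), ← sum_add_distrib,
      sum_congr rfl fun l _ => sum_loc (h l), sum_add_distrib, sum_const, card_univ,
      Fintype.card_fin, nsmul_eq_mul]
  have h2 : NTd T L x = ∑ᶠ v : Pr K, ∑ l, (if v ∈ T then 0 else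
      min (lamF v (L l) x) (Real.log (Nv v))) := by
    unfold NTd
    refine finsum_congr fun v => ?_
    rw [finsum_eq_if]
    by_cases hv : v ∈ T
    · rw [if_neg (not_not.2 hv)]
      simp [hv]
    · rw [if_pos hv]
      simp [hv]
  have h0 : ∀ v : Pr K, 0 ≤ Real.log (Nv v) := fun v => Real.log_nonneg (Nv_gt v).le
  have hfin : ∀ l, (Function.support fun v : Pr K => if v ∈ T then (0 : ℝ) else
      min (lamF v (L l) x) (Real.log (Nv v))).Finite := by
    intro l
    refine (lamF_finite (h l)).subset fun v hv => ?_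
    rw [Function.mem_support] at hv ⊢
    intro h3
    apply hv
    rw [h3, min_eq_left (h0 v)]
    split_ifs <;> rfl
  have h3 : ∑ᶠ v : Pr K, ∑ l, gT T v (lamF v (L l) x) =
      ∑ᶠ v : Pr K, ∑ l, lamF v (L l) x - NTd T L x := by
    rw [h2, ← finsum_sub_distrib]
    · refine finsum_congr fun v => ?_
      rw [← sum_sub_distrib]
      refine sum_congr rfl fun l _ => ?_
      unfold gT
      split_ifs
      · ring
      · rfl
    · refine (Set.finite_iUnion fun l => lamF_finite (h l)).subset fun v hv => ?_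
      rw [Set.mem_iUnion]
      by_contra hcon
      push Not at hcon
      apply hv
      exact sum_eq_zero fun l _ => by
        have := hcon l
        rwa [Function.notMem_support] at this
    · refine (Set.finite_iUnion hfin).subset fun v hv => ?_
      rw [Set.mem_iUnion]
      by_contra hcon
      push Not at hcon
      apply hv
      exact sum_eq_zero fun l _ => by
        have := hcon l
        rwa [Function.notMem_support] at this
  unfold DE
  rw [h3, h1]
  ring

lemma lfK_inf_le (w : InfinitePlace K) (L x : Fin m → K) :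
    w (lfK L x) ≤ m * (iN w L * iN w x) := by
  unfold lfK
  calc w (∑ i, L i * x i) ≤ ∑ i, w (L i * x i) := by
        have := w.1.sum_le univ fun i => L i * x i
        exact this
    _ ≤ ∑ _i : Fin m, iN w L * iN w x := by
        refine sum_le_sum fun i _ => ?_
        rw [map_mul]
        refine mul_le_mul ?_ ?_ (apply_nonneg w _) (norm_nonneg _)
        · have := norm_le_pi_norm (fun i => w (L i)) i
          rwa [Real.norm_of_nonneg (apply_nonneg w _)] at this
        · have := norm_le_pi_norm (fun i => w (x i)) i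
          rwa [Real.norm_of_nonneg (apply_nonneg w _)] at this
    _ = _ := by rw [sum_const, card_univ, Fintype.card_fin, nsmul_eq_mul]

lemma lamI_ge (hm : 0 < m) (w : InfinitePlace K) {L x : Fin m → K} (h : lfK L x ≠ 0) :
    -Real.log m ≤ lamI w L x := by
  obtain ⟨hL, hx⟩ := ne_of_lf h
  have hmR : (0 : ℝ) < m := by exact_mod_cast hm
  unfold lamI
  rw [← Real.log_inv]
  refine Real.log_le_log (inv_pos.2 hmR) ?_
  rw [inv_eq_one_div, div_le_div_iff₀ hmR ((w.pos_iff).2 h), one_mul]
  have := lfK_inf_le w L x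
  linarith [mul_comm (iN w L) (iN w x)]

/-- a lower bound for the error term -/
lemma DE_ge (hm : 0 < m) (T : Set (Pr K)) (L : Fin q → Fin m → K) {x : Fin m → K}
    (h : ∀ l, lfK (L l) x ≠ 0) :
    -(∑ _l : Fin q, ∑ w : InfinitePlace K, (w.mult : ℝ) * Real.log m) ≤ DE (gT T) L x := by
  unfold DE
  have h1 : 0 ≤ ∑ᶠ v : Pr K, ∑ l, gT T v (lamF v (L l) x) :=
    finsum_nonneg fun v => sum_nonneg fun l _ => gT_nonneg T v (lamF_nonneg' v (h l))
  have h2 : -(∑ _l : Fin q, ∑ w : InfinitePlace K, (w.mult : ℝ) * Real.log m) ≤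
      ∑ l, ∑ w : InfinitePlace K, (w.mult : ℝ) * lamI w (L l) x := by
    rw [← sum_neg_distrib]
    refine sum_le_sum fun l _ => ?_
    rw [← sum_neg_distrib]
    refine sum_le_sum fun w _ => ?_
    rw [← mul_neg]
    exact mul_le_mul_of_nonneg_left (lamI_ge hm w (h l)) (Nat.cast_nonneg _)
  linarith

/-- the points off the hyperplanes -/
def Om (L : Fin q → Fin m → K) : Type :=
  {P : Projectivization K (Fin m → K) // ∀ l, lfK (L l) P.rep ≠ 0}

/-- the absolute multiplicative height -/
noncomputable def rho (L : Fin q → Fin m → K) (P : Om L) : ℝ :=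
  Height.mulHeight P.1.rep ^ ((finrank ℚ K : ℝ)⁻¹)

lemma rho_pos (L : Fin q → Fin m → K) (P : Om L) : 0 < rho L P :=
  Real.rpow_pos_of_pos (Height.mulHeight_pos _) _

lemma rho_le_iff (L : Fin q → Fin m → K) (P : Om L) {B : ℝ} (hB : 0 ≤ B) :
    rho L P ≤ B ↔ Height.mulHeight P.1.rep ≤ B ^ (finrank ℚ K) := by
  have hd : (0 : ℝ) < finrank ℚ K := by exact_mod_cast (finrank_pos (R := ℚ) (M := K))
  unfold rho
  rw [Real.rpow_inv_le_iff_of_pos (Height.mulHeight_pos _).le hB hd, Real.rpow_natCast]

lemma exists_integral (L : Fin q → Fin m → K) (hL : ∀ l, L l ≠ 0) :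
    ∃ (t : Fin q → K) (L' : Fin q → Fin m → 𝓞 K), (∀ l, t l ≠ 0) ∧ (∀ l, L' l ≠ 0) ∧
      ∀ l, kv (L' l) = t l • L l := by
  have h : ∀ l, ∃ (t : K) (L' : Fin m → 𝓞 K), t ≠ 0 ∧ L' ≠ 0 ∧ kv L' = t • L l := by
    intro l
    obtain ⟨b, hb⟩ := IsLocalization.exist_integer_multiples (nonZeroDivisors (𝓞 K)) univ (L l)
    have hb0 : algebraMap (𝓞 K) K b ≠ 0 := by
      intro h
      exact nonZeroDivisors.ne_zero b.2
        (FaithfulSMul.algebraMap_injective (𝓞 K) K (h.trans (map_zero _).symm))
    choose L' hL' using fun i => hb i (mem_univ i)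
    have h1 : kv L' = (algebraMap (𝓞 K) K b) • L l := by
      funext i
      have h2 := hL' i
      rw [Algebra.smul_def] at h2
      exact h2
    refine ⟨algebraMap (𝓞 K) K b, L', hb0, ?_, h1⟩
    rintro rfl
    apply hL l
    have h3 : kv (0 : Fin m → 𝓞 K) = 0 := by
      funext i
      exact map_zero (algebraMap (𝓞 K) K)
    rw [h3] at h1
    exact (smul_eq_zero.1 h1.symm).resolve_left hb0
  choose t L' h1 h2 h3 using h
  exact ⟨t, L', h1, h2, h3⟩

/-- **The limit law for the points of projective space off the hyperplanes**, provided that the tail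
is controlled. -/
theorem law (hm : 2 ≤ m) (L : Fin q → Fin m → K) (hL : ∀ l, L l ≠ 0) (g : Pr K → ℝ → ℝ)
    (A : Finset (Pr K)) (hg : ∀ v, v ∉ A → g v 0 = 0 ∧ g v (Real.log (Nv v)) = 0)
    {a c : ℝ} (ha : 0 < a) (E : Om L → ℝ) (hE : ∀ P : Om L, E P = a * DE g L P.1.rep + c)
    {κ c₀ : ℝ} (hκ : 0 < κ) (hT : Tail (rn (rho L) E κ) E ((m * finrank ℚ K : ℕ) : ℝ) c₀) :
    ∃ μ : Measure ℝ, IsFiniteMeasure μ ∧
      Integrable (fun s => Real.exp (((m * finrank ℚ K : ℕ) : ℝ) * s / κ)) μ ∧
      (∀ f : ℝ → ℝ, Continuous f → (∃ M : ℝ, ∀ x, |f x| ≤ M) →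
        Tendsto (fun B : ℝ => SS (rho L) E f B / B ^ ((m * finrank ℚ K : ℕ) : ℝ)) atTop
          (𝓝 (∫ x, f x ∂μ))) ∧
      (∀ f : ℝ → ℝ, Continuous f → (∃ M : ℝ, ∀ x, |f x| ≤ M) →
        Tendsto (fun B : ℝ => SS (rn (rho L) E κ) E f B / B ^ ((m * finrank ℚ K : ℕ) : ℝ)) atTop
          (𝓝 (∫ x, f x * Real.exp (((m * finrank ℚ K : ℕ) : ℝ) * x / κ) ∂μ))) := by
  classical
  have hd0 : 0 < finrank ℚ K := finrank_pos (R := ℚ) (M := K)
  have hdR : (0 : ℝ) < finrank ℚ K := by exact_mod_cast hd0
  obtain ⟨C, hC, hcount⟩ := count_le K m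
  obtain ⟨t, L', ht, hL', hk⟩ := exists_integral L hL
  refine soft (C := C) hκ (by positivity) (rho_pos L) hT hC.le ?_ ?_
  · intro B hB
    obtain ⟨h1, h2⟩ := hcount B hB
    rw [Real.rpow_natCast]
    refine le_trans ?_ h2
    have h3 : Subtype.val '' {P : Om L | rho L P ≤ B} ⊆
        {P : Projectivization K (Fin m → K) | Height.mulHeight P.rep ≤ B ^ (finrank ℚ K)} := by
      rintro _ ⟨P, hP, rfl⟩
      exact (rho_le_iff L P (by linarith)).1 hP
    have h4 := Set.ncard_le_ncard h3 h1
    rw [Set.ncard_image_of_injective _ Subtype.val_injective] at h4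
    exact_mod_cast h4
  · rintro f hf - ⟨M, hM⟩ ⟨b₁, hb₁⟩ χ hχ ⟨a₀, ha₀, hχa⟩ ⟨b, hχb⟩ ⟨M', hM'⟩
    -- the transformed functions
    have hf' : Continuous fun y => f (a * y + c) := hf.comp (by fun_prop)
    set χ' : ℝ → ℝ := fun y => χ ((max y 0) ^ ((finrank ℚ K : ℝ)⁻¹)) with hχ'
    have hχ'c : Continuous χ' :=
      hχ.comp ((Real.continuous_rpow_const (inv_nonneg.2 hdR.le)).comp
        (continuous_id.max continuous_const))
    have hpow : ∀ r : ℝ, 0 ≤ r → (r ^ (finrank ℚ K)) ^ ((finrank ℚ K : ℝ)⁻¹) = r := fun r hr =>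
      Real.pow_rpow_inv_natCast hr hd0.ne'
    obtain ⟨ℓ, hℓ⟩ := smooth hm L' hL' g A hg (f := fun y => f (a * y + c)) hf'
      (Bf := (b₁ - c) / a) (fun x hx => hb₁ _ (by rw [div_le_iff₀ ha] at hx; linarith))
      (Cf := M) (fun x => hM _) (χ := χ') hχ'c (a := a₀ ^ (finrank ℚ K))
      (b := (max b 0) ^ (finrank ℚ K)) (by positivity)
      (fun y hy => by
        apply hχa
        rw [← hpow a₀ ha₀.le]
        refine Real.rpow_le_rpow (le_max_right _ _) (max_le hy (by positivity)) (by positivity))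
      (fun y hy => by
        apply hχb
        refine (le_max_left b 0).trans ?_
        rw [← hpow (max b 0) (le_max_right _ _)]
        exact Real.rpow_le_rpow (by positivity) (hy.trans (le_max_left _ _)) (by positivity))
      (Cχ := M') (fun y => hM' _)
    refine ⟨ℓ, hℓ.congr' ?_⟩
    filter_upwards [eventually_gt_atTop 0] with B hB
    rw [Real.rpow_natCast]
    congr 1
    unfold SP
    have hoff : ∀ P : Projectivization K (Fin m → K), (∀ l, lfK (kv (L' l)) P.rep ≠ 0) ↔
        ∀ l, lfK (L l) P.rep ≠ 0 := by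
      intro P
      refine forall_congr' fun l => ?_
      rw [hk, lfK_smul_left]
      exact ⟨fun h h2 => h (by rw [h2, mul_zero]), fun h h2 =>
        h ((mul_eq_zero.1 h2).resolve_left (ht l))⟩
    have hDE : ∀ P : Projectivization K (Fin m → K), DE g (fun l => kv (L' l)) P.rep =
        DE g L P.rep := by
      intro P
      rw [show (fun l => kv (L' l)) = fun l => t l • L l from funext hk]
      exact DE_smul_left g L P.rep ht
    have h1 : (∑' P : Om L, χ (rho L P / B) * f (E P)) =
        ∑' P : Projectivization K (Fin m → K),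
          Set.indicator {P : Projectivization K (Fin m → K) | ∀ l, lfK (L l) P.rep ≠ 0}
            (fun P => χ (Height.mulHeight P.rep ^ ((finrank ℚ K : ℝ)⁻¹) / B) *
              f (a * DE g L P.rep + c)) P := by
      rw [← _root_.tsum_subtype]
      refine tsum_congr fun P => ?_
      rw [hE P]
      rfl
    rw [h1]
    refine tsum_congr fun P => ?_
    by_cases h2 : ∀ l, lfK (L l) P.rep ≠ 0
    · rw [if_pos ((hoff P).2 h2), Set.indicator_of_mem (by exact h2), hDE]
      congr 1
      simp only [hχ']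
      congr 1
      rw [max_eq_left (div_nonneg (Height.mulHeight_pos _).le (by positivity)),
        Real.div_rpow (Height.mulHeight_pos _).le (by positivity), hpow B hB.le]
    · rw [if_neg fun h => h2 ((hoff P).1 h), Set.indicator_of_notMem (by exact h2)]

end

end Pool.Agent.N906.EQ
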