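import Pool.Agent.N906.EQ.Unit
import Pool.Agent.N852.Coset

/-!
# Coordinates: vectors of algebraic integers as integral vectors
-/

set_option autoImplicit false
set_option linter.unusedSectionVars false

namespace Pool.Agent.N906.EQ

open NumberField NumberField.InfinitePlace Module Finset Filter Topology Pool.Agent.N852

/-- the index set of the basis of the integers -/
abbrev Jx (K : Type) [Field K] [NumberField K] : Type := Module.Free.ChooseBasisIndex ℤ (𝓞 K)

section

variable {K : Type} [Field K] [NumberField K] {m : ℕ}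

lemma card_Jx : Fintype.card (Jx K) = finrank ℚ K := by
  rw [← RingOfIntegers.rank K]
  exact (Module.finrank_eq_card_basis (RingOfIntegers.basis K)).symm

lemma card_idx : Fintype.card (Fin m × Jx K) = m * finrank ℚ K := by
  rw [Fintype.card_prod, Fintype.card_fin, card_Jx]

/-- the vector of integers with the coordinates `z` -/
noncomputable def vec (z : Fin m × Jx K → ℤ) : Fin m → 𝓞 K :=
  fun i => ∑ j, z (i, j) • RingOfIntegers.basis K j

lemma vec_sub (z w : Fin m × Jx K → ℤ) : vec (z - w) = vec z - vec w := by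
  funext i
  simp [vec, sub_smul, sum_sub_distrib]

lemma vec_smul (n : ℤ) (z : Fin m × Jx K → ℤ) : vec (n • z) = fun i => (n : 𝓞 K) * vec z i := by
  funext i
  simp only [vec, Pi.smul_apply, smul_eq_mul, mul_smul, ← smul_sum]
  rw [zsmul_eq_mul]

lemma vec_zero : vec (0 : Fin m × Jx K → ℤ) = 0 := by
  funext i
  simp [vec]

lemma vec_inj : Function.Injective (vec : (Fin m × Jx K → ℤ) → Fin m → 𝓞 K) := by
  intro z w h
  funext ⟨i, j⟩
  have h1 : ∑ j, z (i, j) • RingOfIntegers.basis K j = ∑ j, w (i, j) • RingOfIntegers.basis K j :=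
    congrFun h i
  have h2 : (RingOfIntegers.basis K).equivFun.symm (fun j => z (i, j)) =
      (RingOfIntegers.basis K).equivFun.symm (fun j => w (i, j)) := by
    rw [Basis.equivFun_symm_apply, Basis.equivFun_symm_apply]
    exact h1
  exact congrFun ((RingOfIntegers.basis K).equivFun.symm.injective h2) j

lemma vec_surj : Function.Surjective (vec : (Fin m × Jx K → ℤ) → Fin m → 𝓞 K) := by
  intro v
  refine ⟨fun p => (RingOfIntegers.basis K).repr (v p.1) p.2, ?_⟩
  funext i
  exact (RingOfIntegers.basis K).sum_repr (v i)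

lemma vec_ne_zero {z : Fin m × Jx K → ℤ} : vec z ≠ 0 ↔ z ≠ 0 := by
  rw [not_iff_not]
  constructor
  · intro h
    exact vec_inj (h.trans vec_zero.symm)
  · rintro rfl
    exact vec_zero

/-- the extension of the embeddings to real coordinates -/
noncomputable def ev (σ : K →+* ℂ) (c : Fin m × Jx K → ℝ) : Fin m → ℂ :=
  fun i => ∑ j, (c (i, j) : ℂ) * σ (RingOfIntegers.basis K j : K)

lemma ev_int (σ : K →+* ℂ) (z : Fin m × Jx K → ℤ) (i : Fin m) :
    ev σ (ic z) i = σ (vec z i : K) := by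
  unfold ev vec ic
  have h1 : ((∑ j, z (i, j) • RingOfIntegers.basis K j : 𝓞 K) : K) =
      ∑ j, (z (i, j) : K) * (RingOfIntegers.basis K j : K) := by
    show algebraMap (𝓞 K) K (∑ j, z (i, j) • RingOfIntegers.basis K j) = _
    rw [map_sum]
    refine sum_congr rfl fun j _ => ?_
    rw [zsmul_eq_mul, map_mul, map_intCast]
  rw [h1, map_sum]
  refine sum_congr rfl fun j _ => ?_
  rw [map_mul, map_intCast]
  push_cast
  rfl

/-- as a linear map -/
noncomputable def evL (σ : K →+* ℂ) : (Fin m × Jx K → ℝ) →ₗ[ℝ] (Fin m → ℂ) where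
  toFun := ev σ
  map_add' c c' := by
    funext i
    simp [ev, add_mul, sum_add_distrib]
  map_smul' r c := by
    funext i
    simp [ev, mul_assoc, mul_sum]

lemma ev_continuous (σ : K →+* ℂ) : Continuous (ev σ : (Fin m × Jx K → ℝ) → Fin m → ℂ) :=
  (evL σ).continuous_of_finiteDimensional

lemma ev_conj (σ : K →+* ℂ) (c : Fin m × Jx K → ℝ) (i : Fin m) :
    ev (ComplexEmbedding.conjugate σ) c i = (starRingEnd ℂ) (ev σ c i) := by
  unfold ev
  rw [map_sum]
  refine sum_congr rfl fun j _ => ?_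
  rw [map_mul, Complex.conj_ofReal, ComplexEmbedding.conjugate_coe_eq]

/-- all places together -/
noncomputable def evA : (Fin m × Jx K → ℝ) →ₗ[ℝ] (InfinitePlace K → Fin m → ℂ) :=
  LinearMap.pi fun w => evL w.embedding

lemma evA_inj : Function.Injective (evA : (Fin m × Jx K → ℝ) →ₗ[ℝ] (InfinitePlace K → Fin m → ℂ)) := by
  rw [← LinearMap.ker_eq_bot, LinearMap.ker_eq_bot']
  intro c hc
  have h1 : ∀ (w : InfinitePlace K) (i : Fin m), ev w.embedding c i = 0 := by
    intro w i
    exact congrFun (congrFun hc w) i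
  have h2 : ∀ (σ : K →+* ℂ) (i : Fin m), ev σ c i = 0 := by
    intro σ i
    rcases embedding_mk_eq σ with h | h
    · rw [← h]; exact h1 _ _
    · have h3 := h1 (InfinitePlace.mk σ) i
      rw [h, ev_conj] at h3
      exact (map_eq_zero _).1 h3
  funext ⟨i, j⟩
  have h3 : ∑ j, (c (i, j) : ℂ) • canonicalEmbedding.latticeBasis K j = 0 := by
    funext σ
    rw [Finset.sum_apply]
    simp only [Pi.smul_apply, smul_eq_mul, canonicalEmbedding.latticeBasis_apply,
      canonicalEmbedding.apply_at, Pi.zero_apply]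
    have h4 := h2 σ i
    unfold ev at h4
    rw [← h4]
    refine sum_congr rfl fun j _ => ?_
    rw [integralBasis_apply]
  have h4 := (canonicalEmbedding.latticeBasis K).linearIndependent
  rw [Fintype.linearIndependent_iff] at h4
  have h5 := h4 (fun j => (c (i, j) : ℂ)) h3 j
  exact_mod_cast h5

/-- the sup norm at an infinite place -/
noncomputable def sN (w : InfinitePlace K) (c : Fin m × Jx K → ℝ) : ℝ := ‖ev w.embedding c‖

lemma sN_nonneg (w : InfinitePlace K) (c : Fin m × Jx K → ℝ) : 0 ≤ sN w c := norm_nonneg _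

lemma sN_continuous (w : InfinitePlace K) :
    Continuous (sN w : (Fin m × Jx K → ℝ) → ℝ) := continuous_norm.comp (ev_continuous _)

lemma sN_smul (w : InfinitePlace K) (r : ℝ) (c : Fin m × Jx K → ℝ) :
    sN w (r • c) = |r| * sN w c := by
  unfold sN
  have h1 : ev w.embedding (r • c) = r • ev w.embedding c := (evL w.embedding).map_smul r c
  rw [h1, norm_smul, Real.norm_eq_abs]

lemma sN_int (w : InfinitePlace K) (z : Fin m × Jx K → ℤ) :
    sN w (ic z) = ‖fun i => w (vec z i : K)‖ := by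
  unfold sN
  have h1 : ∀ i, ‖ev w.embedding (ic z) i‖ = ‖w (vec z i : K)‖ := by
    intro i
    rw [ev_int, norm_embedding_eq, Real.norm_eq_abs, abs_of_nonneg (apply_nonneg w _)]
  apply le_antisymm
  · rw [pi_norm_le_iff_of_nonneg (norm_nonneg _)]
    intro i
    rw [h1]
    exact norm_le_pi_norm (fun i => w (vec z i : K)) i
  · rw [pi_norm_le_iff_of_nonneg (norm_nonneg _)]
    intro i
    rw [← h1]
    exact norm_le_pi_norm (ev w.embedding (ic z)) i

lemma sN_int_pos (w : InfinitePlace K) {z : Fin m × Jx K → ℤ} (hz : z ≠ 0) : 0 < sN w (ic z) := by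
  rw [sN_int, norm_pos_iff]
  intro h
  apply vec_ne_zero.2 hz
  funext i
  have h1 : w (vec z i : K) = 0 := congrFun h i
  rw [map_eq_zero] at h1
  exact FaithfulSMul.algebraMap_injective (𝓞 K) K (h1.trans (map_zero _).symm)

variable (K m) in
/-- the coordinates are bounded by the absolute values -/
theorem norm_le_sN : ∃ C : ℝ, 0 < C ∧ ∀ (c : Fin m × Jx K → ℝ) (A : ℝ), 0 ≤ A →
    (∀ w, sN w c ≤ A) → ‖c‖ ≤ C * A := by
  obtain ⟨C, hC, h⟩ := (evA : (Fin m × Jx K → ℝ) →ₗ[ℝ] _).exists_antilipschitzWith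
    (LinearMap.ker_eq_bot.2 (evA_inj (K := K) (m := m)))
  refine ⟨C, by exact_mod_cast hC, fun c A hA hc => ?_⟩
  have h1 := h.le_mul_dist c 0
  rw [map_zero, dist_zero_right, dist_zero_right] at h1
  refine h1.trans (mul_le_mul_of_nonneg_left ?_ C.coe_nonneg)
  rw [pi_norm_le_iff_of_nonneg hA]
  intro w
  exact hc w

variable (K m) in
/-- the absolute values are bounded by the coordinates -/
theorem sN_le_norm : ∃ C : ℝ, 0 < C ∧ ∀ (c : Fin m × Jx K → ℝ) (w : InfinitePlace K),
    sN w c ≤ C * ‖c‖ := by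
  have h : ∀ w : InfinitePlace K, ∃ C : ℝ, ∀ c : Fin m × Jx K → ℝ, sN w c ≤ C * ‖c‖ := by
    intro w
    refine ⟨‖(evL (m := m) w.embedding).toContinuousLinearMap‖, fun c => ?_⟩
    exact (evL (m := m) w.embedding).toContinuousLinearMap.le_opNorm c
  choose C hC using h
  refine ⟨∑ w, |C w| + 1, by positivity, fun c w => (hC w c).trans ?_⟩
  refine mul_le_mul_of_nonneg_right ?_ (norm_nonneg _)
  have h1 := single_le_sum (f := fun w => |C w|) (fun w _ => abs_nonneg _) (mem_univ w)
  have h2 := le_abs_self (C w)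
  linarith

/-- the product of the sup norms -/
noncomputable def Hc (c : Fin m × Jx K → ℝ) : ℝ := ∏ w : InfinitePlace K, sN w c ^ w.mult

lemma Hc_nonneg (c : Fin m × Jx K → ℝ) : 0 ≤ Hc c :=
  prod_nonneg fun w _ => pow_nonneg (sN_nonneg w c) _

lemma Hc_continuous : Continuous (Hc : (Fin m × Jx K → ℝ) → ℝ) :=
  continuous_finsetProd _ fun w _ => (sN_continuous w).pow _

lemma Hc_ne {c : Fin m × Jx K → ℝ} (h : Hc c ≠ 0) (w : InfinitePlace K) : 0 < sN w c := by
  refine lt_of_le_of_ne (sN_nonneg w c) fun h1 => h ?_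
  exact prod_eq_zero (mem_univ w) (by rw [← h1]; exact zero_pow mult_ne_zero)

lemma Hc_smul {r : ℝ} (hr : 0 ≤ r) (c : Fin m × Jx K → ℝ) :
    Hc (r • c) = r ^ (finrank ℚ K) * Hc c := by
  unfold Hc
  simp only [sN_smul, abs_of_nonneg hr, mul_pow]
  rw [prod_mul_distrib, prod_pow_eq_pow_sum, sum_mult_eq]

lemma Hc_int_pos {z : Fin m × Jx K → ℤ} (hz : z ≠ 0) : 0 < Hc (ic z) :=
  prod_pos fun w _ => pow_pos (sN_int_pos w hz) _

/-- the logarithms of the sup norms -/
noncomputable def el (c : Fin m × Jx K → ℝ) : InfinitePlace K → ℝ := fun w => Real.log (sN w c)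

lemma el_smul {r : ℝ} (hr : 0 < r) {c : Fin m × Jx K → ℝ} (hc : ∀ w, 0 < sN w c) :
    el (r • c) = el c + fun _ => Real.log r := by
  funext w
  simp only [el, Pi.add_apply]
  rw [sN_smul, abs_of_pos hr, Real.log_mul hr.ne' (hc w).ne', add_comm]

lemma mn_el {c : Fin m × Jx K → ℝ} (hc : ∀ w, 0 < sN w c) :
    mn (el c) = Real.log (Hc c) / finrank ℚ K := by
  unfold mn el Hc
  rw [Real.log_prod fun w _ => (pow_pos (hc w) _).ne']
  congr 1
  exact sum_congr rfl fun w _ => by rw [Real.log_pow]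

/-- test functions: continuity -/
theorem test_continuous {Φ : (InfinitePlace K → ℝ) → ℝ} (hΦ : Continuous Φ) {χ : ℝ → ℝ}
    (hχ : Continuous χ) {a : ℝ} (ha : 0 < a) (hχa : ∀ y, y ≤ a → χ y = 0)
    {G : (Fin m × Jx K → ℝ) → ℝ} (hG : ∀ c, Hc c ≠ 0 → ContinuousAt G c) :
    Continuous fun c : Fin m × Jx K → ℝ => Φ (el c) * χ (Hc c) * G c := by
  rw [continuous_iff_continuousAt]
  intro c
  by_cases h : Hc c = 0
  · have h1 : (fun _ => (0 : ℝ)) =ᶠ[𝓝 c] fun c : Fin m × Jx K → ℝ => Φ (el c) * χ (Hc c) * G c := by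
      have h2 : ∀ᶠ c' in 𝓝 c, Hc c' < a := by
        have h3 := (Hc_continuous (K := K) (m := m)).continuousAt (x := c)
        exact h3.eventually (gt_mem_nhds (by rw [h]; exact ha))
      filter_upwards [h2] with c' hc'
      rw [hχa _ hc'.le, mul_zero, zero_mul]
    exact ContinuousAt.congr continuousAt_const h1
  · refine ContinuousAt.mul (ContinuousAt.mul ?_ ?_) (hG c h)
    · refine hΦ.continuousAt.comp (continuousAt_pi.2 fun w => ?_)
      exact (sN_continuous w).continuousAt.log (Hc_ne h w).ne'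
    · exact (hχ.comp Hc_continuous).continuousAt

/-- test functions: support -/
theorem test_support {Φ : (InfinitePlace K → ℝ) → ℝ} {R : ℝ} (hΦ : ∀ t, Φ t ≠ 0 → dv t ≤ R)
    {χ : ℝ → ℝ} {a b : ℝ} (ha : 0 < a) (hχa : ∀ y, y ≤ a → χ y = 0)
    (hχb : ∀ y, b ≤ y → χ y = 0) :
    ∃ R' : ℝ, 0 < R' ∧ ∀ c : Fin m × Jx K → ℝ, R' < ‖c‖ → Φ (el c) * χ (Hc c) = 0 := by
  obtain ⟨C, hC, h⟩ := norm_le_sN K m
  set A : ℝ := Real.exp (R + Real.log b / finrank ℚ K) with hA
  refine ⟨C * A, by positivity, fun c hc => ?_⟩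
  by_contra hne
  have h1 : Φ (el c) ≠ 0 := fun h => hne (by rw [h, zero_mul])
  have h2 : χ (Hc c) ≠ 0 := fun h => hne (by rw [h, mul_zero])
  have h3 : a < Hc c := by
    by_contra h4
    exact h2 (hχa _ (not_lt.1 h4))
  have h4 : Hc c < b := by
    by_contra h5
    exact h2 (hχb _ (not_lt.1 h5))
  have hpos : ∀ w, 0 < sN w c := Hc_ne (by linarith : (0:ℝ) < Hc c).ne'
  have h5 := hΦ _ h1
  have h6 : ∀ w, sN w c ≤ A := by
    intro w
    have h7 := (norm_le_pi_norm (fun w => el c w - mn (el c)) w).trans h5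
    rw [Real.norm_eq_abs, mn_el hpos] at h7
    have h8 := (abs_le.1 h7).2
    have h9 : Real.log (Hc c) / finrank ℚ K ≤ Real.log b / finrank ℚ K :=
      div_le_div_of_nonneg_right (Real.log_le_log (by linarith) h4.le) fr_pos.le
    have h10 : Real.log (sN w c) ≤ R + Real.log b / finrank ℚ K := by
      have : el c w = Real.log (sN w c) := rfl
      linarith
    rw [hA, ← Real.log_le_iff_le_exp (hpos w)]
    exact h10
  have := h c A (Real.exp_pos _).le h6
  linarith

end

end Pool.Agent.N906.EQ
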