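import Mathlib

/-!
# From smooth averages to averages over the points of bounded size
-/

set_option autoImplicit false

namespace Pool.Agent.N906.EQ

open Filter Topology

section

/-- the trapezoid -/
noncomputable def trap (δ y : ℝ) : ℝ := max 0 (min 1 (min ((y - δ) / δ) ((1 + δ - y) / δ)))

lemma trap_continuous (δ : ℝ) : Continuous (trap δ) := by
  unfold trap
  fun_prop

lemma trap_nonneg (δ y : ℝ) : 0 ≤ trap δ y := le_max_left _ _

lemma trap_le_one (δ y : ℝ) : trap δ y ≤ 1 := max_le zero_le_one (min_le_left _ _)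

lemma trap_small {δ y : ℝ} (hδ : 0 < δ) (hy : y ≤ δ) : trap δ y = 0 := by
  unfold trap
  rw [max_eq_left]
  refine (min_le_right _ _).trans ((min_le_left _ _).trans ?_)
  exact div_nonpos_of_nonpos_of_nonneg (by linarith) hδ.le

lemma trap_large {δ y : ℝ} (hδ : 0 < δ) (hy : 1 + δ ≤ y) : trap δ y = 0 := by
  unfold trap
  rw [max_eq_left]
  refine (min_le_right _ _).trans ((min_le_right _ _).trans ?_)
  exact div_nonpos_of_nonpos_of_nonneg (by linarith) hδ.le

lemma trap_mid {δ y : ℝ} (hδ : 0 < δ) (h1 : 2 * δ ≤ y) (h2 : y ≤ 1) : trap δ y = 1 := by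
  unfold trap
  have h3 : (1 : ℝ) ≤ (y - δ) / δ := by
    rw [le_div_iff₀ hδ]
    linarith
  have h4 : (1 : ℝ) ≤ (1 + δ - y) / δ := by
    rw [le_div_iff₀ hδ]
    linarith
  rw [min_eq_left (le_min h3 h4), max_eq_right zero_le_one]

/-- a function which is uniformly approximated by convergent functions converges -/
theorem tendsto_of_approx' {g : ℝ → ℝ}
    (h : ∀ ε : ℝ, 0 < ε → ∃ g' : ℝ → ℝ, (∃ L, Tendsto g' atTop (𝓝 L)) ∧
      ∀ᶠ Y in atTop, |g Y - g' Y| ≤ ε) : ∃ L : ℝ, Tendsto g atTop (𝓝 L) := by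
  apply cauchy_map_iff_exists_tendsto.1
  rw [Metric.cauchy_iff]
  refine ⟨inferInstance, fun ε hε => ?_⟩
  obtain ⟨g', ⟨L, hL⟩, hg⟩ := h (ε / 5) (by positivity)
  have h1 : ∀ᶠ Y in atTop, |g' Y - L| < ε / 5 := by
    have := (Metric.tendsto_nhds.1 hL) (ε / 5) (by positivity)
    simpa [Real.dist_eq] using this
  refine ⟨g '' {Y | |g Y - g' Y| ≤ ε / 5 ∧ |g' Y - L| < ε / 5}, ?_, ?_⟩
  · rw [mem_map]
    filter_upwards [hg, h1] with Y hY1 hY2
    exact ⟨Y, ⟨hY1, hY2⟩, rfl⟩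
  · rintro _ ⟨Y, ⟨h2, h3⟩, rfl⟩ _ ⟨Y', ⟨h4, h5⟩, rfl⟩
    rw [Real.dist_eq]
    rw [abs_le] at h2 h4
    rw [abs_lt] at h3 h5 ⊢
    constructor <;> linarith [h2.1, h2.2, h3.1, h3.2, h4.1, h4.2, h5.1, h5.2]

variable {Ω : Type}

open Classical in
/-- **The sharp cutoff.** -/
theorem cutoff (ρ a : Ω → ℝ) {D Ca C : ℝ} (hD : 0 < D) (hC0 : 0 ≤ C)
    (hρ : ∀ P, 0 < ρ P) (ha0 : ∀ P, 0 ≤ a P) (hCa : 0 ≤ Ca) (ha : ∀ P, a P ≤ Ca)
    (hfin : ∀ B : ℝ, {P | ρ P ≤ B}.Finite)
    (hC : ∀ B : ℝ, 1 ≤ B → ({P | ρ P ≤ B}.ncard : ℝ) ≤ C * B ^ D)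
    (hsm : ∀ χ : ℝ → ℝ, Continuous χ → (∃ a₀ : ℝ, 0 < a₀ ∧ ∀ y, y ≤ a₀ → χ y = 0) →
      (∃ b : ℝ, ∀ y, b ≤ y → χ y = 0) → (∃ M : ℝ, ∀ y, |χ y| ≤ M) →
      ∃ ℓ : ℝ, Tendsto (fun B : ℝ => (∑' P, χ (ρ P / B) * a P) / B ^ D) atTop (𝓝 ℓ)) :
    ∃ ℓ : ℝ, Tendsto (fun B : ℝ => (∑' P, if ρ P ≤ B then a P else 0) / B ^ D) atTop (𝓝 ℓ) := by
  -- summability
  have hsum : ∀ (f : Ω → ℝ) (B : ℝ), (∀ P, B < ρ P → f P = 0) → Summable f := by
    intro f B h
    apply summable_of_hasFiniteSupport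
    refine (hfin B).subset fun P hP => ?_
    by_contra h1
    exact hP (h P (not_le.1 h1))
  have hcount : ∀ (B : ℝ), 1 ≤ B → (∑' P, if ρ P ≤ B then a P else 0) ≤ Ca * (C * B ^ D) := by
    intro B hB
    have h1 : (∑' P, if ρ P ≤ B then a P else 0) = ∑ P ∈ (hfin B).toFinset, a P := by
      rw [tsum_eq_sum (s := (hfin B).toFinset)]
      · refine Finset.sum_congr rfl fun P hP => ?_
        rw [if_pos (show ρ P ≤ B from (hfin B).mem_toFinset.1 hP)]
      · intro P hP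
        rw [if_neg]
        exact fun h => hP ((hfin B).mem_toFinset.2 h)
    rw [h1]
    calc ∑ P ∈ (hfin B).toFinset, a P ≤ ∑ _P ∈ (hfin B).toFinset, Ca :=
          Finset.sum_le_sum fun P _ => ha P
      _ = Ca * ((hfin B).toFinset.card : ℝ) := by rw [Finset.sum_const, nsmul_eq_mul, mul_comm]
      _ ≤ _ := by
          refine mul_le_mul_of_nonneg_left ?_ hCa
          rw [← Set.ncard_eq_toFinset_card _ (hfin B)]
          exact hC B hB
  set s : ℝ → ℝ := fun B => (∑' P, if ρ P ≤ B then a P else 0) / B ^ D with hs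
  apply tendsto_of_approx'
  intro ε hε
  -- the choice of δ
  have hlim1 : Tendsto (fun δ : ℝ => Ca * C * (2 * δ) ^ D) (𝓝 0) (𝓝 0) := by
    have h1 : ContinuousAt (fun δ : ℝ => Ca * C * (2 * δ) ^ D) 0 := by
      refine ContinuousAt.mul continuousAt_const ?_
      exact ContinuousAt.rpow_const (continuousAt_const.mul continuousAt_id) (Or.inr hD.le)
    have h2 := h1.tendsto
    simpa [Real.zero_rpow hD.ne'] using h2
  have hlim2 : Tendsto (fun δ : ℝ => Ca * C * ((1 + δ) ^ D - 1)) (𝓝 0) (𝓝 0) := by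
    have h1 : ContinuousAt (fun δ : ℝ => Ca * C * ((1 + δ) ^ D - 1)) 0 := by
      refine ContinuousAt.mul continuousAt_const (ContinuousAt.sub ?_ continuousAt_const)
      exact ContinuousAt.rpow_const (continuousAt_const.add continuousAt_id) (Or.inr hD.le)
    have h2 := h1.tendsto
    simpa using h2
  obtain ⟨δ, hδ0, hδ1, hδ2⟩ : ∃ δ : ℝ, 0 < δ ∧ Ca * C * (2 * δ) ^ D ≤ ε ∧
      Ca * C * ((1 + δ) ^ D - 1) < ε / 2 := by
    have h1 := hlim1.eventually (ge_mem_nhds hε)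
    have h2 := hlim2.eventually (gt_mem_nhds (show (0 : ℝ) < ε / 2 by positivity))
    have h3 := ((h1.and h2).filter_mono (nhdsWithin_le_nhds (s := Set.Ioi 0))).and
      (self_mem_nhdsWithin)
    obtain ⟨δ, ⟨h4, h5⟩, h6⟩ := h3.exists
    exact ⟨δ, h6, h4, h5⟩
  set t : ℝ → ℝ := fun B => (∑' P, trap δ (ρ P / B) * a P) / B ^ D with ht
  obtain ⟨τ, hτ⟩ := hsm (trap δ) (trap_continuous δ) ⟨δ, hδ0, fun y hy => trap_small hδ0 hy⟩
    ⟨1 + δ, fun y hy => trap_large hδ0 hy⟩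
    ⟨1, fun y => by rw [abs_of_nonneg (trap_nonneg δ y)]; exact trap_le_one δ y⟩
  refine ⟨t, ⟨τ, hτ⟩, ?_⟩
  -- the upper bound of t
  have htup : ∀ B : ℝ, 0 < B → t B ≤ (1 + δ) ^ D * s ((1 + δ) * B) := by
    intro B hB
    have h1 : ∑' P, trap δ (ρ P / B) * a P ≤ ∑' P, if ρ P ≤ (1 + δ) * B then a P else 0 := by
      refine Summable.tsum_le_tsum (fun P => ?_) (hsum _ ((1 + δ) * B) fun P hP => ?_)
        (hsum _ ((1 + δ) * B) fun P hP => if_neg (not_le.2 hP))
      · split_ifs with h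
        · exact mul_le_of_le_one_left (ha0 P) (trap_le_one _ _)
        · rw [trap_large hδ0, zero_mul]
          rw [le_div_iff₀ hB]
          exact (not_le.1 h).le
      · rw [trap_large hδ0, zero_mul]
        rw [le_div_iff₀ hB]
        exact hP.le
    rw [ht, hs]
    simp only
    rw [Real.mul_rpow (by positivity) hB.le, mul_div_assoc', mul_comm ((1 + δ) ^ D) (∑' _, _),
      mul_comm ((1 + δ) ^ D) (B ^ D),
      mul_div_mul_right _ _ (Real.rpow_pos_of_pos (by positivity) D).ne']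
    exact div_le_div_of_nonneg_right h1 (Real.rpow_nonneg hB.le _)
  have hsup : ∀ B : ℝ, 1 ≤ B → s B ≤ Ca * C := by
    intro B hB
    rw [hs]
    simp only
    rw [div_le_iff₀ (Real.rpow_pos_of_pos (by linarith) D), mul_assoc]
    exact hcount B hB
  have hτup : τ ≤ (1 + δ) ^ D * (Ca * C) := by
    refine le_of_tendsto hτ ?_
    filter_upwards [eventually_ge_atTop 1] with B hB
    refine (htup B (by linarith)).trans ?_
    refine mul_le_mul_of_nonneg_left (hsup _ ?_) (Real.rpow_nonneg (by positivity) _)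
    nlinarith
  -- the difference
  have hdiff : Tendsto (fun B : ℝ => t B - ((1 + δ) ^ D)⁻¹ * t (B / (1 + δ))) atTop
      (𝓝 (τ - ((1 + δ) ^ D)⁻¹ * τ)) := by
    refine hτ.sub (Tendsto.const_mul _ (hτ.comp ?_))
    exact tendsto_id.atTop_div_const (by positivity)
  have hp : 0 < (1 + δ) ^ D := Real.rpow_pos_of_pos (by positivity) D
  have hlt : τ - ((1 + δ) ^ D)⁻¹ * τ < ε := by
    have h1 : τ - ((1 + δ) ^ D)⁻¹ * τ = τ * ((1 + δ) ^ D)⁻¹ * ((1 + δ) ^ D - 1) := by
      field_simp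
    have h2 : τ * ((1 + δ) ^ D)⁻¹ ≤ Ca * C := by
      rw [← div_eq_mul_inv, div_le_iff₀ hp]
      linarith
    have h3 : 0 ≤ (1 + δ) ^ D - 1 := by
      have := Real.one_le_rpow (show (1 : ℝ) ≤ 1 + δ by linarith) hD.le
      linarith
    rw [h1]
    have := mul_le_mul_of_nonneg_right h2 h3
    linarith
  filter_upwards [eventually_ge_atTop 1, eventually_ge_atTop (1 / (2 * δ)),
    hdiff.eventually (gt_mem_nhds hlt)] with B hB1 hB2 hB3
  have hB0 : 0 < B := by linarith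
  have hBD : 0 < B ^ D := Real.rpow_pos_of_pos hB0 D
  rw [abs_le]
  constructor
  · -- lower bound
    have h1 := htup (B / (1 + δ)) (by positivity)
    rw [mul_div_cancel₀ _ (show (1 : ℝ) + δ ≠ 0 by positivity)] at h1
    have h2 : ((1 + δ) ^ D)⁻¹ * t (B / (1 + δ)) ≤ s B := by
      rw [inv_mul_le_iff₀ hp]
      exact h1
    linarith
  · -- upper bound
    have h1 : (∑' P, if ρ P ≤ B then a P else 0) ≤ (∑' P, trap δ (ρ P / B) * a P) +
        ∑' P, if ρ P ≤ 2 * δ * B then a P else 0 := by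
      have hs1 : Summable fun P => trap δ (ρ P / B) * a P := hsum _ ((1 + δ) * B) fun P hP => by
        rw [trap_large hδ0, zero_mul]
        rw [le_div_iff₀ hB0]
        exact hP.le
      have hs2 : Summable fun P => if ρ P ≤ 2 * δ * B then a P else 0 :=
        hsum _ (2 * δ * B) fun P hP => if_neg (not_le.2 hP)
      rw [← hs1.tsum_add hs2]
      refine Summable.tsum_le_tsum (fun P => ?_) (hsum _ B fun P hP => if_neg (not_le.2 hP))
        (hs1.add hs2)
      by_cases h2 : ρ P ≤ B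
      · rw [if_pos h2]
        by_cases h3 : ρ P ≤ 2 * δ * B
        · rw [if_pos h3]
          have := mul_nonneg (trap_nonneg δ (ρ P / B)) (ha0 P)
          linarith
        · rw [if_neg h3, trap_mid hδ0, one_mul, add_zero]
          · rw [le_div_iff₀ hB0]
            exact (not_le.1 h3).le
          · rw [div_le_one hB0]
            exact h2
      · rw [if_neg h2]
        refine add_nonneg (mul_nonneg (trap_nonneg _ _) (ha0 P)) ?_
        split_ifs
        · exact ha0 P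
        · exact le_rfl
    have h2 : 1 ≤ 2 * δ * B := by
      rw [div_le_iff₀ (by positivity)] at hB2
      linarith
    have h3 := hcount (2 * δ * B) h2
    rw [Real.mul_rpow (by positivity) hB0.le] at h3
    have h4 : s B ≤ t B + Ca * C * (2 * δ) ^ D := by
      rw [hs, ht]
      simp only
      rw [div_le_iff₀ hBD, add_mul, div_mul_cancel₀ _ hBD.ne']
      linarith
    linarith

end

end Pool.Agent.N906.EQ
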