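import Mathlib

/-!
# Weak convergence of the counting measures

`Ω` is a set of points with a size `ρ` and a value `E`; the sums `SS ρ E f B` of `f (E P)` over the
points of size at most `B` are divided by `B ^ D`.
-/

set_option autoImplicit false

namespace Pool.Agent.N906.EQ

open Filter Topology MeasureTheory

section

variable {Ω : Type}

open Classical in
/-- the sum of `f (E P)` over the points of size at most `B` -/
noncomputable def SS (ρ E : Ω → ℝ) (f : ℝ → ℝ) (B : ℝ) : ℝ :=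
  ∑' P, if ρ P ≤ B then f (E P) else 0

variable {ρ E : Ω → ℝ}

lemma ss_summable (hfin : ∀ B : ℝ, {P | ρ P ≤ B}.Finite) (f : ℝ → ℝ) (B : ℝ) [DecidablePred fun P => ρ P ≤ B] :
    Summable fun P => if ρ P ≤ B then f (E P) else 0 := by
  apply summable_of_hasFiniteSupport
  refine (hfin B).subset fun P hP => ?_
  by_contra h1
  exact hP (if_neg h1)

lemma ss_add (hfin : ∀ B : ℝ, {P | ρ P ≤ B}.Finite) (f g : ℝ → ℝ) (B : ℝ) :
    SS ρ E (fun x => f x + g x) B = SS ρ E f B + SS ρ E g B := by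
  classical
  unfold SS
  rw [← (ss_summable hfin f B).tsum_add (ss_summable hfin g B)]
  refine tsum_congr fun P => ?_
  split_ifs <;> simp

lemma ss_sub (hfin : ∀ B : ℝ, {P | ρ P ≤ B}.Finite) (f g : ℝ → ℝ) (B : ℝ) :
    SS ρ E (fun x => f x - g x) B = SS ρ E f B - SS ρ E g B := by
  classical
  unfold SS
  rw [← (ss_summable hfin f B).tsum_sub (ss_summable hfin g B)]
  refine tsum_congr fun P => ?_
  split_ifs <;> simp

lemma ss_smul (c : ℝ) (f : ℝ → ℝ) (B : ℝ) :
    SS ρ E (fun x => c * f x) B = c * SS ρ E f B := by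
  classical
  unfold SS
  rw [← tsum_mul_left]
  refine tsum_congr fun P => ?_
  split_ifs <;> simp

lemma ss_mono (hfin : ∀ B : ℝ, {P | ρ P ≤ B}.Finite) {f g : ℝ → ℝ} (h : ∀ x, f x ≤ g x) (B : ℝ) :
    SS ρ E f B ≤ SS ρ E g B := by
  classical
  unfold SS
  refine Summable.tsum_le_tsum (fun P => ?_) (ss_summable hfin f B) (ss_summable hfin g B)
  split_ifs
  · exact h _
  · exact le_rfl

lemma ss_nonneg {f : ℝ → ℝ} (h : ∀ x, 0 ≤ f x) (B : ℝ) : 0 ≤ SS ρ E f B := by
  classical
  unfold SS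
  refine tsum_nonneg fun P => ?_
  split_ifs
  · exact h _
  · exact le_rfl

/-- sums of functions supported in `[t, ∞)` -/
lemma ss_abs_le (hfin : ∀ B : ℝ, {P | ρ P ≤ B}.Finite) {f : ℝ → ℝ} {M t : ℝ} (hM : 0 ≤ M)
    (h : ∀ P, |f (E P)| ≤ M) (ht : ∀ P, E P < t → f (E P) = 0) (B : ℝ) :
    |SS ρ E f B| ≤ M * ({P | ρ P ≤ B ∧ t ≤ E P}.ncard : ℝ) := by
  classical
  have hf2 : {P | ρ P ≤ B ∧ t ≤ E P}.Finite := (hfin B).subset fun P hP => hP.1
  have h1 : SS ρ E f B = ∑ P ∈ hf2.toFinset, f (E P) := by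
    unfold SS
    rw [tsum_eq_sum (s := hf2.toFinset)]
    · refine Finset.sum_congr rfl fun P hP => ?_
      rw [if_pos (hf2.mem_toFinset.1 hP).1]
    · intro P hP
      by_cases h2 : ρ P ≤ B
      · rw [if_pos h2]
        apply ht
        by_contra h3
        exact hP (hf2.mem_toFinset.2 ⟨h2, not_lt.1 h3⟩)
      · rw [if_neg h2]
  rw [h1, Set.ncard_eq_toFinset_card _ hf2]
  calc |∑ P ∈ hf2.toFinset, f (E P)| ≤ ∑ P ∈ hf2.toFinset, |f (E P)| :=
        Finset.abs_sum_le_sum_abs _ _
    _ ≤ ∑ _P ∈ hf2.toFinset, M := Finset.sum_le_sum fun P _ => h P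
    _ = _ := by rw [Finset.sum_const, nsmul_eq_mul, mul_comm]

/-- cutoff functions -/
noncomputable def psi (n : ℕ) (s : ℝ) : ℝ := max 0 (min 1 (n + 1 - |s|))

lemma psi_continuous (n : ℕ) : Continuous (psi n) := by
  unfold psi
  fun_prop

lemma psi_nonneg (n : ℕ) (s : ℝ) : 0 ≤ psi n s := le_max_left _ _

lemma psi_le_one (n : ℕ) (s : ℝ) : psi n s ≤ 1 := max_le zero_le_one (min_le_left _ _)

lemma psi_one {n : ℕ} {s : ℝ} (h : |s| ≤ n) : psi n s = 1 := by
  unfold psi
  rw [min_eq_left (by linarith), max_eq_right zero_le_one]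

lemma psi_zero {n : ℕ} {s : ℝ} (h : (n : ℝ) + 1 ≤ |s|) : psi n s = 0 := by
  unfold psi
  rw [max_eq_left]
  exact (min_le_right _ _).trans (by linarith)

lemma psi_mono {n n' : ℕ} (h : n ≤ n') (s : ℝ) : psi n s ≤ psi n' s := by
  unfold psi
  have : (n : ℝ) ≤ n' := by exact_mod_cast h
  gcongr

lemma psi_compact (n : ℕ) : HasCompactSupport (psi n) := by
  refine HasCompactSupport.intro (K := Metric.closedBall 0 (n + 1)) (isCompact_closedBall 0 _) ?_
  intro x hx
  rw [Metric.mem_closedBall, dist_zero_right, not_le, Real.norm_eq_abs] at hx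
  exact psi_zero hx.le

/-- the hypotheses on the points: finiteness, a lower bound for the value and a bound for the number
of the points with a large value -/
structure Tail (ρ E : Ω → ℝ) (D c₀ : ℝ) : Prop where
  fin : ∀ B : ℝ, {P | ρ P ≤ B}.Finite
  low : ∀ P, -c₀ ≤ E P
  tail : ∀ ε : ℝ, 0 < ε → ∃ t : ℝ, ∀ᶠ B : ℝ in atTop,
    ({P | ρ P ≤ B ∧ t ≤ E P}.ncard : ℝ) ≤ ε * B ^ D

/-- convergence for the functions of compact support -/
def ConvC (ρ E : Ω → ℝ) (D : ℝ) (ν : Measure ℝ) : Prop :=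
  ∀ f : ℝ → ℝ, Continuous f → HasCompactSupport f → (∀ x, 0 ≤ f x) →
    Tendsto (fun B : ℝ => SS ρ E f B / B ^ D) atTop (𝓝 (∫ x, f x ∂ν))

lemma tail_psi {D c₀ : ℝ} (h : Tail ρ E D c₀) {ε : ℝ} (hε : 0 < ε) : ∃ N : ℕ, ∀ n : ℕ, N ≤ n →
    ∀ f : ℝ → ℝ, ∀ M : ℝ, 0 ≤ M → (∀ x, |f x| ≤ M) → ∀ᶠ B : ℝ in atTop,
      |SS ρ E (fun x => f x * (1 - psi n x)) B| ≤ M * ε * B ^ D := by
  obtain ⟨t, ht⟩ := h.tail ε hε
  obtain ⟨N, hN⟩ := exists_nat_ge (max |c₀| t)
  refine ⟨N, fun n hn f M hM hf => ?_⟩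
  filter_upwards [ht] with B hB
  have hNn : (N : ℝ) ≤ n := by exact_mod_cast hn
  have h1 : |c₀| ≤ n := (le_max_left _ _).trans (hN.trans hNn)
  have h2 : t ≤ n := (le_max_right _ _).trans (hN.trans hNn)
  have h3 := ss_abs_le (ρ := ρ) (E := E) h.fin (f := fun x => f x * (1 - psi n x)) (M := M) (t := t) hM
    (fun P => by
      rw [abs_mul, abs_of_nonneg (sub_nonneg.2 (psi_le_one n (E P)))]
      have h4 := psi_nonneg n (E P)
      calc |f (E P)| * (1 - psi n (E P)) ≤ M * 1 :=
            mul_le_mul (hf _) (by linarith) (by linarith [psi_le_one n (E P)]) hM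
        _ = M := mul_one _)
    (fun P hP => by
      rw [psi_one, sub_self, mul_zero]
      rw [abs_le]
      have := h.low P
      have := le_abs_self c₀
      have := neg_abs_le c₀
      constructor <;> linarith) B
  refine h3.trans ?_
  rw [mul_assoc]
  exact mul_le_mul_of_nonneg_left hB hM

/-- **Extension to bounded functions.** -/
theorem extend {D c₀ : ℝ} (hT : Tail ρ E D c₀) {ν : Measure ℝ} (hν : ConvC ρ E D ν)
    [IsFiniteMeasureOnCompacts ν] :
    IsFiniteMeasure ν ∧ ∀ f : ℝ → ℝ, Continuous f → (∃ M : ℝ, ∀ x, |f x| ≤ M) →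
      Tendsto (fun B : ℝ => SS ρ E f B / B ^ D) atTop (𝓝 (∫ x, f x ∂ν)) := by
  have hBD : ∀ B : ℝ, 0 < B → 0 < B ^ D := fun B hB => Real.rpow_pos_of_pos hB D
  have hpsi : ∀ n, Tendsto (fun B : ℝ => SS ρ E (psi n) B / B ^ D) atTop (𝓝 (∫ x, psi n x ∂ν)) :=
    fun n => hν (psi n) (psi_continuous n) (psi_compact n) (psi_nonneg n)
  -- the masses of the cutoff functions are bounded
  obtain ⟨N, hN⟩ := tail_psi hT one_pos
  have hbd : ∀ n : ℕ, ∫ x, psi n x ∂ν ≤ ∫ x, psi N x ∂ν + 1 := by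
    intro n
    have h1 : Tendsto (fun B : ℝ => SS ρ E (psi N) B / B ^ D + 1) atTop
        (𝓝 (∫ x, psi N x ∂ν + 1)) := (hpsi N).add_const 1
    refine le_of_tendsto_of_tendsto (hpsi n) h1 ?_
    filter_upwards [hN N le_rfl (fun _ => 1) 1 zero_le_one (by simp), eventually_gt_atTop 0]
      with B hB hB0
    have h2 : SS ρ E (psi n) B ≤ SS ρ E (fun x => psi N x + 1 * (1 - psi N x)) B :=
      ss_mono hT.fin (fun x => by linarith [psi_le_one n x]) B
    rw [ss_add hT.fin] at h2
    have h3 := (le_abs_self _).trans hB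
    rw [div_add' _ _ _ (hBD B hB0).ne', div_le_div_iff_of_pos_right (hBD B hB0)]
    linarith
  have hint : ∀ n, Integrable (psi n) ν := fun n =>
    (psi_continuous n).integrable_of_hasCompactSupport (psi_compact n)
  have hfinm : IsFiniteMeasure ν := by
    constructor
    have h1 : ν Set.univ ≤ ENNReal.ofReal (∫ x, psi N x ∂ν + 1) := by
      have h2 : Tendsto (fun n : ℕ => ν (Metric.closedBall 0 (n : ℝ))) atTop (𝓝 (ν Set.univ)) := by
        have h3 : (⋃ n : ℕ, Metric.closedBall (0 : ℝ) (n : ℝ)) = Set.univ := by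
          rw [Set.eq_univ_iff_forall]
          intro x
          obtain ⟨n, hn⟩ := exists_nat_ge |x|
          rw [Set.mem_iUnion]
          exact ⟨n, by rw [Metric.mem_closedBall, dist_zero_right]; exact hn⟩
        rw [← h3]
        refine tendsto_measure_iUnion_atTop fun n n' h => Metric.closedBall_subset_closedBall ?_
        exact_mod_cast h
      refine le_of_tendsto' h2 fun n => ?_
      have h4 : ν (Metric.closedBall 0 (n : ℝ)) ≤ ∫⁻ x, ENNReal.ofReal (psi n x) ∂ν := by
        rw [← lintegral_indicator_one Metric.isClosed_closedBall.measurableSet]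
        refine lintegral_mono fun x => ?_
        by_cases hx : x ∈ Metric.closedBall (0 : ℝ) (n : ℝ)
        · rw [Set.indicator_of_mem hx, psi_one]
          · simp
          · rwa [Metric.mem_closedBall, dist_zero_right, Real.norm_eq_abs] at hx
        · rw [Set.indicator_of_notMem hx]
          exact zero_le
      refine h4.trans ?_
      rw [← ofReal_integral_eq_lintegral_ofReal (hint n)
        (Eventually.of_forall fun x => psi_nonneg n x)]
      exact ENNReal.ofReal_le_ofReal (hbd n)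
    exact lt_of_le_of_lt h1 ENNReal.ofReal_lt_top
  refine ⟨hfinm, ?_⟩
  -- nonnegative bounded functions
  have key : ∀ f : ℝ → ℝ, Continuous f → (∀ x, 0 ≤ f x) → (∃ M : ℝ, ∀ x, |f x| ≤ M) →
      Tendsto (fun B : ℝ => SS ρ E f B / B ^ D) atTop (𝓝 (∫ x, f x ∂ν)) := by
    rintro f hf hf0 ⟨M, hM⟩
    have hM0 : 0 ≤ M := (abs_nonneg _).trans (hM 0)
    have hfi : Integrable f ν :=
      Integrable.of_bound hf.aestronglyMeasurable M (Eventually.of_forall fun x => hM x)
    -- the integrals of the truncations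
    have htr : Tendsto (fun n : ℕ => ∫ x, f x * psi n x ∂ν) atTop (𝓝 (∫ x, f x ∂ν)) := by
      refine tendsto_integral_of_dominated_convergence (fun x => |f x|) (fun n => ?_) hfi.abs
        (fun n => ?_) ?_
      · exact (hf.mul (psi_continuous n)).aestronglyMeasurable
      · refine Eventually.of_forall fun x => ?_
        rw [norm_mul, Real.norm_of_nonneg (psi_nonneg n x), Real.norm_eq_abs]
        exact mul_le_of_le_one_right (abs_nonneg _) (psi_le_one n x)
      · refine Eventually.of_forall fun x => ?_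
        obtain ⟨n₀, hn₀⟩ := exists_nat_ge |x|
        refine tendsto_const_nhds.congr' ?_
        filter_upwards [eventually_ge_atTop n₀] with n hn
        rw [psi_one, mul_one]
        exact hn₀.trans (by exact_mod_cast hn)
    rw [Metric.tendsto_atTop]
    intro ε hε
    obtain ⟨N', hN'⟩ := tail_psi hT (ε := ε / (4 * (M + 1))) (by positivity)
    obtain ⟨n, hn1, hn2⟩ : ∃ n : ℕ, N' ≤ n ∧ |∫ x, f x * psi n x ∂ν - ∫ x, f x ∂ν| < ε / 4 := by
      have h1 := (Metric.tendsto_nhds.1 htr) (ε / 4) (by positivity)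
      obtain ⟨n, h2, h3⟩ := (h1.and (eventually_ge_atTop N')).exists
      rw [Real.dist_eq] at h2
      exact ⟨n, h3, h2⟩
    have h1 := hν (fun x => f x * psi n x) (hf.mul (psi_continuous n))
      ((psi_compact n).mul_left) (fun x => mul_nonneg (hf0 x) (psi_nonneg n x))
    have h2 := (Metric.tendsto_nhds.1 h1) (ε / 4) (by positivity)
    obtain ⟨B₀, hB₀⟩ := eventually_atTop.1 (h2.and ((hN' n hn1 f M hM0 hM).and
      (eventually_gt_atTop 0)))
    refine ⟨B₀, fun B hB => ?_⟩
    obtain ⟨g1, g2, g3⟩ := hB₀ B hB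
    rw [Real.dist_eq] at g1 ⊢
    have h3 : SS ρ E f B = SS ρ E (fun x => f x * psi n x) B +
        SS ρ E (fun x => f x * (1 - psi n x)) B := by
      rw [← ss_add hT.fin]
      congr 1
      funext x
      ring
    have h4 : |SS ρ E (fun x => f x * (1 - psi n x)) B / B ^ D| ≤ ε / 4 := by
      rw [abs_div, abs_of_pos (hBD B g3), div_le_iff₀ (hBD B g3)]
      refine g2.trans ?_
      refine mul_le_mul_of_nonneg_right ?_ (hBD B g3).le
      rw [mul_div_assoc', div_le_iff₀ (by positivity)]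
      nlinarith
    rw [h3, add_div]
    have h5 : ∀ a b c d : ℝ, |a - c| < ε / 4 → |b| ≤ ε / 4 → |c - d| < ε / 4 →
        |a + b - d| < ε := by
      intro a b c d h1 h2 h3
      rw [abs_lt] at h1 h3 ⊢
      rw [abs_le] at h2
      constructor <;> linarith [h1.1, h1.2, h2.1, h2.2, h3.1, h3.2]
    exact h5 _ _ _ _ g1 h4 hn2
  rintro f hf ⟨M, hM⟩
  have h1 := key (fun x => max (f x) 0) (hf.max continuous_const) (fun x => le_max_right _ _)
    ⟨M, fun x => by
      rw [abs_of_nonneg (le_max_right _ _)]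
      exact max_le ((le_abs_self _).trans (hM x)) ((abs_nonneg _).trans (hM x))⟩
  have h2 := key (fun x => max (-f x) 0) (hf.neg.max continuous_const) (fun x => le_max_right _ _)
    ⟨M, fun x => by
      rw [abs_of_nonneg (le_max_right _ _)]
      exact max_le ((neg_le_abs _).trans (hM x)) ((abs_nonneg _).trans (hM x))⟩
  have hfi : Integrable f ν :=
    Integrable.of_bound hf.aestronglyMeasurable M (Eventually.of_forall fun x => hM x)
  have h3 : ∀ x, f x = max (f x) 0 - max (-f x) 0 := by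
    intro x
    rcases le_total 0 (f x) with h | h
    · rw [max_eq_left h, max_eq_right (by linarith), sub_zero]
    · rw [max_eq_right h, max_eq_left (by linarith)]
      ring
  have h4 : ∫ x, f x ∂ν = ∫ x, max (f x) 0 ∂ν - ∫ x, max (-f x) 0 ∂ν := by
    have hi1 : Integrable (fun x => max (f x) 0) ν := hfi.pos_part
    have hi2 : Integrable (fun x => max (-f x) 0) ν := hfi.neg.pos_part
    rw [← integral_sub hi1 hi2]
    exact integral_congr_ae (Eventually.of_forall fun x => h3 x)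
  rw [h4]
  refine (h1.sub h2).congr fun B => ?_
  rw [← sub_div, ← ss_sub hT.fin]
  congr 2
  funext x
  exact (h3 x).symm

end

end Pool.Agent.N906.EQ
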