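import Pool.Agent.N906.EQ.Pack

/-!
# Approximation by congruence conditions from local data
-/

set_option autoImplicit false
set_option linter.unusedSectionVars false

namespace Pool.Agent.N906.EQ

open Module Finset Filter Topology Pool.Agent.N852

section

variable {ι : Type}

/-- periodic modulo `n` -/
def Per {β : Type} (n : ℕ) (f : (ι → ℤ) → β) : Prop :=
  ∀ z w : ι → ℤ, (∃ u : ι → ℤ, z - w = (n : ℤ) • u) → f z = f w

lemma Per.mul {β : Type} {n : ℕ} {f : (ι → ℤ) → β} (h : Per n f) (k : ℕ) : Per (n * k) f := by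
  rintro z w ⟨u, hu⟩
  refine h z w ⟨(k : ℤ) • u, ?_⟩
  rw [hu, smul_smul]
  push_cast
  rfl

lemma Per.mul' {β : Type} {n : ℕ} {f : (ι → ℤ) → β} (h : Per n f) (k : ℕ) : Per (k * n) f := by
  rw [mul_comm]
  exact h.mul k

lemma Per.sum {A : Type} (F : Finset A) (n : A → ℕ) (f : A → (ι → ℤ) → ℝ)
    (h : ∀ a, Per (n a) (f a)) : Per (∏ a ∈ F, n a) fun z => ∑ a ∈ F, f a z := by
  classical
  intro z w hzw
  refine sum_congr rfl fun a ha => ?_
  have h1 : Per (∏ a ∈ F, n a) (f a) := by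
    rw [← mul_prod_erase F n ha]
    exact (h a).mul _
  exact h1 z w hzw

variable [Fintype ι]

/-- **Approximation from local data.** -/
theorem approx_local {A : Type} {V : Set (ι → ℤ)} {e : (ι → ℤ) → ℝ}
    (VF : Finset A → Set (ι → ℤ)) (nV : Finset A → ℕ) (hnV : ∀ F, nV F ≠ 0)
    (hVF : ∀ F, Per (nV F) fun z => z ∈ VF F) (hsub : ∀ F, V ⊆ VF F)
    {Q : A → (ι → ℤ) → Prop} {εQ : A → ℝ} (hεQ : Summable εQ) (hεQ0 : ∀ a, 0 ≤ εQ a)
    (hQ : ∀ a, UD (Q a) (εQ a))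
    (hVQ : ∀ F z, z ∈ VF F → z ∉ V → ∃ a, a ∉ F ∧ Q a z)
    {V₁ : Set (ι → ℤ)} (hV₁ : V₁ ⊆ V) (hV₁d : ∀ δ : ℝ, 0 < δ → ED (fun z => z ∈ V ∧ z ∉ V₁) δ)
    {loc : A → (ι → ℤ) → ℝ} {bad : A → (ι → ℤ) → Prop} {εB : A → ℝ} (hεB : Summable εB)
    (hεB0 : ∀ a, 0 ≤ εB a) (hB : ∀ a, UD (bad a) (εB a)) (A₀ : Finset A)
    (hbad : ∀ a, a ∉ A₀ → ∀ z ∈ V₁, loc a z ≠ 0 → bad a z)
    (hloc : ∀ a, ∀ δ : ℝ, 0 < δ → ∃ (n : ℕ) (f : (ι → ℤ) → ℝ), n ≠ 0 ∧ Per n f ∧
      ED (fun z => z ∈ V₁ ∧ loc a z ≠ f z) δ)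
    (he : ∀ z ∈ V₁, e z = ∑ᶠ a, loc a z) : Approx V₁ e := by
  classical
  intro ε hε
  -- a large finite set
  have htQ : ∃ F : Finset A, ∀ F' : Finset A, F ⊆ F' → ∑' a : {a // a ∉ F'}, εQ a ≤ ε / 8 := by
    have h1 := tendsto_tsum_compl_atTop_zero εQ
    have h2 := (h1.eventually (ge_mem_nhds (show (0 : ℝ) < ε / 8 by positivity)))
    obtain ⟨F, hF⟩ := eventually_atTop.1 h2
    exact ⟨F, fun F' h => hF F' h⟩
  have htB : ∃ F : Finset A, ∀ F' : Finset A, F ⊆ F' → ∑' a : {a // a ∉ F'}, εB a ≤ ε / 8 := by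
    have h1 := tendsto_tsum_compl_atTop_zero εB
    have h2 := (h1.eventually (ge_mem_nhds (show (0 : ℝ) < ε / 8 by positivity)))
    obtain ⟨F, hF⟩ := eventually_atTop.1 h2
    exact ⟨F, fun F' h => hF F' h⟩
  obtain ⟨F1, hF1⟩ := htQ
  obtain ⟨F2, hF2⟩ := htB
  set F := F1 ∪ F2 ∪ A₀ with hF
  have hF1' := hF1 F (by intro a ha; simp [hF, ha])
  have hF2' := hF2 F (by intro a ha; simp [hF, ha])
  set δ : ℝ := ε / (4 * (F.card + 1)) with hδ
  have hδ0 : 0 < δ := by positivity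
  choose n f hn hper hed using fun a => hloc a δ hδ0
  refine ⟨nV F * ∏ a ∈ F, n a, mul_ne_zero (hnV F) (prod_ne_zero_iff.2 fun a _ => hn a), VF F,
    fun z => ∑ a ∈ F, f a z, ?_, ?_⟩
  · intro z w h
    refine ⟨?_, ?_⟩
    · exact iff_of_eq ((hVF F).mul _ z w h)
    · exact ((Per.sum F n f hper).mul' _) z w h
  · -- the exceptional vectors
    have e1 : ED (fun z => ∃ a : {a // a ∉ F}, Q a z) (ε / 8) :=
      ((UD.exists (hεQ.subtype _) (fun a => hεQ0 a.1) fun a : {a // a ∉ F} => hQ a).mono_eps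
        hF1').ed
    have e2 : ED (fun z => ∃ a : {a // a ∉ F}, bad a z) (ε / 8) :=
      ((UD.exists (hεB.subtype _) (fun a => hεB0 a.1) fun a : {a // a ∉ F} => hB a).mono_eps
        hF2').ed
    have e3 : ∀ G : Finset A, ED (fun z => ∃ a ∈ G, z ∈ V₁ ∧ loc a z ≠ f a z) (G.card * δ) := by
      intro G
      induction G using Finset.induction_on with
      | empty =>
        rw [card_empty, Nat.cast_zero, zero_mul]
        refine Eventually.of_forall fun Y S hS => ?_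
        rw [zero_mul]
        rcases S.eq_empty_or_nonempty with h | ⟨z, hz⟩
        · rw [h, card_empty, Nat.cast_zero]
        · obtain ⟨a, ha, -⟩ := (hS z hz).2.2
          exact absurd ha (notMem_empty a)
      | insert a G ha ih =>
        rw [card_insert_of_notMem ha]
        refine ((hed a).or ih).mono ?_ |>.mono_eps ?_
        · intro z _ hz
          obtain ⟨b, hb, h⟩ := hz
          rcases mem_insert.1 hb with rfl | hb
          · exact Or.inl h
          · exact Or.inr ⟨b, hb, h⟩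
        · push_cast
          linarith
    have e4 := hV₁d (ε / 8) (by positivity)
    refine ((((e1.or e2).or (e3 F)).or e4).mono ?_ |>.mono_eps ?_ : ED (fun z =>
      ¬ ((z ∈ V₁ ↔ z ∈ VF F) ∧ (z ∈ V₁ → e z = ∑ a ∈ F, f a z))) ε)
    · intro z _ hz
      by_contra hcon
      apply hz
      simp only [not_or] at hcon
      obtain ⟨⟨⟨c1, c2⟩, c3⟩, c4⟩ := hcon
      have h1 : z ∈ V₁ ↔ z ∈ VF F := by
        constructor
        · exact fun h => hsub F (hV₁ h)
        · intro h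
          by_contra h2
          by_cases h3 : z ∈ V
          · exact c4 ⟨h3, h2⟩
          · obtain ⟨a, ha, hq⟩ := hVQ F z h h3
            exact c1 ⟨⟨a, ha⟩, hq⟩
      refine ⟨h1, fun hz1 => ?_⟩
      rw [he z hz1]
      have h2 : Function.support (fun a => loc a z) ⊆ (F : Set A) := by
        intro a ha
        by_contra h3
        have h3' : a ∉ F := fun h => h3 (mem_coe.2 h)
        have h4 : a ∉ A₀ := fun h => h3' (by simp [hF, h])
        exact c2 ⟨⟨a, h3'⟩, hbad a h4 z hz1 ha⟩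
      rw [finsum_eq_sum_of_support_subset _ h2]
      refine sum_congr rfl fun a ha => ?_
      by_contra h3
      exact c3 ⟨a, ha, hz1, h3⟩
    · have h1 : (F.card : ℝ) * δ ≤ ε / 4 := by
        rw [hδ, mul_div_assoc', div_le_iff₀ (by positivity)]
        nlinarith
      linarith

end

end Pool.Agent.N906.EQ
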