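import Pool.Agent.N906.EQ.P1

/-!
# Many points with a large error
-/

set_option autoImplicit false
set_option linter.unusedSectionVars false

namespace Pool.Agent.N906.EQ

open NumberField NumberField.InfinitePlace IsDedekindDomain Module Finset Filter Topology
  Pool.Agent.N852 Pool.Agent.H691R3 Pool.Agent.TH876.Loc MeasureTheory

section

variable {K : Type} [Field K] [NumberField K] {q : ℕ}

/-- the affine map -/
def xm (u v : Fin 2 → K) (z : K) : Fin 2 → K := fun i => z * u i + v i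

lemma xm_ne {u v : Fin 2 → K} (huv : u 0 * v 1 - u 1 * v 0 ≠ 0) (z : K) : xm u v z ≠ 0 := by
  intro h
  have h0 : z * u 0 + v 0 = 0 := congrFun h 0
  have h1 : z * u 1 + v 1 = 0 := congrFun h 1
  apply huv
  linear_combination u 0 * h1 - u 1 * h0

lemma xm_ht (u v : Fin 2 → K) : ∃ C : ℝ, ∀ z : K,
    Height.logHeight (xm u v z) ≤ hr (aff z) + C := by
  set A : Fin 2 × Fin 2 → K := fun p => if p.2 = 0 then u p.1 else v p.1 with hA
  refine ⟨(Height.totalWeight K : ℝ) * Real.log (Nat.card (Fin 2)) + Height.logHeight A,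
    fun z => ?_⟩
  have h := Height.logHeight_linearMap_apply_le A ![z, 1]
  have e : (fun j => ∑ i, A (j, i) * ![z, 1] i) = xm u v z := by
    funext j
    simp [hA, Fin.sum_univ_two, xm]
    ring
  rw [e] at h
  rw [Pool.Agent.R365.QP.hr_aff]
  linarith

lemma xm_inj {u v : Fin 2 → K} (huv : u 0 * v 1 - u 1 * v 0 ≠ 0) {z z' : K}
    (h : Projectivization.mk K (xm u v z) (xm_ne huv z) =
      Projectivization.mk K (xm u v z') (xm_ne huv z')) : z = z' := by
  obtain ⟨c, hc⟩ := (Projectivization.mk_eq_mk_iff' K _ _ _ _).1 h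
  have h0 : c * (z' * u 0 + v 0) = z * u 0 + v 0 := congrFun hc 0
  have h1 : c * (z' * u 1 + v 1) = z * u 1 + v 1 := congrFun hc 1
  have h2 : (c - 1) * (u 0 * v 1 - u 1 * v 0) = 0 := by
    linear_combination u 0 * h1 - u 1 * h0
  have h3 : c = 1 := by
    have := (mul_eq_zero.1 h2).resolve_right huv
    linear_combination this
  have h4 : (z - z') * (u 0 * v 1 - u 1 * v 0) = 0 := by
    rw [h3] at h0 h1
    linear_combination v 0 * h1 - v 1 * h0
  have := (mul_eq_zero.1 h4).resolve_right huv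
  linear_combination this

lemma push (α : Fin q → Fin 2 → K) (hL : ∀ l, Lf α l ≠ 0) {u v : Fin 2 → K}
    (huv : u 0 * v 1 - u 1 * v 0 ≠ 0) : ∃ C : ℝ, ∀ E : Finset K, ∃ G : Finset (Om (Lf α)),
      E.card ≤ G.card + q ∧ ∀ P ∈ G, ∃ z ∈ E, ∃ c : K, c ≠ 0 ∧ P.1.rep = c • xm u v z ∧
        (∀ l, lfK (Lf α l) (xm u v z) ≠ 0) ∧ Height.logHeight P.1.rep ≤ hr (aff z) + C := by
  classical
  obtain ⟨C, hC⟩ := xm_ht u v
  refine ⟨C, fun E => ?_⟩
  set bad : Fin q → Finset K := fun l => E.filter fun z => lfK (Lf α l) (xm u v z) = 0 with hbad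
  have hbad1 : ∀ l, (bad l).card ≤ 1 := by
    intro l
    rw [Finset.card_le_one]
    intro z hz z' hz'
    have h1 := (mem_filter.1 hz).2
    have h2 := (mem_filter.1 hz').2
    rw [lfK_Lf] at h1 h2
    simp only [xm] at h1 h2
    by_contra hne
    have hsub : (z - z') * (u 0 * α l 1 - u 1 * α l 0) = 0 := by linear_combination h1 - h2
    have hu := (mul_eq_zero.1 hsub).resolve_left (sub_ne_zero.2 hne)
    have hv : v 0 * α l 1 - v 1 * α l 0 = 0 := by linear_combination h1 - z * hu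
    apply hL l
    have g1 : α l 1 * (u 0 * v 1 - u 1 * v 0) = 0 := by linear_combination v 1 * hu - u 1 * hv
    have g2 : α l 0 * (u 0 * v 1 - u 1 * v 0) = 0 := by linear_combination v 0 * hu - u 0 * hv
    have g1' := (mul_eq_zero.1 g1).resolve_right huv
    have g2' := (mul_eq_zero.1 g2).resolve_right huv
    funext i
    fin_cases i
    · exact g1'
    · show -α l 0 = 0
      rw [g2', neg_zero]
  set E' := E.filter fun z => ∀ l, lfK (Lf α l) (xm u v z) ≠ 0 with hE'
  have hcard : E.card ≤ E'.card + q := by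
    have h1 : E ⊆ E' ∪ univ.biUnion bad := by
      intro z hz
      rw [mem_union]
      by_cases h : ∀ l, lfK (Lf α l) (xm u v z) ≠ 0
      · left
        exact mem_filter.2 ⟨hz, h⟩
      · right
        push Not at h
        obtain ⟨l, hl⟩ := h
        exact mem_biUnion.2 ⟨l, mem_univ l, mem_filter.2 ⟨hz, hl⟩⟩
    calc E.card ≤ (E' ∪ univ.biUnion bad).card := card_le_card h1
      _ ≤ E'.card + (univ.biUnion bad).card := card_union_le _ _
      _ ≤ E'.card + ∑ l : Fin q, (bad l).card := by gcongr; exact card_biUnion_le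
      _ ≤ E'.card + ∑ _l : Fin q, 1 := by gcongr with l; exact hbad1 l
      _ = E'.card + q := by simp
  have hrep : ∀ z : K, ∃ c : K, c ≠ 0 ∧
      (Projectivization.mk K (xm u v z) (xm_ne huv z)).rep = c • xm u v z := by
    intro z
    obtain ⟨c, hc⟩ := Projectivization.exists_smul_eq_mk_rep K (xm u v z) (xm_ne huv z)
    exact ⟨c, c.ne_zero, hc.symm⟩
  have hoff : ∀ z ∈ E', ∀ l, lfK (Lf α l)
      (Projectivization.mk K (xm u v z) (xm_ne huv z)).rep ≠ 0 := by
    intro z hz l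
    obtain ⟨c, hc0, hc⟩ := hrep z
    rw [hc, lfK_smul]
    exact mul_ne_zero hc0 ((mem_filter.1 hz).2 l)
  set φ : E' → Om (Lf α) := fun z =>
    ⟨Projectivization.mk K (xm u v z) (xm_ne huv z), hoff z.1 z.2⟩ with hφ
  refine ⟨univ.image φ, ?_, ?_⟩
  · rw [card_image_of_injective, card_univ, Fintype.card_coe]
    · exact hcard
    · intro z z' h
      exact Subtype.ext (xm_inj huv (congrArg Subtype.val h))
  · intro P hP
    obtain ⟨z, -, rfl⟩ := mem_image.1 hP
    obtain ⟨c, hc0, hc⟩ := hrep z.1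
    refine ⟨z.1, (mem_filter.1 z.2).1, c, hc0, hc, (mem_filter.1 z.2).2, ?_⟩
    show Height.logHeight (Projectivization.mk K (xm u v z) (xm_ne huv z)).rep ≤ _
    rw [hc, Height.logHeight_smul_eq_logHeight _ hc0]
    exact hC z.1

/-- the error at a point close to `α l₀` at an infinite place -/
lemma DE_big (T : Set (Pr K)) (L : Fin q → Fin 2 → K) {x : Fin 2 → K}
    (h : ∀ l, lfK (L l) x ≠ 0) (l₀ : Fin q) (w : InfinitePlace K) (hw : 0 ≤ lamI w (L l₀) x) :
    lamI w (L l₀) x - ∑ _l : Fin q, ∑ w : InfinitePlace K, (w.mult : ℝ) * Real.log 2 ≤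
      DE (gT T) L x := by
  classical
  unfold DE
  have h1 : 0 ≤ ∑ᶠ v : Pr K, ∑ l, gT T v (lamF v (L l) x) :=
    finsum_nonneg fun v => sum_nonneg fun l _ => gT_nonneg T v (lamF_nonneg' v (h l))
  have h2 : ∀ l (w' : InfinitePlace K), 0 ≤ (w'.mult : ℝ) * lamI w' (L l) x +
      (w'.mult : ℝ) * Real.log 2 := by
    intro l w'
    have := lamI_ge two_pos w' (h l)
    push_cast at this
    rw [← mul_add]
    exact mul_nonneg (Nat.cast_nonneg _) (by linarith)
  have h3 : lamI w (L l₀) x ≤ ∑ l, ∑ w' : InfinitePlace K, ((w'.mult : ℝ) * lamI w' (L l) x +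
      (w'.mult : ℝ) * Real.log 2) := by
    calc lamI w (L l₀) x ≤ (w.mult : ℝ) * lamI w (L l₀) x + (w.mult : ℝ) * Real.log 2 := by
          have h4 : (1 : ℝ) ≤ w.mult := by exact_mod_cast w.mult_pos
          have h5 : 0 ≤ (w.mult : ℝ) * Real.log 2 :=
            mul_nonneg (Nat.cast_nonneg _) (Real.log_nonneg (by norm_num))
          nlinarith
      _ ≤ ∑ w' : InfinitePlace K, ((w'.mult : ℝ) * lamI w' (L l₀) x +
            (w'.mult : ℝ) * Real.log 2) :=
          single_le_sum (f := fun w' : InfinitePlace K => (w'.mult : ℝ) * lamI w' (L l₀) x +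
            (w'.mult : ℝ) * Real.log 2) (fun w' _ => h2 l₀ w') (mem_univ w)
      _ ≤ _ := single_le_sum (f := fun l => ∑ w' : InfinitePlace K,
          ((w'.mult : ℝ) * lamI w' (L l) x + (w'.mult : ℝ) * Real.log 2))
          (fun l _ => sum_nonneg fun w' _ => h2 l w') (mem_univ l₀)
  simp only [sum_add_distrib] at h3
  linarith

lemma lamI_big (w : InfinitePlace K) {a b : Fin 2 → K} (hab : b 0 * a 1 - b 1 * a 0 ≠ 0)
    {x : Fin 2 → K} {y₀ y₁ : K} (hx : x = fun i => y₀ * b i + y₁ * a i) (hy : y₀ ≠ 0) {N : ℝ}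
    (hN : 0 < N) (h : N * w y₀ ≤ w y₁) :
    Real.log (N * iN w ![a 1, -a 0] / (2 * iN w b)) ≤ lamI w ![a 1, -a 0] x := by
  have hb : b ≠ 0 := by
    rintro rfl
    apply hab
    simp
  have hL : (![a 1, -a 0] : Fin 2 → K) ≠ 0 := by
    intro h
    have h1 : a 1 = 0 := congrFun h 0
    have h2 : -a 0 = 0 := congrFun h 1
    apply hab
    rw [h1, neg_eq_zero.1 h2]
    ring
  have hib := iN_pos w hb
  have hiL := iN_pos w hL
  have hδ : 0 < w (b 0 * a 1 - b 1 * a 0) := (w.pos_iff).2 hab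
  have hwy : 0 < w y₀ := (w.pos_iff).2 hy
  have e1 : lfK ![a 1, -a 0] x = y₀ * (b 0 * a 1 - b 1 * a 0) := by
    rw [hx]
    unfold lfK
    simp [Fin.sum_univ_two]
    ring
  have e2 : lfK ![b 1, -b 0] x = -(y₁ * (b 0 * a 1 - b 1 * a 0)) := by
    rw [hx]
    unfold lfK
    simp [Fin.sum_univ_two]
    ring
  have h1 := lfK_inf_le w ![b 1, -b 0] x
  have e3 : iN w ![b 1, -b 0] = iN w b := by
    unfold iN
    rw [norm_eq_iSup _ fun i => apply_nonneg w _, norm_eq_iSup _ fun i => apply_nonneg w _,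
      Pool.Agent.R365.QP.iSup_two, Pool.Agent.R365.QP.iSup_two, max_comm]
    show max (w (-b 0)) (w (b 1)) = max (w (b 0)) (w (b 1))
    have : w (-b 0) = w (b 0) := w.1.map_neg _
    rw [this]
  have e4 : w (-(y₁ * (b 0 * a 1 - b 1 * a 0))) = w y₁ * w (b 0 * a 1 - b 1 * a 0) := by
    have : w (-(y₁ * (b 0 * a 1 - b 1 * a 0))) = w (y₁ * (b 0 * a 1 - b 1 * a 0)) :=
      w.1.map_neg _
    rw [this, map_mul]
  rw [e2, e3, e4] at h1
  push_cast at h1
  unfold lamI
  rw [e1, map_mul]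
  refine Real.log_le_log (by positivity) ?_
  rw [div_le_div_iff₀ (by positivity) (by positivity)]
  have h2 : N * w y₀ * w (b 0 * a 1 - b 1 * a 0) ≤ w y₁ * w (b 0 * a 1 - b 1 * a 0) :=
    mul_le_mul_of_nonneg_right h hδ.le
  have h3 : N * w y₀ * w (b 0 * a 1 - b 1 * a 0) ≤ 2 * (iN w b * iN w x) := h2.trans h1
  have h4 := mul_le_mul_of_nonneg_right h3 hiL.le
  calc N * iN w ![a 1, -a 0] * (w y₀ * w (b 0 * a 1 - b 1 * a 0)) =
      N * w y₀ * w (b 0 * a 1 - b 1 * a 0) * iN w ![a 1, -a 0] := by ring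
    _ ≤ 2 * (iN w b * iN w x) * iN w ![a 1, -a 0] := h4
    _ = _ := by ring

/-- a positive proportion of the points has a large error -/
theorem p1_low (hq : 3 ≤ q) (T : Set (Pr K)) (α : Fin q → Fin 2 → K)
    (hα : ∀ i j, i ≠ j → α i 0 * α j 1 - α i 1 * α j 0 ≠ 0) (t : ℝ) :
    ∃ c B₀ : ℝ, 0 < c ∧ ∀ B : ℝ, B₀ ≤ B → ∃ G : Finset (Om (Lf α)),
      (∀ P ∈ G, rho (Lf α) P ≤ B ∧ t ≤ Er T α P) ∧
      c * B ^ ((2 * finrank ℚ K : ℕ) : ℝ) ≤ G.card := by
  classical
  have hd0 : 0 < finrank ℚ K := finrank_pos (R := ℚ) (M := K)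
  have hd : (0 : ℝ) < finrank ℚ K := by exact_mod_cast hd0
  have hqR : (3 : ℝ) ≤ q := by exact_mod_cast hq
  have hq0 : (0 : ℝ) < q := by linarith
  have hα0 : ∀ l, pr α l ≠ 0 := by
    intro l h
    have h1 : α l 0 = 0 := congrArg Prod.fst h
    have h2 : α l 1 = 0 := congrArg Prod.snd h
    obtain ⟨j, hj⟩ : ∃ j : Fin q, j ≠ l := by
      have : 1 < Fintype.card (Fin q) := by rw [Fintype.card_fin]; omega
      exact Fintype.exists_ne_of_one_lt_card this l
    exact hα j l hj (by rw [h1, h2]; ring)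
  have hL : ∀ l, Lf α l ≠ 0 := by
    intro l h
    apply hα0 l
    have h1 : α l 1 = 0 := congrFun h 0
    have h2 : -α l 0 = 0 := congrFun h 1
    exact Prod.ext (neg_eq_zero.1 h2) h1
  set l₀ : Fin q := ⟨0, by omega⟩
  set l₁ : Fin q := ⟨1, by omega⟩
  have hne : l₁ ≠ l₀ := by
    intro h
    have := congrArg Fin.val h
    simp [l₀, l₁] at this
  have hδ := hα l₁ l₀ hne
  set a := α l₀ with ha
  set b := α l₁ with hb
  obtain ⟨w⟩ : Nonempty (InfinitePlace K) := inferInstance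
  have hb0 : b ≠ 0 := by
    intro h
    apply hδ
    rw [h]
    simp
  have hib := iN_pos w hb0
  have hiL : 0 < iN w ![a 1, -a 0] := iN_pos w (hL l₀)
  -- choice of `N`
  set c₀ : ℝ := ∑ _l : Fin q, ∑ w : InfinitePlace K, (w.mult : ℝ) * Real.log 2 with hc₀
  set s : ℝ := max 0 (finrank ℚ K * t + ∑ l, Height.logHeight (Lf α l) + c₀) with hs
  set r : ℝ := iN w ![a 1, -a 0] / (2 * iN w b) with hr'
  have hr0 : 0 < r := by positivity
  obtain ⟨N, hN⟩ := exists_nat_ge (max 1 (Real.exp s / r))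
  have hN1 : (1 : ℝ) ≤ N := (le_max_left _ _).trans hN
  have hN0 : (0 : ℝ) < N := by linarith
  have hNK : (N : K) ≠ 0 := by
    have : N ≠ 0 := by
      rintro rfl
      norm_num at hN1
    exact_mod_cast this
  have hsN : s ≤ Real.log (N * iN w ![a 1, -a 0] / (2 * iN w b)) := by
    rw [mul_div_assoc]
    rw [Real.le_log_iff_exp_le (by positivity)]
    have h1 := (le_max_right _ _).trans hN
    rwa [div_le_iff₀ hr0] at h1
  have hwN : w (N : K) = N := by
    have h1 := InfinitePlace.norm_embedding_eq w (N : K)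
    rw [map_natCast, Complex.norm_natCast] at h1
    exact h1.symm
  -- points close to `α l₀` have a large error
  have hclose : ∀ x : Fin 2 → K, (∀ l, lfK (Lf α l) x ≠ 0) → ∀ y₀ y₁ : K,
      (x = fun i => y₀ * b i + y₁ * a i) → N * w y₀ ≤ w y₁ →
      finrank ℚ K * t + ∑ l, Height.logHeight (Lf α l) ≤ DE (gT T) (Lf α) x := by
    intro x hx y₀ y₁ hxy h
    have hy : y₀ ≠ 0 := by
      rintro rfl
      apply hx l₀
      rw [lfK_Lf, hxy]
      simp only [zero_mul, zero_add]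
      ring
    have h1 : s ≤ lamI w (Lf α l₀) x := hsN.trans (lamI_big w hδ hxy hy hN0 h)
    have h2 := DE_big T (Lf α) hx l₀ w ((le_max_left _ _).trans h1)
    have h3 : finrank ℚ K * t + ∑ l, Height.logHeight (Lf α l) + c₀ ≤ s := le_max_right _ _
    linarith
  set u : Fin 2 → K := fun i => (N : K) * a i with hu
  have huv1 : b 0 * u 1 - b 1 * u 0 ≠ 0 := by
    have : b 0 * u 1 - b 1 * u 0 = N * (b 0 * a 1 - b 1 * a 0) := by
      simp only [hu]
      ring
    rw [this]
    exact mul_ne_zero hNK hδ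
  have huv2 : u 0 * b 1 - u 1 * b 0 ≠ 0 := by
    intro h
    apply huv1
    linear_combination -h
  obtain ⟨C1, hC1⟩ := push α hL huv1
  obtain ⟨C2, hC2⟩ := push α hL huv2
  set C := max C1 C2 with hC
  obtain ⟨c₁, X₀, hc₁, hX₀, hlow⟩ := Pool.Agent.R365.SH.low_all hq T (pr α) hα0 hα
  -- the lower bound for the number of points
  set e := Real.exp (-(C / finrank ℚ K)) with he
  have hepos : 0 < e := Real.exp_pos _
  have htend : Tendsto (fun B : ℝ => c₁ / 4 * (e * B) ^ ((2 * finrank ℚ K : ℕ) : ℝ)) atTop atTop :=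
    ((tendsto_rpow_atTop (by positivity)).comp
      (tendsto_id.const_mul_atTop hepos)).const_mul_atTop (by positivity)
  obtain ⟨B₁, hB₁⟩ := eventually_atTop.1 (htend.eventually_ge_atTop (q : ℝ))
  refine ⟨c₁ / 4 * e ^ ((2 * finrank ℚ K : ℕ) : ℝ), max (max B₁ 1) (X₀ / e), by positivity,
    fun B hB => ?_⟩
  have hBB1 : B₁ ≤ B := (le_max_left _ _).trans ((le_max_left _ _).trans hB)
  have hB1 : 1 ≤ B := (le_max_right _ _).trans ((le_max_left _ _).trans hB)
  have hB0 : 0 < B := by linarith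
  have hBe : X₀ ≤ e * B := by
    have := (le_max_right _ _).trans hB
    rwa [div_le_iff₀ hepos, mul_comm] at this
  have heB : 1 ≤ e * B := hX₀.trans hBe
  have heB0 : 0 < e * B := by linarith
  obtain ⟨E, hE, hcard⟩ := hlow ((e * B) ^ (q : ℝ)) (by
    refine hBe.trans ?_
    calc e * B = (e * B) ^ (1 : ℝ) := (Real.rpow_one _).symm
      _ ≤ (e * B) ^ (q : ℝ) := Real.rpow_le_rpow_of_exponent_le heB (by linarith))
  have hcard' : c₁ * (e * B) ^ ((2 * finrank ℚ K : ℕ) : ℝ) ≤ E.card := by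
    rw [← Real.rpow_mul heB0.le] at hcard
    have h1 : (q : ℝ) * (2 / q * finrank ℚ K) = ((2 * finrank ℚ K : ℕ) : ℝ) := by
      push_cast
      field_simp
    rwa [h1] at hcard
  have hhE : ∀ z ∈ E, hr (aff z) ≤ finrank ℚ K * Real.log B - C := by
    intro z hz
    refine (hE z hz).2.2.trans (le_of_eq ?_)
    rw [Real.log_rpow heB0, Real.log_mul hepos.ne' hB0.ne', he, Real.log_exp]
    field_simp
    ring
  -- the two halves
  have main : ∀ E' : Finset K, (E' ⊆ E) → (E.card : ℝ) ≤ 2 * E'.card →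
      (∃ G : Finset (Om (Lf α)), E'.card ≤ G.card + q ∧
        ∀ P ∈ G, (∃ z ∈ E', Height.logHeight P.1.rep ≤ hr (aff z) + C) ∧
          finrank ℚ K * t + ∑ l, Height.logHeight (Lf α l) ≤ DE (gT T) (Lf α) P.1.rep) →
      ∃ G : Finset (Om (Lf α)),
      (∀ P ∈ G, rho (Lf α) P ≤ B ∧ t ≤ Er T α P) ∧
      c₁ / 4 * e ^ ((2 * finrank ℚ K : ℕ) : ℝ) * B ^ ((2 * finrank ℚ K : ℕ) : ℝ) ≤ G.card := by
    rintro E' hsub hhalf ⟨G, hG1, hG2⟩
    refine ⟨G, fun P hP => ?_, ?_⟩
    · obtain ⟨⟨z, hz, h1⟩, h2⟩ := hG2 P hP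
      constructor
      · rw [rho_le_iff _ _ hB0.le, ← Real.log_le_log_iff (Height.mulHeight_pos _) (by positivity),
          ← Height.logHeight_eq_log_mulHeight, Real.log_pow]
        linarith [hhE z (hsub hz)]
      · rw [DE_eq T (Lf α) P.2] at h2
        unfold Er
        rw [le_div_iff₀ hd]
        linarith
    · have h1 : (E'.card : ℝ) ≤ G.card + q := by exact_mod_cast hG1
      have h2 := hB₁ B hBB1
      rw [mul_assoc, ← Real.mul_rpow hepos.le hB0.le]
      linarith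
  set E1 := E.filter fun z => w z ≤ 1 with hE1
  set E2 := E.filter fun z => ¬ w z ≤ 1 with hE2
  have hsum : (E.card : ℝ) = E1.card + E2.card := by
    have := Finset.card_filter_add_card_filter_not (s := E) (fun z => w z ≤ 1)
    exact_mod_cast this.symm
  have hscale : ∀ (x : Fin 2 → K) (c : K), c ≠ 0 → DE (gT T) (Lf α) (c • x) =
      DE (gT T) (Lf α) x := fun x c hc => DE_smul _ _ _ hc
  rcases le_total (E1.card : ℝ) E2.card with hcase | hcase
  · -- the points `b + N z a`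
    refine main E2 (filter_subset _ _) (by linarith) ?_
    obtain ⟨G, hG1, hG2⟩ := hC2 E2
    refine ⟨G, hG1, fun P hP => ?_⟩
    obtain ⟨z, hz, c, hc, hrep, hoff, hht⟩ := hG2 P hP
    refine ⟨⟨z, hz, hht.trans (by linarith [le_max_right C1 C2])⟩, ?_⟩
    rw [hrep, hscale _ _ hc]
    refine hclose _ hoff 1 (N * z) ?_ ?_
    · funext i
      simp only [xm, hu]
      ring
    · rw [map_one, mul_one, map_mul, hwN]
      have h1 := not_le.1 (mem_filter.1 hz).2
      nlinarith
  · -- the points `z b + N a`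
    refine main E1 (filter_subset _ _) (by linarith) ?_
    obtain ⟨G, hG1, hG2⟩ := hC1 E1
    refine ⟨G, hG1, fun P hP => ?_⟩
    obtain ⟨z, hz, c, hc, hrep, hoff, hht⟩ := hG2 P hP
    refine ⟨⟨z, hz, hht.trans (by linarith [le_max_left C1 C2])⟩, ?_⟩
    rw [hrep, hscale _ _ hc]
    refine hclose _ hoff z N ?_ ?_
    · funext i
      simp only [xm, hu]
    · rw [hwN]
      have h1 := (mem_filter.1 hz).2
      nlinarith

end

end Pool.Agent.N906.EQ
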