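import Pool.Agent.N906.EQ.Soft2

/-!
# Exponential moments, and functions of polynomial growth
-/

set_option autoImplicit false
set_option linter.unusedSectionVars false

namespace Pool.Agent.N906.EQ

open Filter Topology MeasureTheory

lemma rmp_nonneg (t : ℝ) : 0 ≤ rmp t := le_max_left _ _

lemma rmp_le_one (t : ℝ) : rmp t ≤ 1 := max_le zero_le_one (min_le_left _ _)

/-- exponential moments from a bound for the tail -/
theorem exp_int {μ : Measure ℝ} [IsFiniteMeasure μ] {κ a C : ℝ} (hκ : 0 ≤ κ) (ha : 0 < a)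
    (hC : 0 ≤ C) (hint : Integrable (fun s => Real.exp (κ * s)) μ)
    (h : ∀ n : ℕ, ∫ s, rmp (s - n) * Real.exp (κ * s) ∂μ ≤ C * Real.exp (-(a * n)))
    {b : ℝ} (hb0 : 0 ≤ b) (hb : b < κ + a) : Integrable (fun s => Real.exp (b * s)) μ := by
  rcases le_total b κ with hbκ | hbκ
  · have h1 : Integrable (fun s => 1 + Real.exp (κ * s)) μ := (integrable_const 1).add hint
    refine h1.mono' (by fun_prop) (Eventually.of_forall fun s => ?_)
    rw [Real.norm_of_nonneg (Real.exp_pos _).le]
    rcases le_total 0 s with hs | hs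
    · have : Real.exp (b * s) ≤ Real.exp (κ * s) :=
        Real.exp_le_exp.2 (mul_le_mul_of_nonneg_right hbκ hs)
      linarith
    · have : Real.exp (b * s) ≤ 1 := Real.exp_le_one_iff.2 (mul_nonpos_of_nonneg_of_nonpos hb0 hs)
      linarith [Real.exp_pos (κ * s)]
  · have hri : ∀ n : ℕ, Integrable (fun s => rmp (s - n) * Real.exp (κ * s)) μ := by
      intro n
      have hc := rmp_continuous
      refine hint.mono' (by fun_prop) (Eventually.of_forall fun s => ?_)
      rw [norm_mul, Real.norm_of_nonneg (rmp_nonneg _), Real.norm_of_nonneg (Real.exp_pos _).le]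
      exact mul_le_of_le_one_left (Real.exp_pos _).le (rmp_le_one _)
    set G : ℕ → ℝ → ℝ := fun n s =>
      Real.exp ((b - κ) * (n + 2)) * (rmp (s - n) * Real.exp (κ * s)) with hG
    have hG0 : ∀ n s, 0 ≤ G n s := fun n s =>
      mul_nonneg (Real.exp_pos _).le (mul_nonneg (rmp_nonneg _) (Real.exp_pos _).le)
    have hpt : ∀ s, ENNReal.ofReal (Real.exp (b * s)) ≤
        ENNReal.ofReal (Real.exp b) + ∑' n, ENNReal.ofReal (G n s) := by
      intro s
      rcases le_total s 1 with hs | hs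
      · refine le_trans ?_ le_self_add
        apply ENNReal.ofReal_le_ofReal
        apply Real.exp_le_exp.2
        nlinarith
      · refine le_trans ?_ le_add_self
        obtain ⟨n, hn1, hn2⟩ : ∃ n : ℕ, (n : ℝ) + 1 ≤ s ∧ s ≤ n + 2 := by
          have h1 : 1 ≤ ⌊s⌋₊ := Nat.le_floor (by exact_mod_cast hs)
          refine ⟨⌊s⌋₊ - 1, ?_, ?_⟩
          · have h2 := Nat.floor_le (show 0 ≤ s by linarith)
            rw [Nat.cast_sub h1]
            push_cast
            linarith
          · have h2 := Nat.lt_floor_add_one s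
            rw [Nat.cast_sub h1]
            push_cast
            linarith
        refine le_trans ?_ (ENNReal.le_tsum n)
        apply ENNReal.ofReal_le_ofReal
        simp only [hG]
        rw [rmp_one (by linarith), one_mul, ← Real.exp_add]
        apply Real.exp_le_exp.2
        nlinarith
    refine ⟨by fun_prop, ?_⟩
    rw [hasFiniteIntegral_iff_ofReal (Eventually.of_forall fun x => (Real.exp_pos _).le)]
    have hc := rmp_continuous
    have h1 : ∫⁻ s, ENNReal.ofReal (Real.exp (b * s)) ∂μ ≤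
        ENNReal.ofReal (Real.exp b) * μ Set.univ +
          ∑' n : ℕ, ENNReal.ofReal (Real.exp ((b - κ) * (n + 2)) * (C * Real.exp (-(a * n)))) := by
      refine (lintegral_mono hpt).trans ?_
      rw [lintegral_add_left measurable_const, lintegral_const]
      refine add_le_add le_rfl ?_
      rw [lintegral_tsum]
      · refine ENNReal.tsum_le_tsum fun n => ?_
        rw [← ofReal_integral_eq_lintegral_ofReal ((hri n).const_mul _)
          (Eventually.of_forall fun s => hG0 n s)]
        apply ENNReal.ofReal_le_ofReal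
        rw [integral_const_mul]
        exact mul_le_mul_of_nonneg_left (h n) (Real.exp_pos _).le
      · intro n
        simp only [hG]
        fun_prop
    refine lt_of_le_of_lt h1 ?_
    refine ENNReal.add_lt_top.2 ⟨ENNReal.mul_lt_top ENNReal.ofReal_lt_top (measure_lt_top _ _), ?_⟩
    have h2 : Summable fun n : ℕ => Real.exp ((b - κ) * (n + 2)) * (C * Real.exp (-(a * n))) := by
      have h3 : Summable fun n : ℕ => Real.exp (b - κ - a) ^ n := by
        apply summable_geometric_of_lt_one (Real.exp_pos _).le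
        rw [Real.exp_lt_one_iff]
        linarith
      refine (h3.mul_left (C * Real.exp (2 * (b - κ)))).congr fun n => ?_
      rw [← Real.exp_nat_mul, mul_assoc, mul_left_comm, ← mul_assoc, mul_comm (Real.exp _) C,
        mul_assoc, ← Real.exp_add, mul_left_comm, ← Real.exp_add]
      congr 2
      ring
    rw [← ENNReal.ofReal_tsum_of_nonneg _ h2]
    · exact ENNReal.ofReal_lt_top
    · intro n
      positivity

section

variable {Ω : Type} {ρ E : Ω → ℝ}

/-- **Extension to functions dominated by a weight.** -/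
theorem extend_w {D c₀ : ℝ} (hfin : ∀ B : ℝ, {P | ρ P ≤ B}.Finite) (hlow : ∀ P, -c₀ ≤ E P)
    {ν : Measure ℝ}
    (hν : ∀ f : ℝ → ℝ, Continuous f → (∃ M : ℝ, ∀ x, |f x| ≤ M) →
      Tendsto (fun B : ℝ => SS ρ E f B / B ^ D) atTop (𝓝 (∫ x, f x ∂ν)))
    {W : ℝ → ℝ} (hW0 : ∀ s, 0 ≤ W s) (hWi : Integrable W ν)
    (htail : ∀ ε : ℝ, 0 < ε → ∃ t : ℝ, ∀ᶠ B : ℝ in atTop,
      SS ρ E (fun s => if t ≤ s then W s else 0) B ≤ ε * B ^ D)
    {f : ℝ → ℝ} (hf : Continuous f) (hfW : ∀ s, |f s| ≤ W s) :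
    Tendsto (fun B : ℝ => SS ρ E f B / B ^ D) atTop (𝓝 (∫ x, f x ∂ν)) := by
  have hBD : ∀ B : ℝ, 0 < B → 0 < B ^ D := fun B hB => Real.rpow_pos_of_pos hB D
  have hfi : Integrable f ν := hWi.mono' hf.aestronglyMeasurable
    (Eventually.of_forall fun s => by rw [Real.norm_eq_abs]; exact hfW s)
  have htr : Tendsto (fun n : ℕ => ∫ x, f x * psi n x ∂ν) atTop (𝓝 (∫ x, f x ∂ν)) := by
    refine tendsto_integral_of_dominated_convergence (fun x => |f x|) (fun n => ?_) hfi.abs
      (fun n => ?_) ?_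
    · exact (hf.mul (psi_continuous n)).aestronglyMeasurable
    · refine Eventually.of_forall fun x => ?_
      rw [norm_mul, Real.norm_of_nonneg (psi_nonneg n x), Real.norm_eq_abs]
      exact mul_le_of_le_one_right (abs_nonneg _) (psi_le_one n x)
    · refine Eventually.of_forall fun x => ?_
      obtain ⟨n₀, hn₀⟩ := exists_nat_ge |x|
      refine tendsto_const_nhds.congr' ?_
      filter_upwards [eventually_ge_atTop n₀] with n hn
      rw [psi_one, mul_one]
      exact hn₀.trans (by exact_mod_cast hn)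
  rw [Metric.tendsto_nhds]
  intro ε hε
  obtain ⟨t, ht⟩ := htail (ε / 4) (by positivity)
  obtain ⟨n, hn1, hn2⟩ : ∃ n : ℕ, max |c₀| t ≤ n ∧
      |∫ x, f x * psi n x ∂ν - ∫ x, f x ∂ν| < ε / 4 := by
    have h1 := (Metric.tendsto_nhds.1 htr) (ε / 4) (by positivity)
    obtain ⟨n₀, hn₀⟩ := exists_nat_ge (max |c₀| t)
    obtain ⟨n, h2, h3⟩ := (h1.and (eventually_ge_atTop n₀)).exists
    rw [Real.dist_eq] at h2
    exact ⟨n, hn₀.trans (by exact_mod_cast h3), h2⟩
  have hcn : |c₀| ≤ n := (le_max_left _ _).trans hn1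
  have htn : t ≤ n := (le_max_right _ _).trans hn1
  have h1 := hν (fun x => f x * psi n x) (hf.mul (psi_continuous n)) (by
    obtain ⟨M, hM⟩ := ((psi_compact n).mul_left (f := f)).exists_bound_of_continuous
      (hf.mul (psi_continuous n))
    exact ⟨M, fun x => by rw [← Real.norm_eq_abs]; exact hM x⟩)
  have h2 := (Metric.tendsto_nhds.1 h1) (ε / 4) (by positivity)
  filter_upwards [h2, ht, eventually_gt_atTop 0] with B g1 g2 g3
  rw [Real.dist_eq] at g1 ⊢
  have h3 : SS ρ E f B = SS ρ E (fun x => f x * psi n x) B +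
      SS ρ E (fun x => f x * (1 - psi n x)) B := by
    rw [← ss_add hfin]
    congr 1
    funext x
    ring
  have h4 : |SS ρ E (fun x => f x * (1 - psi n x)) B| ≤
      SS ρ E (fun s => if t ≤ s then W s else 0) B := by
    classical
    unfold SS
    have hs1 := ss_summable (E := E) hfin (fun x => f x * (1 - psi n x)) B
    have hs2 := ss_summable (E := E) hfin (fun s => if t ≤ s then W s else 0) B
    rw [← Real.norm_eq_abs]
    refine (norm_tsum_le_tsum_norm hs1.norm).trans ?_
    refine Summable.tsum_le_tsum (fun P => ?_) hs1.norm hs2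
    by_cases hP : ρ P ≤ B
    · rw [if_pos hP, if_pos hP, norm_mul, Real.norm_eq_abs, Real.norm_eq_abs,
        abs_of_nonneg (sub_nonneg.2 (psi_le_one n _))]
      show |f (E P)| * (1 - psi n (E P)) ≤ if t ≤ E P then W (E P) else 0
      by_cases hP2 : t ≤ E P
      · rw [if_pos hP2]
        refine le_trans (mul_le_of_le_one_right (abs_nonneg _) ?_) (hfW _)
        linarith [psi_nonneg n (E P)]
      · rw [if_neg hP2, psi_one, sub_self, mul_zero]
        rw [abs_le]
        have := hlow P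
        have := le_abs_self c₀
        constructor <;> linarith
    · rw [if_neg hP, if_neg hP, norm_zero]
  have h5 : |SS ρ E (fun x => f x * (1 - psi n x)) B / B ^ D| ≤ ε / 4 := by
    rw [abs_div, abs_of_pos (hBD B g3), div_le_iff₀ (hBD B g3)]
    exact h4.trans g2
  rw [h3, add_div]
  have h6 : ∀ a b c d : ℝ, |a - c| < ε / 4 → |b| ≤ ε / 4 → |c - d| < ε / 4 →
      |a + b - d| < ε := by
    intro a b c d h1 h2 h3
    rw [abs_lt] at h1 h3 ⊢
    rw [abs_le] at h2
    constructor <;> linarith [h1.1, h1.2, h2.1, h2.2, h3.1, h3.2]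
  exact h6 _ _ _ _ g1 h5 hn2

open Classical in
/-- bound for the sums of a power over the points with a large value -/
theorem tail_pow {D c₀ C a ν κ : ℝ} (hfin : ∀ B : ℝ, {P | ρ P ≤ B}.Finite)
    (ha : 0 < a) (hν : 0 < ν) (hC : 0 ≤ C) (hκ : 0 ≤ κ)
    (hE : ∀ P, ∀ B : ℝ, 1 ≤ B → ρ P ≤ B → E P ≤ κ * Real.log B)
    (hcount : ∀ B t : ℝ, 1 ≤ B → 0 ≤ t → ({P | ρ P ≤ B ∧ t ≤ E P}.ncard : ℝ) ≤
      C * (Real.exp (-(a * t)) + B ^ (-ν)) * B ^ D) (k : ℕ) (A : ℝ) (hA : 0 ≤ A)
    (ε : ℝ) (hε : 0 < ε) : ∃ t : ℝ, ∀ᶠ B : ℝ in atTop,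
      SS ρ E (fun s => if t ≤ s then A * (1 + |s|) ^ k else 0) B ≤ ε * B ^ D := by
  -- the tail of the series
  have hser : Summable fun j : ℕ => A * C * ((j : ℝ) + 2) ^ k * Real.exp (-(a * j)) := by
    have h1 : Summable fun j : ℕ => ((j : ℝ) + 2) ^ k * Real.exp (-a) ^ (j + 2) := by
      have h2 : ‖Real.exp (-a)‖ < 1 := by
        rw [Real.norm_of_nonneg (Real.exp_pos _).le, Real.exp_lt_one_iff]
        linarith
      have h3 := summable_pow_mul_geometric_of_norm_lt_one k h2
      have h4 := (summable_nat_add_iff 2).2 h3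
      refine h4.congr fun j => ?_
      push_cast
      rfl
    refine (h1.mul_left (A * C * Real.exp (2 * a))).congr fun j => ?_
    rw [← Real.exp_nat_mul]
    have h5 : Real.exp (-(a * j)) = Real.exp (2 * a) * Real.exp (((j + 2 : ℕ) : ℝ) * -a) := by
      rw [← Real.exp_add]
      congr 1
      push_cast
      ring
    rw [h5]
    ring
  set S : ℕ → ℝ := fun j => A * C * ((j : ℝ) + 2) ^ k * Real.exp (-(a * j)) with hS
  have hS0 : ∀ j, 0 ≤ S j := fun j => by positivity
  obtain ⟨J, hJ⟩ : ∃ J : ℕ, ∀ M : ℕ, ∑ j ∈ Finset.Ico J M, S j ≤ ε / 2 := by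
    have h1 := hser.hasSum.tendsto_sum_nat
    have h2 := (Metric.tendsto_atTop.1 h1) (ε / 2) (by positivity)
    obtain ⟨J, hJ⟩ := h2
    refine ⟨J, fun M => ?_⟩
    have h3 := hJ J le_rfl
    rw [Real.dist_eq, abs_lt] at h3
    rcases le_total J M with h | h
    · have h4 : ∑ j ∈ Finset.range M, S j ≤ ∑' j, S j := hser.sum_le_tsum _ fun j _ => hS0 j
      have h5 := Finset.sum_Ico_eq_sub S h
      rw [h5]
      linarith [h3.1]
    · rw [Finset.Ico_eq_empty_of_le h, Finset.sum_empty]
      positivity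
  refine ⟨J, ?_⟩
  -- the power saving beats the logarithms
  have hlog : Tendsto (fun B : ℝ => A * C * (κ * Real.log B + 3) ^ (k + 1) * B ^ (-ν)) atTop
      (𝓝 0) := by
    have h1 : Tendsto (fun x : ℝ => (κ * x + 3) ^ (k + 1) * Real.exp (-ν * x)) atTop (𝓝 0) := by
      have h2 : ∀ n : ℕ, Tendsto (fun x : ℝ => x ^ n * Real.exp (-ν * x)) atTop (𝓝 0) := by
        intro n
        have h3 := Real.tendsto_pow_mul_exp_neg_atTop_nhds_zero n
        have h4 : Tendsto (fun x : ℝ => (ν * x) ^ n * Real.exp (-(ν * x))) atTop (𝓝 0) :=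
          h3.comp (tendsto_id.const_mul_atTop hν)
        have h5 := h4.const_mul ((ν ^ n)⁻¹)
        rw [mul_zero] at h5
        refine h5.congr fun x => ?_
        rw [mul_pow, neg_mul]
        have : ν ^ n ≠ 0 := (pow_pos hν n).ne'
        field_simp
      have h3 : ∀ x : ℝ, (κ * x + 3) ^ (k + 1) * Real.exp (-ν * x) =
          ∑ i ∈ Finset.range (k + 1 + 1), (κ ^ i * 3 ^ (k + 1 - i) * ((k + 1).choose i : ℝ)) *
            (x ^ i * Real.exp (-ν * x)) := by
        intro x
        rw [add_pow, Finset.sum_mul]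
        refine Finset.sum_congr rfl fun i _ => ?_
        rw [mul_pow]
        ring
      simp_rw [h3]
      rw [show (0 : ℝ) = ∑ i ∈ Finset.range (k + 1 + 1),
        (κ ^ i * 3 ^ (k + 1 - i) * ((k + 1).choose i : ℝ)) * 0 by simp]
      exact tendsto_finsetSum _ fun i _ => (h2 i).const_mul _
    have h2 := (h1.comp Real.tendsto_log_atTop).const_mul (A * C)
    rw [mul_zero] at h2
    refine h2.congr' ?_
    filter_upwards [eventually_gt_atTop 0] with B hB
    show A * C * ((κ * Real.log B + 3) ^ (k + 1) * Real.exp (-ν * Real.log B)) = _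
    rw [Real.rpow_def_of_pos hB, mul_comm (Real.log B)]
    ring
  filter_upwards [hlog.eventually (gt_mem_nhds (show (0 : ℝ) < ε / 2 by positivity)),
    eventually_ge_atTop 1] with B hB1 hB
  have hB0 : 0 < B := by linarith
  have hBD : 0 < B ^ D := Real.rpow_pos_of_pos hB0 _
  have hlogB : 0 ≤ Real.log B := Real.log_nonneg hB
  set M : ℕ := ⌊κ * Real.log B⌋₊ + 1 with hM
  have hMle : (M : ℝ) ≤ κ * Real.log B + 1 := by
    rw [hM]
    push_cast
    have := Nat.floor_le (show 0 ≤ κ * Real.log B by positivity)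
    linarith
  -- layers
  have hlayer : SS ρ E (fun s => if (J : ℝ) ≤ s then A * (1 + |s|) ^ k else 0) B ≤
      ∑ j ∈ Finset.Ico J M, A * ((j : ℝ) + 2) ^ k * ({P | ρ P ≤ B ∧ (j : ℝ) ≤ E P}.ncard : ℝ) := by
    have h1 : ∀ j : ℕ, ({P | ρ P ≤ B ∧ (j : ℝ) ≤ E P}.ncard : ℝ) =
        SS ρ E (fun s => if (j : ℝ) ≤ s then 1 else 0) B := by
      intro j
      have hf : {P | ρ P ≤ B ∧ (j : ℝ) ≤ E P}.Finite := (hfin B).subset fun P hP => hP.1
      unfold SS
      rw [tsum_eq_sum (s := hf.toFinset), Set.ncard_eq_toFinset_card _ hf]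
      · have h2 : ∀ P ∈ hf.toFinset, (if ρ P ≤ B then (if (j : ℝ) ≤ E P then (1 : ℝ) else 0)
            else 0) = 1 := by
          intro P hP
          obtain ⟨g1, g2⟩ := hf.mem_toFinset.1 hP
          rw [if_pos g1, if_pos g2]
        rw [Finset.sum_congr rfl h2, Finset.sum_const, nsmul_eq_mul, mul_one]
      · intro P hP
        by_cases g1 : ρ P ≤ B
        · rw [if_pos g1]
          exact if_neg fun g2 => hP (hf.mem_toFinset.2 ⟨g1, g2⟩)
        · rw [if_neg g1]
    have h2 : ∑ j ∈ Finset.Ico J M, A * ((j : ℝ) + 2) ^ k *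
        ({P | ρ P ≤ B ∧ (j : ℝ) ≤ E P}.ncard : ℝ) =
        ∑' P, ∑ j ∈ Finset.Ico J M, (A * ((j : ℝ) + 2) ^ k *
          (if ρ P ≤ B then (if (j : ℝ) ≤ E P then 1 else 0) else 0)) := by
      rw [Summable.tsum_finsetSum]
      · refine Finset.sum_congr rfl fun j _ => ?_
        rw [tsum_mul_left, h1]
        rfl
      · intro j _
        exact (ss_summable hfin (fun s => if (j : ℝ) ≤ s then 1 else 0) B).mul_left _
    rw [h2]
    unfold SS
    refine Summable.tsum_le_tsum (fun P => ?_)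
      (ss_summable hfin (fun s => if (J : ℝ) ≤ s then A * (1 + |s|) ^ k else 0) B) ?_
    · have hnn : ∀ j ∈ Finset.Ico J M, 0 ≤ A * ((j : ℝ) + 2) ^ k *
          (if ρ P ≤ B then (if (j : ℝ) ≤ E P then 1 else 0) else 0) := by
        intro j _
        refine mul_nonneg (by positivity) ?_
        split_ifs <;> norm_num
      show (if ρ P ≤ B then (if (J : ℝ) ≤ E P then A * (1 + |E P|) ^ k else 0) else 0) ≤ _
      by_cases g1 : ρ P ≤ B
      · rw [if_pos g1]
        by_cases g2 : (J : ℝ) ≤ E P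
        · rw [if_pos g2]
          have hEP : 0 ≤ E P := (Nat.cast_nonneg J).trans g2
          have g3 : ⌊E P⌋₊ ∈ Finset.Ico J M := by
            rw [Finset.mem_Ico]
            refine ⟨Nat.le_floor g2, ?_⟩
            rw [hM, Nat.lt_succ_iff]
            exact Nat.floor_le_floor (hE P B hB g1)
          refine le_trans ?_ (Finset.single_le_sum hnn g3)
          rw [if_pos g1, if_pos (Nat.floor_le hEP), mul_one, abs_of_nonneg hEP]
          refine mul_le_mul_of_nonneg_left (pow_le_pow_left₀ (by positivity) ?_ k) hA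
          linarith [(Nat.lt_floor_add_one (E P)).le]
        · rw [if_neg g2]
          exact Finset.sum_nonneg hnn
      · rw [if_neg g1]
        exact Finset.sum_nonneg hnn
    · exact summable_sum fun j _ =>
        (ss_summable hfin (fun s => if (j : ℝ) ≤ s then 1 else 0) B).mul_left _
  refine hlayer.trans ?_
  have hterm : ∀ j ∈ Finset.Ico J M, A * ((j : ℝ) + 2) ^ k *
      ({P | ρ P ≤ B ∧ (j : ℝ) ≤ E P}.ncard : ℝ) ≤
      (S j + A * C * (κ * Real.log B + 3) ^ k * B ^ (-ν)) * B ^ D := by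
    intro j hj
    have hjM : (j : ℝ) ≤ M := by exact_mod_cast (Finset.mem_Ico.1 hj).2.le
    have h1 := hcount B j hB (Nat.cast_nonneg j)
    have h2 : ((j : ℝ) + 2) ^ k ≤ (κ * Real.log B + 3) ^ k :=
      pow_le_pow_left₀ (by positivity) (by linarith) k
    have hν0 : 0 ≤ B ^ (-ν) := Real.rpow_nonneg hB0.le _
    calc A * ((j : ℝ) + 2) ^ k * ({P | ρ P ≤ B ∧ (j : ℝ) ≤ E P}.ncard : ℝ) ≤
        A * ((j : ℝ) + 2) ^ k * (C * (Real.exp (-(a * j)) + B ^ (-ν)) * B ^ D) :=
          mul_le_mul_of_nonneg_left h1 (by positivity)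
      _ = (S j + A * C * ((j : ℝ) + 2) ^ k * B ^ (-ν)) * B ^ D := by
          simp only [hS]
          ring
      _ ≤ _ := by gcongr
  refine (Finset.sum_le_sum hterm).trans ?_
  rw [← Finset.sum_mul, Finset.sum_add_distrib, Finset.sum_const, nsmul_eq_mul]
  refine mul_le_mul_of_nonneg_right ?_ hBD.le
  have h1 : (((Finset.Ico J M).card : ℕ) : ℝ) ≤ κ * Real.log B + 3 := by
    rw [Nat.card_Ico]
    have : ((M - J : ℕ) : ℝ) ≤ M := by exact_mod_cast Nat.sub_le _ _
    linarith
  have h2 : (((Finset.Ico J M).card : ℕ) : ℝ) *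
      (A * C * (κ * Real.log B + 3) ^ k * B ^ (-ν)) ≤
      A * C * (κ * Real.log B + 3) ^ (k + 1) * B ^ (-ν) := by
    have h3 : 0 ≤ A * C * (κ * Real.log B + 3) ^ k * B ^ (-ν) := by
      have : 0 ≤ B ^ (-ν) := Real.rpow_nonneg hB0.le _
      positivity
    calc _ ≤ (κ * Real.log B + 3) * (A * C * (κ * Real.log B + 3) ^ k * B ^ (-ν)) :=
          mul_le_mul_of_nonneg_right h1 h3
      _ = _ := by ring
  have h3 := hJ M
  linarith [h2.trans hB1.le]

end

end Pool.Agent.N906.EQ
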