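import Pool.Agent.N906.EQ.Coord

/-!
# Points of projective space and primitive vectors up to units
-/

set_option autoImplicit false
set_option linter.unusedSectionVars false

namespace Pool.Agent.N906.EQ

open NumberField NumberField.InfinitePlace Module Finset Filter Topology Pool.Agent.N852
open scoped nonZeroDivisors

section

variable {K : Type} [Field K] [NumberField K] {m : ℕ}

/-- an ideal in every class -/
noncomputable def Jr (c : ClassGroup (𝓞 K)) : Ideal (𝓞 K) :=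
  ((ClassGroup.mk0_surjective c).choose : Ideal (𝓞 K))

lemma Jr_mem (c : ClassGroup (𝓞 K)) : Jr c ∈ (Ideal (𝓞 K))⁰ :=
  (ClassGroup.mk0_surjective c).choose.2

lemma Jr_mk (c : ClassGroup (𝓞 K)) : ClassGroup.mk0 ⟨Jr c, Jr_mem c⟩ = c :=
  (ClassGroup.mk0_surjective c).choose_spec

lemma Jr_ne (c : ClassGroup (𝓞 K)) : Jr c ≠ ⊥ := nonZeroDivisors.ne_zero (Jr_mem c)

/-- the ideal generated by the coordinates -/
def idl (v : Fin m → 𝓞 K) : Ideal (𝓞 K) := Ideal.span (Set.range v)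

/-- the primitive vectors of a class -/
def Vc (c : ClassGroup (𝓞 K)) : Set (Fin m × Jx K → ℤ) := {z | idl (vec z) = Jr c}

/-- the vector over the field -/
def kv (v : Fin m → 𝓞 K) : Fin m → K := fun i => (v i : K)

lemma kv_ne {v : Fin m → 𝓞 K} (h : v ≠ 0) : kv v ≠ 0 := by
  intro h1
  apply h
  funext i
  exact FaithfulSMul.algebraMap_injective (𝓞 K) K ((congrFun h1 i).trans (map_zero _).symm)

lemma idl_smul (a : 𝓞 K) (v : Fin m → 𝓞 K) : idl (a • v) = Ideal.span {a} * idl v := by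
  unfold idl
  rw [Ideal.span_mul_span']
  congr 1
  ext x
  constructor
  · rintro ⟨i, rfl⟩
    exact Set.mul_mem_mul (Set.mem_singleton a) ⟨i, rfl⟩
  · rintro ⟨_, rfl, _, ⟨i, rfl⟩, rfl⟩
    exact ⟨i, rfl⟩

lemma idl_ne {v : Fin m → 𝓞 K} (h : v ≠ 0) : idl v ≠ ⊥ := by
  intro h1
  apply h
  funext i
  have h2 : v i ∈ idl v := Ideal.subset_span ⟨i, rfl⟩
  rw [h1] at h2
  exact h2

lemma ne_zero_of_mem {c : ClassGroup (𝓞 K)} {z : Fin m × Jx K → ℤ} (h : z ∈ Vc c) : z ≠ 0 := by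
  rintro rfl
  have h1 : idl (vec (0 : Fin m × Jx K → ℤ)) = Jr c := h
  apply Jr_ne c
  rw [← h1, vec_zero, idl, Ideal.span_eq_bot]
  rintro _ ⟨i, rfl⟩
  rfl

/-- every point has a primitive vector -/
theorem exists_prim (x : Fin m → K) (hx : x ≠ 0) : ∃ (c : ClassGroup (𝓞 K))
    (z : Fin m × Jx K → ℤ) (t : K), z ∈ Vc c ∧ t ≠ 0 ∧ kv (vec z) = t • x := by
  classical
  obtain ⟨b, hb⟩ := IsLocalization.exist_integer_multiples_of_finset (nonZeroDivisors (𝓞 K))
    (univ.image x)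
  have hb0 : (b : 𝓞 K) ≠ 0 := nonZeroDivisors.ne_zero b.2
  have hbK : ((b : 𝓞 K) : K) ≠ 0 := by
    intro h
    exact hb0 (FaithfulSMul.algebraMap_injective (𝓞 K) K (h.trans (map_zero _).symm))
  have h1 : ∀ i, ∃ y : 𝓞 K, (y : K) = (b : 𝓞 K) * x i := by
    intro i
    obtain ⟨y, hy⟩ := hb (x i) (mem_image_of_mem x (mem_univ i))
    refine ⟨y, ?_⟩
    have h2 : (b : 𝓞 K) • x i = ((b : 𝓞 K) : K) * x i := Algebra.smul_def _ _
    rw [← h2]
    exact hy
  choose y hy using h1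
  have hy0 : y ≠ 0 := by
    intro h
    apply hx
    funext i
    have h2 := hy i
    rw [h] at h2
    have h3 : ((b : 𝓞 K) : K) * x i = 0 := h2.symm.trans (map_zero (algebraMap (𝓞 K) K))
    exact (mul_eq_zero.1 h3).resolve_left hbK
  have hI : idl y ∈ (Ideal (𝓞 K))⁰ := mem_nonZeroDivisors_of_ne_zero (idl_ne hy0)
  set c := ClassGroup.mk0 ⟨idl y, hI⟩ with hc
  have h2 : ClassGroup.mk0 ⟨idl y, hI⟩ = ClassGroup.mk0 ⟨Jr c, Jr_mem c⟩ := by rw [Jr_mk]
  obtain ⟨p, q, hp, hq, hpq⟩ := (ClassGroup.mk0_eq_mk0_iff).1 h2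
  simp only at hpq
  have h3 : ∀ i, ∃ w : 𝓞 K, p * y i = q * w := by
    intro i
    have h4 : p * y i ∈ Ideal.span {q} * Jr c := by
      rw [← hpq]
      exact Ideal.mul_mem_mul (Ideal.mem_span_singleton_self p) (Ideal.subset_span ⟨i, rfl⟩)
    have h5 := Ideal.mul_le_right h4
    obtain ⟨w, hw⟩ := Ideal.mem_span_singleton'.1 (Ideal.mul_le_left (I := Ideal.span {q}) h4)
    exact ⟨w, by rw [← hw, mul_comm]⟩
  choose w hw using h3
  have h4 : p • y = q • w := funext hw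
  have h5 : Ideal.span {q} * idl w = Ideal.span {q} * Jr c := by
    rw [← idl_smul, ← h4, idl_smul]
    exact hpq
  have h6 : idl w = Jr c :=
    mul_left_cancel₀ (by rw [Ne, Ideal.zero_eq_bot, Ideal.span_singleton_eq_bot]; exact hq) h5
  obtain ⟨z, hz⟩ := vec_surj w
  have hpK : (p : K) ≠ 0 := by
    intro h
    exact hp (FaithfulSMul.algebraMap_injective (𝓞 K) K (h.trans (map_zero _).symm))
  have hqK : (q : K) ≠ 0 := by
    intro h
    exact hq (FaithfulSMul.algebraMap_injective (𝓞 K) K (h.trans (map_zero _).symm))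
  refine ⟨c, z, (p : K) * (b : 𝓞 K) / q, ?_, div_ne_zero (mul_ne_zero hpK hbK) hqK, ?_⟩
  · show idl (vec z) = Jr c
    rw [hz, h6]
  · funext i
    rw [hz]
    show (w i : K) = ((p : K) * (b : 𝓞 K) / q) * x i
    have h7 : (p : K) * (y i : K) = (q : K) * (w i : K) := by
      have := congrArg (algebraMap (𝓞 K) K) (hw i)
      rwa [map_mul, map_mul] at this
    rw [hy] at h7
    field_simp
    linear_combination -h7

/-- primitive vectors of the same point differ by a unit -/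
theorem prim_unique {c c' : ClassGroup (𝓞 K)} {z z' : Fin m × Jx K → ℤ} (hz : z ∈ Vc c)
    (hz' : z' ∈ Vc c') {t : K} (h : kv (vec z') = t • kv (vec z)) :
    c = c' ∧ ∃ u : (𝓞 K)ˣ, vec z' = (u : 𝓞 K) • vec z := by
  have hzi : idl (vec z) = Jr c := hz
  have hzi' : idl (vec z') = Jr c' := hz'
  have ht : t ≠ 0 := by
    rintro rfl
    rw [zero_smul] at h
    exact kv_ne (vec_ne_zero.2 (ne_zero_of_mem hz')) h
  obtain ⟨a, b, hb, hab⟩ := IsFractionRing.div_surjective (A := 𝓞 K) t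
  have hb0 : b ≠ 0 := nonZeroDivisors.ne_zero hb
  have hbK : (b : K) ≠ 0 := by
    intro h
    exact hb0 (FaithfulSMul.algebraMap_injective (𝓞 K) K (h.trans (map_zero _).symm))
  have ha0 : a ≠ 0 := by
    rintro rfl
    rw [map_zero, zero_div] at hab
    exact ht hab.symm
  have h1 : b • vec z' = a • vec z := by
    funext i
    apply FaithfulSMul.algebraMap_injective (𝓞 K) K
    have h2 : (vec z' i : K) = t * (vec z i : K) := congrFun h i
    rw [Pi.smul_apply, Pi.smul_apply, smul_eq_mul, smul_eq_mul, map_mul, map_mul]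
    have h3 : algebraMap (𝓞 K) K (vec z' i) = t * algebraMap (𝓞 K) K (vec z i) := h2
    have h4 : algebraMap (𝓞 K) K b ≠ 0 := hbK
    rw [h3, ← hab]
    field_simp
  have h2 : Ideal.span {b} * Jr c' = Ideal.span {a} * Jr c := by
    rw [← hzi', ← idl_smul, h1, idl_smul, hzi]
  have hcc : c = c' := by
    rw [← Jr_mk c, ← Jr_mk c']
    exact (ClassGroup.mk0_eq_mk0_iff).2 ⟨a, b, ha0, hb0, h2.symm⟩
  refine ⟨hcc, ?_⟩
  subst hcc
  have h3 : Ideal.span {b} = Ideal.span {a} := mul_right_cancel₀ (Jr_ne c) h2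
  obtain ⟨u, hu⟩ := Ideal.span_singleton_eq_span_singleton.1 h3
  refine ⟨u, ?_⟩
  funext i
  have h4 := congrFun h1 i
  rw [Pi.smul_apply, Pi.smul_apply, smul_eq_mul, smul_eq_mul, ← hu, mul_assoc] at h4
  exact mul_left_cancel₀ hb0 h4

lemma unit_mem {c : ClassGroup (𝓞 K)} {z z' : Fin m × Jx K → ℤ} (hz : z ∈ Vc c) (u : (𝓞 K)ˣ)
    (h : vec z' = (u : 𝓞 K) • vec z) : z' ∈ Vc c := by
  show idl (vec z') = Jr c
  rw [h, idl_smul, Ideal.span_singleton_eq_top.2 u.isUnit, Ideal.top_mul]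
  exact hz

lemma sN_unit (w : InfinitePlace K) {z z' : Fin m × Jx K → ℤ} (u : (𝓞 K)ˣ)
    (h : vec z' = (u : 𝓞 K) • vec z) : sN w (ic z') = w ((u : 𝓞 K) : K) * sN w (ic z) := by
  rw [sN_int, sN_int, h]
  have h1 : (fun i => w ((((u : 𝓞 K) • vec z) i : 𝓞 K) : K)) =
      w ((u : 𝓞 K) : K) • fun i => w (vec z i : K) := by
    funext i
    show w (algebraMap (𝓞 K) K ((u : 𝓞 K) * vec z i)) = _
    rw [map_mul, map_mul]
    rfl
  rw [h1, norm_smul, Real.norm_of_nonneg (apply_nonneg w _)]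

lemma el_unit {z z' : Fin m × Jx K → ℤ} (hz : z ≠ 0) (u : (𝓞 K)ˣ)
    (h : vec z' = (u : 𝓞 K) • vec z) : el (ic z') = el (ic z) + lu u := by
  funext w
  have h1 : w ((u : 𝓞 K) : K) ≠ 0 := (Units.pos_at_place u w).ne'
  show Real.log (sN w (ic z')) = Real.log (sN w (ic z)) + Real.log (w ((u : 𝓞 K) : K))
  rw [sN_unit w u h, Real.log_mul h1 (sN_int_pos w hz).ne', add_comm]

/-- sums over the fibres of a map -/
theorem sigma_fib {A P : Type} (π : A → P) (φ : A → ℝ) (a : P → ℝ) (hφ : ∀ z, 0 ≤ φ z)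
    (hfib : ∀ p, HasSum (fun z : {z : A // π z = p} => φ z.1) 1) (hs : Summable a) :
    HasSum (fun z : A => φ z * a (π z)) (∑' p, a p) := by
  have hs1 : Summable fun p : (Σ p : P, {z : A // π z = p}) => φ p.2.1 * |a p.1| := by
    rw [summable_sigma_of_nonneg]
    · constructor
      · intro p
        exact ((hfib p).summable).mul_right (|a p|)
      · have h1 : (fun p : P => ∑' z : {z : A // π z = p}, φ z.1 * |a p|) = fun p => |a p| := by
          funext p
          rw [tsum_mul_right, (hfib p).tsum_eq, one_mul]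
        simp only
        rw [h1]
        exact hs.abs
    · intro p
      exact mul_nonneg (hφ _) (abs_nonneg _)
  have hs2 : Summable fun p : (Σ p : P, {z : A // π z = p}) => φ p.2.1 * a p.1 := by
    refine Summable.of_norm_bounded hs1 fun p => ?_
    rw [norm_mul, Real.norm_of_nonneg (hφ _), Real.norm_eq_abs]
  have hs3 : ∑' p : (Σ p : P, {z : A // π z = p}), φ p.2.1 * a p.1 = ∑' p : P, a p := by
    rw [hs2.tsum_sigma]
    refine tsum_congr fun p => ?_
    simp only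
    rw [tsum_mul_right, (hfib p).tsum_eq, one_mul]
  have hs4 : HasSum (fun p : (Σ p : P, {z : A // π z = p}) => φ p.2.1 * a p.1)
      (∑' p : P, a p) := by
    rw [← hs3]
    exact hs2.hasSum
  refine ((Equiv.sigmaFiberEquiv π).hasSum_iff).1 ?_
  refine hs4.congr_fun fun p => ?_
  obtain ⟨p, z, rfl⟩ := p
  rfl

open Classical in
/-- **Sums over the points of projective space.** -/
theorem orbit_sum {Φ : (InfinitePlace K → ℝ) → ℝ} (hΦ0 : ∀ t, 0 ≤ Φ t)
    (hΦ : ∀ t, HasSum (fun u : (𝓞 K)ˣ => Φ (t + lu u)) 1) (a : (Fin m → K) → ℝ)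
    (ha : ∀ (t : K) (x : Fin m → K), t ≠ 0 → x ≠ 0 → a (t • x) = a x)
    (hfin : Summable fun P : Projectivization K (Fin m → K) => a P.rep) :
    HasSum (fun z : Fin m × Jx K → ℤ => if ∃ c : ClassGroup (𝓞 K), z ∈ Vc c then
      Φ (el (ic z)) * a (kv (vec z)) else 0)
      (∑' P : Projectivization K (Fin m → K), a P.rep) := by
  set W : Set (Fin m × Jx K → ℤ) := {z | ∃ c : ClassGroup (𝓞 K), z ∈ Vc c} with hW
  have hWne : ∀ z : W, vec (z : Fin m × Jx K → ℤ) ≠ 0 := by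
    rintro ⟨z, c, hz⟩
    exact vec_ne_zero.2 (ne_zero_of_mem hz)
  set π : W → Projectivization K (Fin m → K) := fun z =>
    Projectivization.mk K (kv (vec (z : Fin m × Jx K → ℤ))) (kv_ne (hWne z)) with hπ
  have haπ : ∀ z : W, a (kv (vec (z : Fin m × Jx K → ℤ))) = a (π z).rep := by
    intro z
    obtain ⟨t, ht⟩ := (Projectivization.mk_eq_mk_iff' K _ _ (kv_ne (hWne z))
      (π z).rep_nonzero).1 ((π z).mk_rep).symm
    have ht0 : t ≠ 0 := by
      rintro rfl
      rw [zero_smul] at ht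
      exact kv_ne (hWne z) ht.symm
    rw [← ht, ha t _ ht0 (π z).rep_nonzero]
  -- the fibres
  have hfib : ∀ P : Projectivization K (Fin m → K),
      HasSum (fun z : {z : W // π z = P} => Φ (el (ic (z.1 : Fin m × Jx K → ℤ)))) 1 := by
    intro P
    obtain ⟨c, z₀, t, hz₀, ht, hk⟩ := exists_prim P.rep P.rep_nonzero
    have hz₀W : z₀ ∈ W := ⟨c, hz₀⟩
    have hz₀0 := ne_zero_of_mem hz₀
    have hP : π ⟨z₀, hz₀W⟩ = P := by
      rw [← P.mk_rep]
      exact (Projectivization.mk_eq_mk_iff' K _ _ _ _).2 ⟨t, hk.symm⟩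
    have hex : ∀ u : (𝓞 K)ˣ, ∃ z : Fin m × Jx K → ℤ, vec z = (u : 𝓞 K) • vec z₀ := fun u =>
      vec_surj _
    choose Z hZ using hex
    have hZW : ∀ u, Z u ∈ W := fun u => ⟨c, unit_mem hz₀ u (hZ u)⟩
    have hZπ : ∀ u, π ⟨Z u, hZW u⟩ = P := by
      intro u
      rw [← hP]
      refine (Projectivization.mk_eq_mk_iff' K _ _ _ _).2 ⟨((u : 𝓞 K) : K), ?_⟩
      funext i
      show ((u : 𝓞 K) : K) * (vec z₀ i : K) = (vec (Z u) i : K)
      rw [hZ u]
      exact (map_mul (algebraMap (𝓞 K) K) _ _).symm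
    set φ : (𝓞 K)ˣ → {z : W // π z = P} := fun u => ⟨⟨Z u, hZW u⟩, hZπ u⟩ with hφ
    have hφb : Function.Bijective φ := by
      constructor
      · intro u u' h
        have h1 : Z u = Z u' := congrArg (fun z : {z : W // π z = P} => (z.1 : Fin m × Jx K → ℤ)) h
        have h2 : (u : 𝓞 K) • vec z₀ = (u' : 𝓞 K) • vec z₀ := by rw [← hZ, ← hZ, h1]
        obtain ⟨i, hi⟩ := Function.ne_iff.1 (vec_ne_zero.2 hz₀0)
        have h3 : (u : 𝓞 K) * vec z₀ i = (u' : 𝓞 K) * vec z₀ i := congrFun h2 i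
        exact Units.ext (mul_right_cancel₀ hi h3)
      · rintro ⟨⟨z, c', hz⟩, hzP⟩
        rw [← hP] at hzP
        obtain ⟨s, hs⟩ := (Projectivization.mk_eq_mk_iff' K _ _ _ _).1 hzP
        obtain ⟨-, u, hu⟩ := prim_unique hz₀ hz hs.symm
        refine ⟨u, ?_⟩
        apply Subtype.ext
        apply Subtype.ext
        exact vec_inj ((hZ u).trans hu.symm)
    have h1 := hΦ (el (ic z₀))
    refine ((Equiv.ofBijective φ hφb).hasSum_iff).1 ?_
    refine h1.congr_fun fun u => ?_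
    show Φ (el (ic (Z u))) = _
    rw [el_unit hz₀0 u (hZ u)]
  have hs5 : HasSum (fun z : W => Φ (el (ic (z : Fin m × Jx K → ℤ))) *
      a (kv (vec (z : Fin m × Jx K → ℤ)))) (∑' P : Projectivization K (Fin m → K), a P.rep) := by
    have h1 := sigma_fib π (fun z : W => Φ (el (ic (z : Fin m × Jx K → ℤ))))
      (fun P : Projectivization K (Fin m → K) => a P.rep) (fun z => hΦ0 _) hfib hfin
    refine h1.congr_fun fun z => ?_
    rw [haπ]
  have hs6 := (hasSum_subtype_iff_indicator (s := W) (f := fun z => Φ (el (ic z)) *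
    a (kv (vec z)))).1 hs5
  refine hs6.congr_fun fun z => ?_
  rw [Set.indicator_apply]
  rfl

end

end Pool.Agent.N906.EQ
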