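import Pool.Agent.N906.EQ.Law
import Pool.Agent.R365.SH.Final
import Pool.Agent.R365.QP.Ht

/-!
# The tail for the projective line
-/

set_option autoImplicit false
set_option linter.unusedSectionVars false

namespace Pool.Agent.N906.EQ

open NumberField NumberField.InfinitePlace IsDedekindDomain Module Finset Filter Topology
  Pool.Agent.N852 Pool.Agent.H691R3 Pool.Agent.TH876.Loc MeasureTheory

section

variable {K : Type} [Field K] [NumberField K] {q : ℕ}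

/-- the linear form vanishing at a point -/
def Lf (α : Fin q → Fin 2 → K) (l : Fin q) : Fin 2 → K := ![α l 1, -α l 0]

/-- the pairs of coordinates -/
def pr (α : Fin q → Fin 2 → K) (l : Fin q) : K × K := (α l 0, α l 1)

lemma lfK_Lf (α : Fin q → Fin 2 → K) (l : Fin q) (x : Fin 2 → K) :
    lfK (Lf α l) x = x 0 * α l 1 - x 1 * α l 0 := by
  unfold lfK Lf
  simp [Fin.sum_univ_two]
  ring

lemma fN_two (v : Pr K) (x : Fin 2 → K) : fN v x = max (fv v (x 0)) (fv v (x 1)) := by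
  unfold fN
  rw [norm_eq_iSup _ fun i => (fv v).nonneg _, Pool.Agent.R365.QP.iSup_two]

lemma lamF_Lf (v : Pr K) (α : Fin q → Fin 2 → K) (l : Fin q) (x : Fin 2 → K) :
    lamF v (Lf α l) x = lamA (fv v) (x 0, x 1) (pr α l) := by
  unfold lamF lamA
  rw [lfK_Lf, fN_two, fN_two]
  have h1 : Lf α l 0 = α l 1 := rfl
  have h2 : Lf α l 1 = -α l 0 := rfl
  rw [h1, h2, (fv v).map_neg, max_comm (fv v (α l 1))]
  rfl

lemma NTd_smul (T : Set (Pr K)) (L : Fin q → Fin 2 → K) (x : Fin 2 → K) {t : K} (ht : t ≠ 0) :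
    NTd T L (t • x) = NTd T L x := by
  unfold NTd
  simp only [lamF_smul _ _ _ ht]

lemma NTd_aff (T : Set (Pr K)) (α : Fin q → Fin 2 → K) (z : K) :
    NTd T (Lf α) ![z, 1] = NTc T (pr α) z := by
  unfold NTd NTc
  simp only [lamF_Lf]
  rfl

lemma rep_aff {x : Fin 2 → K} (h : x 1 ≠ 0) : x = x 1 • ![x 0 / x 1, 1] := by
  funext i
  fin_cases i
  · show x 0 = x 1 * (x 0 / x 1)
    rw [mul_div_cancel₀ _ h]
  · show x 1 = x 1 * 1
    rw [mul_one]

lemma NTd_rep (T : Set (Pr K)) (α : Fin q → Fin 2 → K) {x : Fin 2 → K} (h : x 1 ≠ 0) :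
    NTd T (Lf α) x = NTc T (pr α) (x 0 / x 1) := by
  rw [← NTd_aff, ← NTd_smul T (Lf α) ![x 0 / x 1, 1] h, ← rep_aff h]

lemma ht_rep {x : Fin 2 → K} (h : x 1 ≠ 0) : Height.logHeight x = hr (aff (x 0 / x 1)) := by
  rw [Pool.Agent.R365.QP.hr_aff]
  conv_lhs => rw [rep_aff h]
  exact Height.logHeight_smul_eq_logHeight _ h

lemma off_rep {α : Fin q → Fin 2 → K} {x : Fin 2 → K} (h : x 1 ≠ 0)
    (hx : ∀ l, lfK (Lf α l) x ≠ 0) : Off (pr α) (x 0 / x 1) := by
  intro l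
  have h1 := hx l
  rw [lfK_Lf] at h1
  show x 0 / x 1 * α l 1 - 1 * α l 0 ≠ 0
  intro h2
  apply h1
  have h3 : x 0 = x 1 * (x 0 / x 1) := (mul_div_cancel₀ _ h).symm
  linear_combination h3 * α l 1 + x 1 * h2

/-- the points with a small counting function and a large error -/
def Sx (T : Set (Pr K)) (α : Fin q → Fin 2 → K) (Λ t : ℝ) : Set (Om (Lf α)) :=
  {P | NTd T (Lf α) P.1.rep ≤ Λ ∧ t ≤ q * Height.logHeight P.1.rep - NTd T (Lf α) P.1.rep}

lemma rep_eq_of {P P' : Projectivization K (Fin 2 → K)} (h : P.rep 1 ≠ 0) (h' : P'.rep 1 ≠ 0)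
    (e : P.rep 0 / P.rep 1 = P'.rep 0 / P'.rep 1) : P = P' := by
  rw [← P.mk_rep, ← P'.mk_rep]
  refine (Projectivization.mk_eq_mk_iff' K _ _ _ _).2 ⟨P.rep 1 / P'.rep 1, ?_⟩
  funext i
  fin_cases i
  · show P.rep 1 / P'.rep 1 * P'.rep 0 = P.rep 0
    have h1 : P.rep 0 = P.rep 1 * (P'.rep 0 / P'.rep 1) := by
      rw [← e, mul_div_cancel₀ _ h]
    rw [h1]
    ring
  · show P.rep 1 / P'.rep 1 * P'.rep 1 = P.rep 1
    rw [div_mul_cancel₀ _ h']

lemma rep_inf {P P' : Projectivization K (Fin 2 → K)} (h : P.rep 1 = 0) (h' : P'.rep 1 = 0) :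
    P = P' := by
  have h0 : P.rep 0 ≠ 0 := by
    intro h1
    apply P.rep_nonzero
    funext i
    fin_cases i
    · exact h1
    · exact h
  have h0' : P'.rep 0 ≠ 0 := by
    intro h1
    apply P'.rep_nonzero
    funext i
    fin_cases i
    · exact h1
    · exact h'
  rw [← P.mk_rep, ← P'.mk_rep]
  refine (Projectivization.mk_eq_mk_iff' K _ _ _ _).2 ⟨P.rep 0 / P'.rep 0, ?_⟩
  funext i
  fin_cases i
  · show P.rep 0 / P'.rep 0 * P'.rep 0 = P.rep 0
    rw [div_mul_cancel₀ _ h0']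
  · show P.rep 0 / P'.rep 0 * P'.rep 1 = P.rep 1
    rw [h, h', mul_zero]

theorem sx_bound (hq : 3 ≤ q) (T : Set (Pr K)) (hT : T.Finite) (α : Fin q → Fin 2 → K)
    (hα : ∀ i j, i ≠ j → α i 0 * α j 1 - α i 1 * α j 0 ≠ 0) (c : ℝ) (hc0 : 0 ≤ c)
    (hc1 : c < 1 - 2 / q) : ∃ C ν : ℝ, 0 < C ∧ 0 < ν ∧ ∀ Λ t : ℝ, 0 ≤ Λ →
      (Sx T α Λ t).Finite ∧ ((Sx T α Λ t).ncard : ℝ) ≤
        C * (Real.exp (2 / q * Λ - c * t) + Real.exp ((2 / q - ν) * Λ)) + 1 := by
  classical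
  have hα0 : ∀ l, pr α l ≠ 0 := by
    intro l h
    have h1 : α l 0 = 0 := congrArg Prod.fst h
    have h2 : α l 1 = 0 := congrArg Prod.snd h
    obtain ⟨j, hj⟩ : ∃ j : Fin q, j ≠ l := by
      have : 1 < Fintype.card (Fin q) := by rw [Fintype.card_fin]; omega
      exact Fintype.exists_ne_of_one_lt_card this l
    exact hα j l hj (by rw [h1, h2]; ring)
  obtain ⟨C, ν, hC, hν, h⟩ := Pool.Agent.R365.SH.all_upper hq T hT (pr α) hα0 hα c hc0 hc1
  refine ⟨C, ν, hC, hν, fun Λ t hΛ => ?_⟩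
  have key : ∀ F : Finset (Om (Lf α)), (F : Set (Om (Lf α))) ⊆ Sx T α Λ t →
      (F.card : ℝ) ≤ C * (Real.exp (2 / q * Λ - c * t) + Real.exp ((2 / q - ν) * Λ)) + 1 := by
    intro F hF
    set F1 := F.filter (fun P => P.1.rep 1 ≠ 0) with hF1
    set F2 := F.filter (fun P => ¬ P.1.rep 1 ≠ 0) with hF2
    have h1 : (F.card : ℝ) = F1.card + F2.card := by
      have := Finset.card_filter_add_card_filter_not (s := F) (fun P => P.1.rep 1 ≠ 0)
      exact_mod_cast this.symm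
    have h2 : (F2.card : ℝ) ≤ 1 := by
      have h3 : F2.card ≤ 1 := by
        rw [Finset.card_le_one]
        intro P hP P' hP'
        have g1 := not_not.1 (mem_filter.1 hP).2
        have g2 := not_not.1 (mem_filter.1 hP').2
        exact Subtype.ext (rep_inf g1 g2)
      exact_mod_cast h3
    have h3 : (F1.card : ℝ) ≤ C * (Real.exp (2 / q * Λ - c * t) + Real.exp ((2 / q - ν) * Λ)) := by
      rw [← Finset.card_image_of_injOn (s := F1) (f := fun P => P.1.rep 0 / P.1.rep 1)]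
      · refine h Λ t hΛ _ fun x hx => ?_
        obtain ⟨P, hP, rfl⟩ := mem_image.1 hx
        obtain ⟨g1, g2⟩ := mem_filter.1 hP
        obtain ⟨g3, g4⟩ := hF (mem_coe.2 g1)
        rw [NTd_rep T α g2] at g3 g4
        rw [ht_rep g2] at g4
        exact ⟨off_rep g2 P.2, g3, g4⟩
      · intro P hP P' hP' e
        have g1 := (mem_filter.1 (mem_coe.1 hP)).2
        have g2 := (mem_filter.1 (mem_coe.1 hP')).2
        exact Subtype.ext (rep_eq_of g1 g2 e)
    linarith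
  have hfin : (Sx T α Λ t).Finite := by
    by_contra hinf
    obtain ⟨n, hn⟩ := exists_nat_gt
      (C * (Real.exp (2 / q * Λ - c * t) + Real.exp ((2 / q - ν) * Λ)) + 1)
    obtain ⟨F, hF, hcard⟩ := Set.Infinite.exists_subset_card_eq hinf n
    have := key F hF
    rw [hcard] at this
    linarith
  refine ⟨hfin, ?_⟩
  rw [Set.ncard_eq_toFinset_card _ hfin]
  exact key _ (by rw [Set.Finite.coe_toFinset])

/-- the error, normalised -/
noncomputable def Er (T : Set (Pr K)) (α : Fin q → Fin 2 → K) (P : Om (Lf α)) : ℝ :=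
  (q * Height.logHeight P.1.rep - NTd T (Lf α) P.1.rep) / (finrank ℚ K : ℝ)

lemma rn_eq (hq : 0 < q) (T : Set (Pr K)) (α : Fin q → Fin 2 → K) (P : Om (Lf α)) :
    rn (rho (Lf α)) (Er T α) q P =
      Real.exp (NTd T (Lf α) P.1.rep / ((finrank ℚ K : ℝ) * q)) := by
  have hd : (finrank ℚ K : ℝ) ≠ 0 := by exact_mod_cast (finrank_pos (R := ℚ) (M := K)).ne'
  have hq0 : (q : ℝ) ≠ 0 := by exact_mod_cast hq.ne'
  unfold rn rho Er
  rw [Real.rpow_def_of_pos (Height.mulHeight_pos _), ← Height.logHeight_eq_log_mulHeight,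
    ← Real.exp_add]
  congr 1
  field_simp
  ring

lemma rn_le_iff (hq : 0 < q) (T : Set (Pr K)) (α : Fin q → Fin 2 → K) (P : Om (Lf α)) {B : ℝ}
    (hB : 0 < B) : rn (rho (Lf α)) (Er T α) q P ≤ B ↔
      NTd T (Lf α) P.1.rep ≤ (finrank ℚ K : ℝ) * q * Real.log B := by
  have hd : (0 : ℝ) < finrank ℚ K := by exact_mod_cast (finrank_pos (R := ℚ) (M := K))
  have hq0 : (0 : ℝ) < q := by exact_mod_cast hq
  rw [rn_eq hq, ← Real.le_log_iff_exp_le hB, div_le_iff₀ (by positivity), mul_comm (Real.log B)]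

theorem p1_bound (hq : 3 ≤ q) (T : Set (Pr K)) (hT : T.Finite) (α : Fin q → Fin 2 → K)
    (hα : ∀ i j, i ≠ j → α i 0 * α j 1 - α i 1 * α j 0 ≠ 0) (c : ℝ) (hc0 : 0 ≤ c)
    (hc1 : c < 1 - 2 / q) : ∃ C ν : ℝ, 0 < C ∧ 0 < ν ∧ ∀ B t : ℝ, 1 ≤ B →
      {P | rn (rho (Lf α)) (Er T α) q P ≤ B ∧ t ≤ Er T α P}.Finite ∧
      ({P | rn (rho (Lf α)) (Er T α) q P ≤ B ∧ t ≤ Er T α P}.ncard : ℝ) ≤
        C * (Real.exp (-(c * finrank ℚ K * t)) + B ^ (-ν)) *
          B ^ ((2 * finrank ℚ K : ℕ) : ℝ) + 1 := by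
  have hd : (0 : ℝ) < finrank ℚ K := by exact_mod_cast (finrank_pos (R := ℚ) (M := K))
  have hq0 : (0 : ℝ) < q := by
    have : 0 < q := by omega
    exact_mod_cast this
  obtain ⟨C, ν, hC, hν, h⟩ := sx_bound hq T hT α hα c hc0 hc1
  refine ⟨C, ν * (finrank ℚ K * q), hC, by positivity, fun B t hB => ?_⟩
  have hB0 : 0 < B := by linarith
  have hset : {P | rn (rho (Lf α)) (Er T α) q P ≤ B ∧ t ≤ Er T α P} =
      Sx T α ((finrank ℚ K : ℝ) * q * Real.log B) (finrank ℚ K * t) := by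
    ext P
    refine and_congr (rn_le_iff (by omega) T α P hB0) ?_
    unfold Er
    rw [le_div_iff₀ hd, mul_comm]
  rw [hset]
  obtain ⟨h1, h2⟩ := h ((finrank ℚ K : ℝ) * q * Real.log B) (finrank ℚ K * t)
    (mul_nonneg (by positivity) (Real.log_nonneg hB))
  refine ⟨h1, h2.trans (le_of_eq ?_)⟩
  congr 1
  rw [mul_assoc C, add_mul]
  congr 2
  · rw [Real.rpow_def_of_pos hB0, ← Real.exp_add]
    congr 1
    push_cast
    field_simp
    ring
  · rw [← Real.rpow_add hB0, Real.rpow_def_of_pos hB0]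
    congr 1
    push_cast
    field_simp
    ring

/-- the tail -/
theorem p1_tail (hq : 3 ≤ q) (T : Set (Pr K)) (hT : T.Finite) (α : Fin q → Fin 2 → K)
    (hα : ∀ i j, i ≠ j → α i 0 * α j 1 - α i 1 * α j 0 ≠ 0) :
    ∃ c₀ : ℝ, Tail (rn (rho (Lf α)) (Er T α) q) (Er T α) ((2 * finrank ℚ K : ℕ) : ℝ) c₀ := by
  have hd0 : 0 < finrank ℚ K := finrank_pos (R := ℚ) (M := K)
  have hd : (0 : ℝ) < finrank ℚ K := by exact_mod_cast hd0
  have hqR : (3 : ℝ) ≤ q := by exact_mod_cast hq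
  have hq0 : (0 : ℝ) < q := by linarith
  set c₀ : ℝ := (∑ _l : Fin q, ∑ w : InfinitePlace K, (w.mult : ℝ) * Real.log ((2 : ℕ) : ℝ) +
    ∑ l, Height.logHeight (Lf α l)) / (finrank ℚ K : ℝ) with hc₀
  have hlow : ∀ P, -c₀ ≤ Er T α P := by
    intro P
    have h1 := DE_ge two_pos T (Lf α) P.2
    rw [DE_eq T (Lf α) P.2] at h1
    unfold Er
    rw [hc₀, ← neg_div]
    refine div_le_div_of_nonneg_right ?_ hd.le
    linarith
  have h2q : 0 < 1 - 2 / (q : ℝ) := by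
    have : 2 / (q : ℝ) < 1 := by rw [div_lt_one hq0]; linarith
    linarith
  obtain ⟨C, ν, hC, hν, h⟩ := p1_bound hq T hT α hα ((1 - 2 / (q : ℝ)) / 2) (by linarith)
    (by linarith)
  set c : ℝ := (1 - 2 / (q : ℝ)) / 2 with hc
  have hcpos : 0 < c := by linarith
  refine ⟨c₀, ?_, hlow, ?_⟩
  · intro B
    refine ((h (max 1 B) (-c₀) (le_max_left _ _)).1).subset fun P hP => ?_
    exact ⟨le_trans hP (le_max_right _ _), hlow P⟩
  · intro ε hε
    -- choice of `t`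
    have ht1 : Tendsto (fun t : ℝ => C * Real.exp (-(c * finrank ℚ K * t))) atTop (𝓝 (C * 0)) := by
      refine Tendsto.const_mul C (Real.tendsto_exp_neg_atTop_nhds_zero.comp ?_)
      exact tendsto_id.const_mul_atTop (by positivity)
    rw [mul_zero] at ht1
    obtain ⟨t, ht⟩ := (ht1.eventually (gt_mem_nhds (show (0 : ℝ) < ε / 3 by positivity))).exists
    refine ⟨t, ?_⟩
    have hB1 : Tendsto (fun B : ℝ => C * B ^ (-ν)) atTop (𝓝 (C * 0)) :=
      (tendsto_rpow_neg_atTop hν).const_mul C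
    rw [mul_zero] at hB1
    have hB2 : Tendsto (fun B : ℝ => ε / 3 * B ^ ((2 * finrank ℚ K : ℕ) : ℝ)) atTop atTop :=
      (tendsto_rpow_atTop (by positivity)).const_mul_atTop (by positivity)
    filter_upwards [hB1.eventually (gt_mem_nhds (show (0 : ℝ) < ε / 3 by positivity)),
      hB2.eventually_ge_atTop 1, eventually_ge_atTop 1] with B g1 g2 g3
    refine (h B t g3).2.trans ?_
    have g4 : 0 ≤ B ^ ((2 * finrank ℚ K : ℕ) : ℝ) := Real.rpow_nonneg (by linarith) _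
    have g5 : C * (Real.exp (-(c * finrank ℚ K * t)) + B ^ (-ν)) ≤ ε / 3 + ε / 3 := by
      rw [mul_add]
      exact add_le_add ht.le g1.le
    have g6 := mul_le_mul_of_nonneg_right g5 g4
    linarith

end

end Pool.Agent.N906.EQ
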