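import Pool.Agent.N906.EQ.Low
import Pool.Agent.N906.EQ.Mom

/-!
# The limit law on the projective line
-/

set_option autoImplicit false
set_option linter.unusedSectionVars false

namespace Pool.Agent.N906.EQ

open NumberField NumberField.InfinitePlace IsDedekindDomain Module Finset Filter Topology
  Pool.Agent.N852 Pool.Agent.H691R3 Pool.Agent.TH876.Loc MeasureTheory

section abstract

variable {Ω : Type} {ρ E : Ω → ℝ}

/-- sums of functions with values in `[0, 1]` which vanish below `t` -/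
lemma ss_le_ncard {f : ℝ → ℝ} (h0 : ∀ s, 0 ≤ f s) (h1 : ∀ s, f s ≤ 1) {t : ℝ}
    (ht : ∀ s, s < t → f s = 0) {B : ℝ} (hfin : {P | ρ P ≤ B ∧ t ≤ E P}.Finite) :
    SS ρ E f B ≤ ({P | ρ P ≤ B ∧ t ≤ E P}.ncard : ℝ) := by
  classical
  unfold SS
  rw [tsum_eq_sum (s := hfin.toFinset), Set.ncard_eq_toFinset_card _ hfin]
  · calc ∑ P ∈ hfin.toFinset, (if ρ P ≤ B then f (E P) else 0) ≤ ∑ _P ∈ hfin.toFinset, (1 : ℝ) := by
          refine sum_le_sum fun P _ => ?_
          split_ifs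
          · exact h1 _
          · exact zero_le_one
      _ = _ := by rw [sum_const, nsmul_eq_mul, mul_one]
  · intro P hP
    by_cases g1 : ρ P ≤ B
    · rw [if_pos g1]
      apply ht
      by_contra g2
      exact hP (hfin.mem_toFinset.2 ⟨g1, not_lt.1 g2⟩)
    · rw [if_neg g1]

lemma card_le_ss (hfin : ∀ B : ℝ, {P | ρ P ≤ B}.Finite) {f : ℝ → ℝ} (h0 : ∀ s, 0 ≤ f s)
    {B : ℝ} {G : Finset Ω} (hG : ∀ P ∈ G, ρ P ≤ B ∧ 1 ≤ f (E P)) :
    (G.card : ℝ) ≤ SS ρ E f B := by
  classical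
  unfold SS
  have h1 : (G.card : ℝ) ≤ ∑ P ∈ G, (if ρ P ≤ B then f (E P) else 0) := by
    calc (G.card : ℝ) = ∑ _P ∈ G, (1 : ℝ) := by rw [sum_const, nsmul_eq_mul, mul_one]
      _ ≤ _ := sum_le_sum fun P hP => by rw [if_pos (hG P hP).1]; exact (hG P hP).2
  refine h1.trans ((ss_summable hfin f B).sum_le_tsum _ fun P _ => ?_)
  split_ifs
  · exact h0 _
  · exact le_rfl

/-- the support of the limit is bounded below -/
lemma supp_low {D c₀ : ℝ} (hlow : ∀ P, -c₀ ≤ E P) {μ : Measure ℝ} [IsFiniteMeasure μ]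
    (hμ : ∀ f : ℝ → ℝ, Continuous f → (∃ M : ℝ, ∀ x, |f x| ≤ M) →
      Tendsto (fun B : ℝ => SS ρ E f B / B ^ D) atTop (𝓝 (∫ x, f x ∂μ))) :
    μ (Set.Iio (-c₀)) = 0 := by
  have hc := rmp_continuous
  have hf : Continuous fun s : ℝ => rmp (-c₀ - s) := by fun_prop
  have hb : ∀ s : ℝ, |rmp (-c₀ - s)| ≤ 1 := fun s => by
    rw [abs_of_nonneg (rmp_nonneg _)]
    exact rmp_le_one _
  have h1 := hμ _ hf ⟨1, hb⟩
  have h2 : ∀ B, SS ρ E (fun s => rmp (-c₀ - s)) B = 0 := by
    intro B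
    classical
    unfold SS
    rw [show (fun P => if ρ P ≤ B then (fun s => rmp (-c₀ - s)) (E P) else 0) = fun _ => 0 from ?_]
    · exact tsum_zero
    · funext P
      show (if ρ P ≤ B then rmp (-c₀ - E P) else 0) = 0
      rw [rmp_zero (by linarith [hlow P])]
      split_ifs <;> rfl
  simp only [h2, zero_div] at h1
  have h3 : ∫ x, rmp (-c₀ - x) ∂μ = 0 := tendsto_nhds_unique h1 tendsto_const_nhds
  have hi : Integrable (fun s => rmp (-c₀ - s)) μ := Integrable.of_bound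
    hf.aestronglyMeasurable 1 (Eventually.of_forall fun s => by rw [Real.norm_eq_abs]; exact hb s)
  rw [integral_eq_zero_iff_of_nonneg (fun s => rmp_nonneg _) hi] at h3
  refine measure_mono_null (fun s hs => ?_) (ae_iff.1 h3)
  rw [Set.mem_Iio] at hs
  show ¬ rmp (-c₀ - s) = 0
  unfold rmp
  have : 0 < min 1 (-c₀ - s) := lt_min one_pos (by linarith)
  rw [max_eq_right this.le]
  exact this.ne'

/-- the support of the limit is unbounded -/
lemma supp_high {D : ℝ} (hfin : ∀ B : ℝ, {P | ρ P ≤ B}.Finite) {μ : Measure ℝ} [IsFiniteMeasure μ]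
    (hμ : ∀ f : ℝ → ℝ, Continuous f → (∃ M : ℝ, ∀ x, |f x| ≤ M) →
      Tendsto (fun B : ℝ => SS ρ E f B / B ^ D) atTop (𝓝 (∫ x, f x ∂μ))) (t : ℝ)
    (h : ∃ c B₀ : ℝ, 0 < c ∧ ∀ B : ℝ, B₀ ≤ B → ∃ G : Finset Ω,
      (∀ P ∈ G, ρ P ≤ B ∧ t + 1 ≤ E P) ∧ c * B ^ D ≤ G.card) : 0 < μ (Set.Ioi t) := by
  obtain ⟨c, B₀, hc, h⟩ := h
  have hcc := rmp_continuous
  have hf : Continuous fun s : ℝ => rmp (s - t) := by fun_prop
  have hb : ∀ s : ℝ, |rmp (s - t)| ≤ 1 := fun s => by
    rw [abs_of_nonneg (rmp_nonneg _)]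
    exact rmp_le_one _
  have h1 := hμ _ hf ⟨1, hb⟩
  have h2 : c ≤ ∫ x, rmp (x - t) ∂μ := by
    refine ge_of_tendsto h1 ?_
    filter_upwards [eventually_ge_atTop B₀, eventually_gt_atTop 0] with B hB hB0
    rw [le_div_iff₀ (Real.rpow_pos_of_pos hB0 D)]
    obtain ⟨G, hG, hcard⟩ := h B hB
    refine hcard.trans (card_le_ss hfin (fun s => rmp_nonneg _) fun P hP => ⟨(hG P hP).1, ?_⟩)
    show 1 ≤ rmp (E P - t)
    rw [rmp_one (by linarith [(hG P hP).2])]
  rw [pos_iff_ne_zero]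
  intro h3
  have h4 : (fun x => rmp (x - t)) =ᵐ[μ] fun _ => (0 : ℝ) := by
    rw [Filter.EventuallyEq, ae_iff]
    refine measure_mono_null (fun s hs => ?_) h3
    rw [Set.mem_Ioi]
    by_contra h5
    exact hs (rmp_zero (by linarith [not_lt.1 h5]))
  rw [integral_congr_ae h4, integral_zero] at h2
  linarith

end abstract

section

variable {K : Type} [Field K] [NumberField K] {q : ℕ}

lemma NTd_nonneg (T : Set (Pr K)) {m : ℕ} (L : Fin q → Fin m → K) {x : Fin m → K}
    (h : ∀ l, lfK (L l) x ≠ 0) : 0 ≤ NTd T L x := by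
  unfold NTd
  refine finsum_nonneg fun v => finsum_nonneg fun _ => sum_nonneg fun l _ => ?_
  exact le_min (lamF_nonneg' v (h l)) (Real.log_nonneg (Nv_gt v).le)

lemma pow_le_exp (k : ℕ) (s : ℝ) : (1 + |s|) ^ k ≤
    2 ^ k * (k.factorial * Real.exp (1 / 2)) * (Real.exp (1 / 2 * s) + Real.exp (-(1 / 2) * s)) := by
  have h1 := Real.pow_div_factorial_le_exp ((1 + |s|) / 2) (by positivity) k
  rw [div_le_iff₀ (by positivity)] at h1
  have h2 : (1 + |s|) ^ k = 2 ^ k * ((1 + |s|) / 2) ^ k := by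
    rw [← mul_pow]
    congr 1
    ring
  rw [h2, mul_assoc]
  refine mul_le_mul_of_nonneg_left (h1.trans ?_) (by positivity)
  have h3 : Real.exp ((1 + |s|) / 2) = Real.exp (1 / 2) * Real.exp (|s| / 2) := by
    rw [← Real.exp_add]
    congr 1
    ring
  rw [h3]
  have h4 : Real.exp (|s| / 2) ≤ Real.exp (1 / 2 * s) + Real.exp (-(1 / 2) * s) := by
    rcases abs_cases s with ⟨h, _⟩ | ⟨h, _⟩
    · rw [h]
      have : Real.exp (s / 2) = Real.exp (1 / 2 * s) := by congr 1; ring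
      rw [this]
      linarith [Real.exp_pos (-(1 / 2) * s)]
    · rw [h]
      have : Real.exp (-s / 2) = Real.exp (-(1 / 2) * s) := by congr 1; ring
      rw [this]
      linarith [Real.exp_pos (1 / 2 * s)]
  calc Real.exp (1 / 2) * Real.exp (|s| / 2) * k.factorial =
      k.factorial * Real.exp (1 / 2) * Real.exp (|s| / 2) := by ring
    _ ≤ _ := mul_le_mul_of_nonneg_left h4 (by positivity)

/-- **The limit law on the line.** -/
theorem p1_law (hq : 3 ≤ q) (T : Set (Pr K)) (hT : T.Finite) (α : Fin q → Fin 2 → K)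
    (hα : ∀ i j, i ≠ j → α i 0 * α j 1 - α i 1 * α j 0 ≠ 0) :
    (∀ B : ℝ, {P | rho (Lf α) P ≤ B}.Finite) ∧
    (∀ B : ℝ, {P | rn (rho (Lf α)) (Er T α) q P ≤ B}.Finite) ∧
    ∃ μ : Measure ℝ, IsFiniteMeasure μ ∧ (∃ c₀ : ℝ, μ (Set.Iio (-c₀)) = 0) ∧
      (∀ t : ℝ, 0 < μ (Set.Ioi t)) ∧
      (∀ c : ℝ, c < finrank ℚ K → Integrable (fun s => Real.exp (c * s)) μ) ∧
      (∀ (f : ℝ → ℝ) (A : ℝ) (k : ℕ), Continuous f → (∀ s, |f s| ≤ A * (1 + |s|) ^ k) →
        Tendsto (fun B : ℝ => SS (rho (Lf α)) (Er T α) f B / B ^ ((2 * finrank ℚ K : ℕ) : ℝ)) atTop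
          (𝓝 (∫ s, f s ∂μ))) ∧
      (∀ f : ℝ → ℝ, Continuous f → (∃ M : ℝ, ∀ s, |f s| ≤ M) →
        Tendsto (fun B : ℝ => SS (rn (rho (Lf α)) (Er T α) q) (Er T α) f B /
            B ^ ((2 * finrank ℚ K : ℕ) : ℝ)) atTop
          (𝓝 (∫ s, f s * Real.exp (2 * finrank ℚ K / q * s) ∂μ))) := by
  classical
  have hd0 : 0 < finrank ℚ K := finrank_pos (R := ℚ) (M := K)
  have hd : (0 : ℝ) < finrank ℚ K := by exact_mod_cast hd0
  have hd1 : (1 : ℝ) ≤ finrank ℚ K := by exact_mod_cast hd0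
  have hqR : (3 : ℝ) ≤ q := by exact_mod_cast hq
  have hq0 : (0 : ℝ) < q := by linarith
  have h2q : 0 < 1 - 2 / (q : ℝ) := by
    have : 2 / (q : ℝ) < 1 := by rw [div_lt_one hq0]; linarith
    linarith
  have hL : ∀ l, Lf α l ≠ 0 := by
    intro l h
    have h1 : α l 1 = 0 := congrFun h 0
    have h2 : -α l 0 = 0 := congrFun h 1
    obtain ⟨j, hj⟩ : ∃ j : Fin q, j ≠ l := by
      have : 1 < Fintype.card (Fin q) := by rw [Fintype.card_fin]; omega
      exact Fintype.exists_ne_of_one_lt_card this l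
    exact hα j l hj (by rw [h1, neg_eq_zero.1 h2]; ring)
  obtain ⟨c₀, hTail⟩ := p1_tail hq T hT α hα
  have hfin := rn_fin (rho_pos (Lf α)) hq0 hTail
  have hE : ∀ P : Om (Lf α), Er T α P = (finrank ℚ K : ℝ)⁻¹ * DE (gT T) (Lf α) P.1.rep +
      -((∑ l, Height.logHeight (Lf α l)) / (finrank ℚ K : ℝ)) := by
    intro P
    rw [DE_eq T (Lf α) P.2]
    unfold Er
    field_simp
    ring
  obtain ⟨μ, hμf, hμi, hμ1, hμ2⟩ := law (le_refl 2) (Lf α) hL (gT T) hT.toFinset
    (fun v hv => gT_zero fun h => hv (hT.mem_toFinset.2 h)) (inv_pos.2 hd) (Er T α) hE hq0 hTail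
  have hrate : ∀ s : ℝ, ((2 * finrank ℚ K : ℕ) : ℝ) * s / q = 2 * finrank ℚ K / q * s := by
    intro s
    push_cast
    ring
  simp only [hrate] at hμi hμ2
  have hsupp : μ (Set.Iio (-c₀)) = 0 := supp_low hTail.low hμ1
  have hae : ∀ᵐ s ∂μ, -c₀ ≤ s := by
    rw [ae_iff]
    refine measure_mono_null (fun s hs => ?_) hsupp
    exact not_le.1 hs
  -- exponential moments
  have hexp0 : ∀ b : ℝ, 0 ≤ b → b < finrank ℚ K → Integrable (fun s => Real.exp (b * s)) μ := by
    intro b hb0 hb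
    obtain ⟨c, hc1, hc2⟩ : ∃ c : ℝ, max 0 (b / finrank ℚ K - 2 / q) < c ∧ c < 1 - 2 / q := by
      apply _root_.exists_between
      refine max_lt h2q ?_
      have : b / finrank ℚ K < 1 := by rwa [div_lt_one hd]
      linarith
    have hc0 : 0 < c := (le_max_left _ _).trans_lt hc1
    have hc3 : b < 2 * finrank ℚ K / q + c * finrank ℚ K := by
      have h1 := (le_max_right _ _).trans_lt hc1
      rw [sub_lt_iff_lt_add, div_lt_iff₀ hd] at h1
      calc b < (c + 2 / q) * finrank ℚ K := h1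
        _ = _ := by ring
    obtain ⟨C, ν, hC, hν, hb⟩ := p1_bound hq T hT α hα c hc0.le hc2
    refine exp_int (κ := 2 * finrank ℚ K / q) (a := c * finrank ℚ K) (C := C) (by positivity)
      (by positivity) hC.le hμi (fun n => ?_) hb0 hc3
    have hcc := rmp_continuous
    have h1 := hμ2 (fun s => rmp (s - n)) (by fun_prop) ⟨1, fun s => by
      rw [abs_of_nonneg (rmp_nonneg _)]
      exact rmp_le_one _⟩
    have h2 : Tendsto (fun B : ℝ => C * (Real.exp (-(c * finrank ℚ K * n)) + B ^ (-ν)) +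
        1 / B ^ ((2 * finrank ℚ K : ℕ) : ℝ)) atTop
        (𝓝 (C * (Real.exp (-(c * finrank ℚ K * n)) + 0) + 0)) := by
      refine ((tendsto_const_nhds.add (tendsto_rpow_neg_atTop hν)).const_mul C).add ?_
      simp only [one_div]
      exact tendsto_inv_atTop_zero.comp (tendsto_rpow_atTop (by positivity))
    rw [add_zero, add_zero] at h2
    refine le_of_tendsto_of_tendsto h1 h2 ?_
    filter_upwards [eventually_ge_atTop 1] with B hB
    have hBD : 0 < B ^ ((2 * finrank ℚ K : ℕ) : ℝ) := Real.rpow_pos_of_pos (by linarith) _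
    obtain ⟨g1, g2⟩ := hb B n hB
    have h3 := ss_le_ncard (ρ := rn (rho (Lf α)) (Er T α) q) (E := Er T α)
      (f := fun s => rmp (s - n)) (fun s => rmp_nonneg _) (fun s => rmp_le_one _) (t := n)
      (fun s hs => rmp_zero (by linarith)) g1
    rw [div_le_iff₀ hBD]
    refine (h3.trans g2).trans (le_of_eq ?_)
    field_simp
  have hexp : ∀ b : ℝ, b < finrank ℚ K → Integrable (fun s => Real.exp (b * s)) μ := by
    intro b hb
    rcases le_or_gt 0 b with hb0 | hb0
    · exact hexp0 b hb0 hb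
    · refine Integrable.of_bound (by fun_prop) (Real.exp (-b * c₀)) ?_
      filter_upwards [hae] with s hs
      rw [Real.norm_of_nonneg (Real.exp_pos _).le]
      apply Real.exp_le_exp.2
      nlinarith
  refine ⟨hfin, hTail.fin, μ, hμf, ⟨c₀, hsupp⟩, fun t => ?_, hexp, ?_, hμ2⟩
  · exact supp_high hfin hμ1 t (p1_low hq T α hα (t + 1))
  · intro f A k hf hfA
    have hA : 0 ≤ A := by
      have := hfA 0
      rw [abs_zero, add_zero, one_pow, mul_one] at this
      exact (abs_nonneg _).trans this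
    obtain ⟨C, ν, hC, hν, hb⟩ := p1_bound hq T hT α hα ((1 - 2 / (q : ℝ)) / 2) (by linarith)
      (by linarith)
    set c : ℝ := (1 - 2 / (q : ℝ)) / 2 with hc
    have hc0 : 0 < c := by linarith
    have hWi : Integrable (fun s => A * (1 + |s|) ^ k) μ := by
      have h1 := (((hexp (1 / 2) (by linarith)).add (hexp (-(1 / 2)) (by linarith))).const_mul
        (2 ^ k * (k.factorial * Real.exp (1 / 2)))).const_mul A
      refine h1.mono' (by fun_prop) (Eventually.of_forall fun s => ?_)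
      rw [Real.norm_of_nonneg (by positivity)]
      exact mul_le_mul_of_nonneg_left (pow_le_exp k s) hA
    refine extend_w hfin hTail.low hμ1 (fun s => by positivity) hWi ?_ hf hfA
    intro ε hε
    refine tail_pow (c₀ := c₀) (C := C + 1) (a := c * finrank ℚ K)
      (ν := min ν ((2 * finrank ℚ K : ℕ) : ℝ)) (κ := q) hfin (by positivity)
      (lt_min hν (by positivity)) (by positivity) hq0.le ?_ ?_ k A hA ε hε
    · intro P B hB hP
      have h1 : Height.logHeight P.1.rep ≤ finrank ℚ K * Real.log B := by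
        rw [rho_le_iff _ _ (by linarith), ← Real.log_le_log_iff (Height.mulHeight_pos _)
          (by positivity), ← Height.logHeight_eq_log_mulHeight, Real.log_pow] at hP
        exact hP
      unfold Er
      rw [div_le_iff₀ hd]
      have h2 := NTd_nonneg T (Lf α) P.2
      nlinarith
    · intro B t hB ht
      obtain ⟨g1, g2⟩ := hb B t hB
      have hB0 : 0 < B := by linarith
      have hsub : {P | rho (Lf α) P ≤ B ∧ t ≤ Er T α P} ⊆
          {P | rn (rho (Lf α)) (Er T α) q P ≤ B ∧ t ≤ Er T α P} := by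
        rintro P ⟨h1, h2⟩
        refine ⟨?_, h2⟩
        refine le_trans ?_ h1
        unfold rn
        refine mul_le_of_le_one_right (rho_pos _ P).le ?_
        rw [Real.exp_le_one_iff]
        have : 0 ≤ Er T α P / q := div_nonneg (ht.trans h2) hq0.le
        linarith
      have h1 : ({P | rho (Lf α) P ≤ B ∧ t ≤ Er T α P}.ncard : ℝ) ≤
          ({P | rn (rho (Lf α)) (Er T α) q P ≤ B ∧ t ≤ Er T α P}.ncard : ℝ) := by
        exact_mod_cast Set.ncard_le_ncard hsub g1
      refine (h1.trans g2).trans ?_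
      have h2 : B ^ (-ν) ≤ B ^ (-(min ν ((2 * finrank ℚ K : ℕ) : ℝ))) :=
        Real.rpow_le_rpow_of_exponent_le hB (neg_le_neg (min_le_left _ _))
      have h3 : 1 ≤ B ^ (-(min ν ((2 * finrank ℚ K : ℕ) : ℝ))) *
          B ^ ((2 * finrank ℚ K : ℕ) : ℝ) := by
        rw [← Real.rpow_add hB0]
        refine Real.one_le_rpow hB ?_
        linarith [min_le_right ν ((2 * finrank ℚ K : ℕ) : ℝ)]
      have hBD : 0 < B ^ ((2 * finrank ℚ K : ℕ) : ℝ) := Real.rpow_pos_of_pos hB0 _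
      set x := Real.exp (-(c * finrank ℚ K * t)) with hx
      have hx0 : 0 < x := Real.exp_pos _
      set y := B ^ (-(min ν ((2 * finrank ℚ K : ℕ) : ℝ))) with hy
      set z := B ^ ((2 * finrank ℚ K : ℕ) : ℝ) with hz
      have h4 : C * (x + B ^ (-ν)) * z ≤ C * (x + y) * z := by gcongr
      have h5 : 0 ≤ x * z := by positivity
      calc C * (x + B ^ (-ν)) * z + 1 ≤ C * (x + y) * z + (x * z + y * z) := by linarith
        _ = _ := by ring

end

end Pool.Agent.N906.EQ
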