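import Pool.Agent.N906.EQ.Riem
import Pool.Agent.N906.EQ.Orbit

/-!
# Few vectors satisfy strong divisibility conditions
-/

set_option autoImplicit false
set_option linter.unusedSectionVars false

namespace Pool.Agent.N906.EQ

open Module Finset Filter Topology Pool.Agent.N852

section

variable {ι : Type} [Fintype ι]

/-- the nonzero vectors with the property `P` have density at most `ε`, uniformly -/
def UD (P : (ι → ℤ) → Prop) (ε : ℝ) : Prop := ∀ Y : ℝ, 1 ≤ Y → ∀ S : Finset (ι → ℤ),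
  (∀ z ∈ S, z ≠ 0 ∧ ‖ic z‖ ≤ Y ∧ P z) → (S.card : ℝ) ≤ ε * Y ^ (Fintype.card ι)

/-- the nonzero vectors with the property `P` have density at most `ε` -/
def ED (P : (ι → ℤ) → Prop) (ε : ℝ) : Prop := ∀ᶠ Y : ℝ in atTop, ∀ S : Finset (ι → ℤ),
  (∀ z ∈ S, z ≠ 0 ∧ ‖ic z‖ ≤ Y ∧ P z) → (S.card : ℝ) ≤ ε * Y ^ (Fintype.card ι)

lemma UD.ed {P : (ι → ℤ) → Prop} {ε : ℝ} (h : UD P ε) : ED P ε := by
  filter_upwards [eventually_ge_atTop 1] with Y hY
  exact h Y hY

lemma UD.mono {P Q : (ι → ℤ) → Prop} {ε : ℝ} (h : UD P ε) (hQ : ∀ z, z ≠ 0 → Q z → P z) :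
    UD Q ε := by
  intro Y hY S hS
  exact h Y hY S fun z hz => ⟨(hS z hz).1, (hS z hz).2.1, hQ z (hS z hz).1 (hS z hz).2.2⟩

lemma UD.mono_eps {P : (ι → ℤ) → Prop} {ε ε' : ℝ} (h : UD P ε) (hε : ε ≤ ε') : UD P ε' := by
  intro Y hY S hS
  refine (h Y hY S hS).trans ?_
  gcongr

lemma ED.mono {P Q : (ι → ℤ) → Prop} {ε : ℝ} (h : ED P ε) (hQ : ∀ z, z ≠ 0 → Q z → P z) :
    ED Q ε := by
  filter_upwards [h] with Y hY S hS
  exact hY S fun z hz => ⟨(hS z hz).1, (hS z hz).2.1, hQ z (hS z hz).1 (hS z hz).2.2⟩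

lemma ED.mono_eps {P : (ι → ℤ) → Prop} {ε ε' : ℝ} (h : ED P ε) (hε : ε ≤ ε') : ED P ε' := by
  filter_upwards [h, eventually_ge_atTop 0] with Y hY hY0 S hS
  refine (hY S hS).trans ?_
  gcongr

lemma ED.or {P Q : (ι → ℤ) → Prop} {ε ε' : ℝ} (h : ED P ε) (h' : ED Q ε') :
    ED (fun z => P z ∨ Q z) (ε + ε') := by
  classical
  filter_upwards [h, h'] with Y h1 h2 S hS
  have h3 : S ⊆ (S.filter P) ∪ (S.filter Q) := by
    intro z hz
    rcases (hS z hz).2.2 with h | h
    · exact mem_union_left _ (mem_filter.2 ⟨hz, h⟩)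
    · exact mem_union_right _ (mem_filter.2 ⟨hz, h⟩)
  have h4 : (S.card : ℝ) ≤ (S.filter P).card + (S.filter Q).card := by
    exact_mod_cast (card_le_card h3).trans (card_union_le _ _)
  have h5 := h1 (S.filter P) fun z hz => by
    obtain ⟨a, b⟩ := mem_filter.1 hz
    exact ⟨(hS z a).1, (hS z a).2.1, b⟩
  have h6 := h2 (S.filter Q) fun z hz => by
    obtain ⟨a, b⟩ := mem_filter.1 hz
    exact ⟨(hS z a).1, (hS z a).2.1, b⟩
  rw [add_mul]
  linarith

lemma UD.exists {A : Type} {P : A → (ι → ℤ) → Prop} {ε : A → ℝ} (hε : Summable ε)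
    (hε0 : ∀ a, 0 ≤ ε a) (h : ∀ a, UD (P a) (ε a)) : UD (fun z => ∃ a, P a z) (∑' a, ε a) := by
  classical
  intro Y hY S hS
  rcases S.eq_empty_or_nonempty with rfl | ⟨z₀, hz₀⟩
  · rw [card_empty, Nat.cast_zero]
    exact mul_nonneg (tsum_nonneg hε0) (by positivity)
  have h1 : ∀ z ∈ S, ∃ a, P a z := fun z hz => (hS z hz).2.2
  have : Nonempty A := ⟨(h1 z₀ hz₀).choose⟩
  choose! f hf using h1
  have h2 : (S.card : ℝ) = ∑ a ∈ S.image f, ((S.filter fun z => f z = a).card : ℝ) := by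
    exact_mod_cast card_eq_sum_card_image f S
  have h3 : ∀ a ∈ S.image f, ((S.filter fun z => f z = a).card : ℝ) ≤
      ε a * Y ^ (Fintype.card ι) := by
    intro a _
    refine h a Y hY _ fun z hz => ?_
    obtain ⟨h4, h5⟩ := mem_filter.1 hz
    refine ⟨(hS z h4).1, (hS z h4).2.1, ?_⟩
    rw [← h5]
    exact hf z h4
  rw [h2]
  refine (sum_le_sum h3).trans ?_
  rw [← sum_mul]
  refine mul_le_mul_of_nonneg_right ?_ (by positivity)
  exact hε.sum_le_tsum _ fun a _ => hε0 a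

/-- separated integral vectors -/
theorem pack (S : Finset (ι → ℤ)) (ρ : ι → ℝ) (hρ : ∀ p, 0 < ρ p) {Y : ℝ} (hY0 : 0 ≤ Y)
    (hY : ∀ z ∈ S, ‖ic z‖ ≤ Y)
    (hsep : ∀ z ∈ S, ∀ z' ∈ S, (∀ p, |(z p : ℝ) - z' p| < ρ p) → z = z') :
    (S.card : ℝ) ≤ ∏ p, (2 * Y / ρ p + 2) := by
  classical
  set f : (ι → ℤ) → (ι → ℤ) := fun z p => ⌊(z p : ℝ) / ρ p⌋ with hf
  have h1 : (S.image f).card = S.card := by
    apply card_image_of_injOn
    intro z hz z' hz' h
    refine hsep z hz z' hz' fun p => ?_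
    have h2 : ⌊(z p : ℝ) / ρ p⌋ = ⌊(z' p : ℝ) / ρ p⌋ := congrFun h p
    have h3 := Int.abs_sub_lt_one_of_floor_eq_floor h2
    rw [← sub_div, abs_div, abs_of_pos (hρ p), div_lt_one (hρ p)] at h3
    exact h3
  have h2 : S.image f ⊆ Fintype.piFinset fun p => Finset.Icc (-⌈Y / ρ p⌉) ⌊Y / ρ p⌋ := by
    intro y hy
    obtain ⟨z, hz, rfl⟩ := mem_image.1 hy
    rw [Fintype.mem_piFinset]
    intro p
    have h3 : |(z p : ℝ)| ≤ Y := (norm_le_pi_norm (ic z) p).trans (hY z hz)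
    rw [abs_le] at h3
    have h4 : (z p : ℝ) / ρ p ≤ Y / ρ p := div_le_div_of_nonneg_right h3.2 (hρ p).le
    have h5 : -(Y / ρ p) ≤ (z p : ℝ) / ρ p := by
      rw [← neg_div]
      exact div_le_div_of_nonneg_right h3.1 (hρ p).le
    rw [mem_Icc]
    constructor
    · rw [Int.le_floor]
      push_cast
      linarith [Int.le_ceil (Y / ρ p)]
    · exact Int.floor_le_floor h4
  have h3 := card_le_card h2
  rw [h1, Fintype.card_piFinset] at h3
  have h4 : (S.card : ℝ) ≤ ∏ p, ((Finset.Icc (-⌈Y / ρ p⌉) ⌊Y / ρ p⌋).card : ℝ) := by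
    exact_mod_cast h3
  refine h4.trans (prod_le_prod (fun _ _ => Nat.cast_nonneg _) fun p _ => ?_)
  rw [Int.card_Icc]
  have h5 : 0 ≤ Y / ρ p := div_nonneg hY0 (hρ p).le
  have h6 : 0 ≤ ⌊Y / ρ p⌋ := Int.floor_nonneg.2 h5
  have h7 : 0 ≤ ⌈Y / ρ p⌉ := Int.ceil_nonneg h5
  have h8 : (((⌊Y / ρ p⌋ + 1 - -⌈Y / ρ p⌉).toNat : ℕ) : ℝ) = ⌊Y / ρ p⌋ + 1 + ⌈Y / ρ p⌉ := by
    have h9 : (((⌊Y / ρ p⌋ + 1 - -⌈Y / ρ p⌉).toNat : ℕ) : ℤ) = ⌊Y / ρ p⌋ + 1 + ⌈Y / ρ p⌉ := by
      rw [Int.toNat_of_nonneg (by omega)]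
      ring
    exact_mod_cast congrArg (Int.cast : ℤ → ℝ) h9
  rw [h8]
  have h9 := Int.floor_le (Y / ρ p)
  have h10 := Int.ceil_lt_add_one (Y / ρ p)
  have h11 : 2 * Y / ρ p = 2 * (Y / ρ p) := by ring
  rw [h11]
  linarith

end

section

open NumberField NumberField.InfinitePlace

variable {K : Type} [Field K] [NumberField K] {m : ℕ}

/-- the norm of an ideal is at most the norm of its elements -/
lemma absNorm_le {I : Ideal (𝓞 K)} {x : 𝓞 K} (hx : x ∈ I) (hx0 : x ≠ 0) :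
    (Ideal.absNorm I : ℝ) ≤ ∏ w : InfinitePlace K, w (x : K) ^ w.mult := by
  rw [prod_eq_abs_norm]
  have h1 : Ideal.absNorm I ∣ Ideal.absNorm (Ideal.span {x}) :=
    Ideal.absNorm_dvd_absNorm_of_le ((Ideal.span_singleton_le_iff_mem I).2 hx)
  rw [Ideal.absNorm_span_singleton] at h1
  have h2 : (Algebra.norm ℤ x).natAbs ≠ 0 := by
    rw [Ne, Int.natAbs_eq_zero, Algebra.norm_eq_zero_iff]
    exact hx0
  have h3 := Nat.le_of_dvd (Nat.pos_of_ne_zero h2) h1
  have h4 : |Algebra.norm ℚ (x : K)| = ((Algebra.norm ℤ x).natAbs : ℚ) := by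
    rw [← Algebra.coe_norm_int, Nat.cast_natAbs, Int.cast_abs]
  rw [h4]
  push_cast
  exact_mod_cast h3

variable (K m) in
/-- integral vectors with a nonzero coordinate in an ideal are not small -/
theorem norm_ge : ∃ C : ℝ, 0 < C ∧ ∀ (I : Ideal (𝓞 K)) (z : Fin m × Jx K → ℤ) (i : Fin m),
    vec z i ∈ I → vec z i ≠ 0 → (Ideal.absNorm I : ℝ) ≤ (C * ‖ic z‖) ^ (finrank ℚ K) := by
  obtain ⟨C, hC, h⟩ := sN_le_norm K m
  refine ⟨C, hC, fun I z i h1 h2 => (absNorm_le h1 h2).trans ?_⟩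
  rw [← sum_mult_eq, ← prod_pow_eq_pow_sum]
  refine prod_le_prod (fun w _ => pow_nonneg (apply_nonneg w _) _) fun w _ => ?_
  refine pow_le_pow_left₀ (apply_nonneg w _) (le_trans ?_ (h (ic z) w)) _
  rw [sN_int]
  have h3 := norm_le_pi_norm (fun i => w (vec z i : K)) i
  rwa [Real.norm_of_nonneg (apply_nonneg w _)] at h3

variable (K m) in
/-- the vectors with all coordinates in an ideal -/
theorem ud_all : ∃ C : ℝ, 0 < C ∧ ∀ I : Ideal (𝓞 K), I ≠ ⊥ →
    UD (fun z : Fin m × Jx K → ℤ => ∀ i, vec z i ∈ I) (C / (Ideal.absNorm I : ℝ) ^ m) := by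
  obtain ⟨C, hC, h⟩ := norm_ge K m
  set d := finrank ℚ K with hd
  have hd0 : 0 < d := finrank_pos (R := ℚ) (M := K)
  refine ⟨(4 * C) ^ (m * d), by positivity, fun I hI Y hY S hS => ?_⟩
  have hN0 : (0 : ℝ) < Ideal.absNorm I := by
    exact_mod_cast Nat.pos_of_ne_zero (by rwa [Ne, Ideal.absNorm_eq_zero_iff])
  rcases S.eq_empty_or_nonempty with rfl | ⟨z₀, hz₀⟩
  · rw [card_empty, Nat.cast_zero]
    positivity
  set ρ : ℝ := (Ideal.absNorm I : ℝ) ^ (1 / (d : ℝ)) / C with hρ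
  have hρ0 : 0 < ρ := by positivity
  have hρd : (C * ρ) ^ d = Ideal.absNorm I := by
    rw [hρ, mul_div_cancel₀ _ hC.ne', ← Real.rpow_natCast, ← Real.rpow_mul hN0.le,
      one_div_mul_cancel (by exact_mod_cast hd0.ne'), Real.rpow_one]
  have hbig : ∀ z : Fin m × Jx K → ℤ, z ≠ 0 → (∀ i, vec z i ∈ I) → ρ ≤ ‖ic z‖ := by
    intro z hz hzI
    obtain ⟨i, hi⟩ := Function.ne_iff.1 (vec_ne_zero.2 hz)
    have h1 := h I z i (hzI i) hi
    rw [← hρd] at h1
    have h2 := (pow_le_pow_iff_left₀ (by positivity) (by positivity) hd0.ne').1 h1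
    exact le_of_mul_le_mul_left h2 hC
  have hρY : ρ ≤ Y := (hbig z₀ (hS z₀ hz₀).1 (hS z₀ hz₀).2.2).trans (hS z₀ hz₀).2.1
  have h1 := pack S (fun _ => ρ) (fun _ => hρ0) (Y := Y) (by linarith) (fun z hz => (hS z hz).2.1)
    (by
      intro z hz z' hz' hlt
      by_contra hne
      have h2 := hbig (z - z') (sub_ne_zero.2 hne) (by
        intro i
        rw [vec_sub]
        exact I.sub_mem ((hS z hz).2.2 i) ((hS z' hz').2.2 i))
      have h3 : ‖ic (z - z')‖ < ρ := by
        rw [pi_norm_lt_iff hρ0]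
        intro p
        rw [ic_sub]
        exact hlt p
      linarith)
  refine h1.trans ?_
  rw [prod_const, card_univ, card_idx, ← hd]
  have h2 : 2 * Y / ρ + 2 ≤ 4 * Y / ρ := by
    have : 2 ≤ 2 * Y / ρ := by
      rw [le_div_iff₀ hρ0]
      linarith
    have h3 : 4 * Y / ρ = 2 * Y / ρ + 2 * Y / ρ := by ring
    linarith
  have h3 : (Ideal.absNorm I : ℝ) ^ m = (C * ρ) ^ (m * d) := by
    rw [← hρd, ← pow_mul, mul_comm d m]
  rw [h3]
  calc (2 * Y / ρ + 2) ^ (m * d) ≤ (4 * Y / ρ) ^ (m * d) :=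
        pow_le_pow_left₀ (by positivity) h2 _
    _ = (4 * C) ^ (m * d) / (C * ρ) ^ (m * d) * Y ^ (m * d) := by
        rw [← div_pow, ← mul_pow]
        congr 1
        field_simp

/-- the value of a linear form -/
def lf (L v : Fin m → 𝓞 K) : 𝓞 K := ∑ i, L i * v i

lemma lf_sub (L v w : Fin m → 𝓞 K) : lf L (v - w) = lf L v - lf L w := by
  unfold lf
  rw [← sum_sub_distrib]
  exact sum_congr rfl fun i _ => by rw [Pi.sub_apply, mul_sub]

/-- the coordinates of the value of a linear form are bounded -/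
theorem lf_norm_le (L : Fin m → 𝓞 K) : ∃ C : ℝ, 0 < C ∧ ∀ (z : Fin m × Jx K → ℤ)
    (y : Fin 1 × Jx K → ℤ), vec y 0 = lf L (vec z) → ‖ic y‖ ≤ C * ‖ic z‖ := by
  obtain ⟨C1, hC1, h1⟩ := sN_le_norm K m
  obtain ⟨C2, hC2, h2⟩ := norm_le_sN K 1
  set C3 : ℝ := ∑ w : InfinitePlace K, ∑ i, w (L i : K) with hC3
  have hC30 : 0 ≤ C3 := sum_nonneg fun w _ => sum_nonneg fun i _ => apply_nonneg w _
  refine ⟨C2 * (C3 * C1) + 1, by positivity, fun z y hy => ?_⟩
  have h3 : ∀ w, sN w (ic y) ≤ C3 * C1 * ‖ic z‖ := by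
    intro w
    rw [sN_int, pi_norm_le_iff_of_nonneg (by positivity)]
    intro i
    have hi : i = 0 := Subsingleton.elim _ _
    rw [hi, Real.norm_of_nonneg (apply_nonneg w _), hy]
    have h4 : ((lf L (vec z) : 𝓞 K) : K) = ∑ i, (L i : K) * (vec z i : K) := by
      show algebraMap (𝓞 K) K (∑ i, L i * vec z i) = _
      rw [map_sum]
      exact sum_congr rfl fun i _ => map_mul _ _ _
    rw [h4]
    have h5 : ∀ i, w (vec z i : K) ≤ C1 * ‖ic z‖ := by
      intro i
      refine le_trans ?_ (h1 (ic z) w)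
      rw [sN_int]
      have h3 := norm_le_pi_norm (fun i => w (vec z i : K)) i
      rwa [Real.norm_of_nonneg (apply_nonneg w _)] at h3
    calc w (∑ i, (L i : K) * (vec z i : K)) ≤ ∑ i, w ((L i : K) * (vec z i : K)) :=
          w.1.sum_le _ _
      _ ≤ ∑ i, w (L i : K) * (C1 * ‖ic z‖) := by
          refine sum_le_sum fun i _ => ?_
          rw [map_mul]
          exact mul_le_mul_of_nonneg_left (h5 i) (apply_nonneg w _)
      _ = (∑ i, w (L i : K)) * (C1 * ‖ic z‖) := by rw [sum_mul]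
      _ ≤ C3 * (C1 * ‖ic z‖) := by
          refine mul_le_mul_of_nonneg_right ?_ (by positivity)
          exact single_le_sum (f := fun w : InfinitePlace K => ∑ i, w (L i : K))
            (fun w _ => sum_nonneg fun i _ => apply_nonneg w _) (mem_univ w)
      _ = _ := by ring
  have h4 := h2 (ic y) (C3 * C1 * ‖ic z‖) (by positivity) h3
  have : 0 ≤ ‖ic z‖ := norm_nonneg _
  nlinarith

/-- the vectors at which a linear form has a nonzero value in an ideal -/
theorem ud_form (L : Fin m → 𝓞 K) (hL : L ≠ 0) : ∃ C : ℝ, 0 < C ∧ ∀ I : Ideal (𝓞 K), I ≠ ⊥ →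
    UD (fun z : Fin m × Jx K → ℤ => lf L (vec z) ∈ I ∧ lf L (vec z) ≠ 0)
      (C / (Ideal.absNorm I : ℝ)) := by
  classical
  obtain ⟨i₀, hi₀⟩ := Function.ne_iff.1 hL
  have hi₀' : L i₀ ≠ 0 := hi₀
  obtain ⟨C1, hC1, h1⟩ := lf_norm_le L
  obtain ⟨C, hC, h⟩ := norm_ge K 1
  set d := finrank ℚ K with hd
  have hd0 : 0 < d := finrank_pos (R := ℚ) (M := K)
  set D : ℝ := C1 + 1 with hD
  have hD0 : 0 < D := by positivity
  refine ⟨(4 * D) ^ (m * d) * C ^ d, by positivity, fun I hI Y hY S hS => ?_⟩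
  have hN0 : (0 : ℝ) < Ideal.absNorm I := by
    exact_mod_cast Nat.pos_of_ne_zero (by rwa [Ne, Ideal.absNorm_eq_zero_iff])
  rcases S.eq_empty_or_nonempty with rfl | ⟨z₀, hz₀⟩
  · rw [card_empty, Nat.cast_zero]
    positivity
  set ρ : ℝ := (Ideal.absNorm I : ℝ) ^ (1 / (d : ℝ)) / C with hρ
  have hρ0 : 0 < ρ := by positivity
  have hρd : (C * ρ) ^ d = Ideal.absNorm I := by
    rw [hρ, mul_div_cancel₀ _ hC.ne', ← Real.rpow_natCast, ← Real.rpow_mul hN0.le,
      one_div_mul_cancel (by exact_mod_cast hd0.ne'), Real.rpow_one]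
  have hbig : ∀ y : Fin 1 × Jx K → ℤ, vec y 0 ≠ 0 → vec y 0 ∈ I → ρ ≤ ‖ic y‖ := by
    intro y hy hyI
    have h1 := h I y 0 hyI hy
    rw [← hρd] at h1
    have h2 := (pow_le_pow_iff_left₀ (by positivity) (by positivity) hd0.ne').1 h1
    exact le_of_mul_le_mul_left h2 hC
  -- the coordinates of the value
  have hval : ∀ z : Fin m × Jx K → ℤ, ∃ y : Fin 1 × Jx K → ℤ, vec y 0 = lf L (vec z) := by
    intro z
    obtain ⟨y, hy⟩ := vec_surj (m := 1) (fun _ => lf L (vec z))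
    exact ⟨y, congrFun hy 0⟩
  choose yv hyv using hval
  have hval_sub : ∀ z z', yv z - yv z' = yv (z - z') := by
    intro z z'
    apply vec_inj
    funext i
    have hi : i = 0 := Subsingleton.elim _ _
    rw [hi, vec_sub, Pi.sub_apply, hyv, hyv, hyv, vec_sub, lf_sub]
  set T : (Fin m × Jx K → ℤ) → (Fin m × Jx K → ℤ) := fun z p =>
    if p.1 = i₀ then yv z (0, p.2) else z p with hT
  have hTinj : Function.Injective T := by
    intro z z' hzz
    have h2 : ∀ p : Fin m × Jx K, p.1 ≠ i₀ → z p = z' p := by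
      intro p hp
      have := congrFun hzz p
      simpa only [hT, if_neg hp] using this
    have h3 : yv z = yv z' := by
      funext ⟨i, j⟩
      have hi : i = 0 := Subsingleton.elim _ _
      have := congrFun hzz (i₀, j)
      simp only [hT, if_true] at this
      rw [hi]
      exact this
    have h4 : lf L (vec z) = lf L (vec z') := by rw [← hyv, ← hyv, h3]
    have h5 : ∀ i, i ≠ i₀ → vec z i = vec z' i := by
      intro i hi
      unfold vec
      exact sum_congr rfl fun j _ => by rw [h2 (i, j) hi]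
    have h6 : vec z i₀ = vec z' i₀ := by
      unfold lf at h4
      rw [← add_sum_erase univ _ (mem_univ i₀), ← add_sum_erase univ _ (mem_univ i₀)] at h4
      have h7 : ∑ i ∈ univ.erase i₀, L i * vec z i = ∑ i ∈ univ.erase i₀, L i * vec z' i :=
        sum_congr rfl fun i hi => by rw [h5 i (ne_of_mem_erase hi)]
      rw [h7] at h4
      exact mul_left_cancel₀ hi₀' (add_right_cancel h4)
    apply vec_inj
    funext i
    by_cases hi : i = i₀
    · rw [hi, h6]
    · exact h5 i hi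
  have hTnorm : ∀ z ∈ S, ‖ic (T z)‖ ≤ D * Y := by
    intro z hz
    have h2 := (hS z hz).2.1
    have hY0 : 0 ≤ Y := by linarith
    rw [pi_norm_le_iff_of_nonneg (by positivity)]
    intro p
    by_cases hp : p.1 = i₀
    · have h3 : ic (T z) p = ic (yv z) (0, p.2) := by
        simp only [ic, hT, if_pos hp]
      rw [h3]
      refine (norm_le_pi_norm (ic (yv z)) (0, p.2)).trans ((h1 z (yv z) (hyv z)).trans ?_)
      have := norm_nonneg (ic z)
      nlinarith
    · have h3 : ic (T z) p = ic z p := by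
        simp only [ic, hT, if_neg hp]
      rw [h3]
      refine (norm_le_pi_norm (ic z) p).trans ?_
      have : 0 ≤ C1 * Y := by positivity
      rw [hD, add_mul, one_mul]
      linarith
  have hY0 : 0 ≤ Y := by linarith
  have hρY : ρ ≤ D * Y := by
    have h2 := hbig (yv z₀) (by rw [hyv]; exact (hS z₀ hz₀).2.2.2)
      (by rw [hyv]; exact (hS z₀ hz₀).2.2.1)
    refine h2.trans ((h1 z₀ _ (hyv z₀)).trans ?_)
    have h3 := (hS z₀ hz₀).2.1
    have := norm_nonneg (ic z₀)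
    nlinarith
  have h2 := pack (S.image T) (fun p => if p.1 = i₀ then ρ else 1)
    (fun p => by split_ifs; exacts [hρ0, one_pos]) (Y := D * Y) (by positivity)
    (fun y hy => by
      obtain ⟨z, hz, rfl⟩ := mem_image.1 hy
      exact hTnorm z hz)
    (by
      intro y hy y' hy' hlt
      obtain ⟨z, hz, rfl⟩ := mem_image.1 hy
      obtain ⟨z', hz', rfl⟩ := mem_image.1 hy'
      have h3 : yv z = yv z' := by
        by_contra hne
        have h4 : vec (yv (z - z')) 0 ≠ 0 := by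
          intro h5
          apply hne
          rw [← sub_eq_zero, hval_sub]
          apply vec_inj
          funext i
          have hi : i = 0 := Subsingleton.elim _ _
          rw [hi, h5, vec_zero]
          rfl
        have h5 := hbig (yv (z - z')) h4 (by
          rw [hyv, vec_sub, lf_sub]
          exact I.sub_mem (hS z hz).2.2.1 (hS z' hz').2.2.1)
        have h6 : ‖ic (yv (z - z'))‖ < ρ := by
          rw [pi_norm_lt_iff hρ0]
          rintro ⟨i, j⟩
          have hi : i = 0 := Subsingleton.elim _ _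
          rw [← hval_sub, ic_sub, hi]
          have h7 := hlt (i₀, j)
          simp only [hT, if_true] at h7
          exact h7
        linarith
      funext p
      by_cases hp : p.1 = i₀
      · simp only [hT, if_pos hp, h3]
      · have h7 := hlt p
        simp only [hT, if_neg hp] at h7 ⊢
        have h8 : |((z p - z' p : ℤ) : ℝ)| < 1 := by
          push_cast
          exact h7
        rw [← Int.cast_abs] at h8
        have h9 : |z p - z' p| < 1 := by exact_mod_cast h8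
        have h10 := Int.abs_lt_one_iff.1 h9
        omega)
  rw [card_image_of_injective S hTinj] at h2
  refine h2.trans ?_
  rw [Fintype.prod_prod_type]
  have h3 : ∀ i : Fin m, ∏ _j : Jx K, (2 * (D * Y) / (if i = i₀ then ρ else 1) + 2) ≤
      if i = i₀ then (4 * (D * Y) / ρ) ^ d else (4 * (D * Y)) ^ d := by
    intro i
    rw [prod_const, card_univ, card_Jx, ← hd]
    by_cases hi : i = i₀
    · rw [if_pos hi, if_pos hi]
      refine pow_le_pow_left₀ (by positivity) ?_ _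
      have : 2 ≤ 2 * (D * Y) / ρ := by
        rw [le_div_iff₀ hρ0]
        linarith
      have h3 : 4 * (D * Y) / ρ = 2 * (D * Y) / ρ + 2 * (D * Y) / ρ := by ring
      linarith
    · rw [if_neg hi, if_neg hi]
      refine pow_le_pow_left₀ (by positivity) ?_ _
      have : 1 ≤ D * Y := by nlinarith
      linarith
  calc ∏ i : Fin m, ∏ j : Jx K, (2 * (D * Y) / (if (i, j).1 = i₀ then ρ else 1) + 2)
      ≤ ∏ i : Fin m, if i = i₀ then (4 * (D * Y) / ρ) ^ d else (4 * (D * Y)) ^ d :=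
        prod_le_prod (fun i _ => prod_nonneg fun j _ => by
          split_ifs <;> positivity) fun i _ => h3 i
    _ = (4 * (D * Y) / ρ) ^ d * ((4 * (D * Y)) ^ d) ^ (m - 1) := by
        rw [← mul_prod_erase univ _ (mem_univ i₀), if_pos rfl]
        congr 1
        rw [prod_congr rfl (g := fun _ => (4 * (D * Y)) ^ d) fun i hi =>
          if_neg (ne_of_mem_erase hi), prod_const, card_erase_of_mem (mem_univ i₀), card_univ,
          Fintype.card_fin]
    _ = (4 * (D * Y)) ^ (m * d) / ρ ^ d := by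
        have hm : m = (m - 1) + 1 := by
          have := i₀.2
          omega
        rw [div_pow, ← pow_mul, div_mul_eq_mul_div, ← pow_add]
        congr 2
        conv_rhs => rw [hm]
        ring
    _ = (4 * D) ^ (m * d) * C ^ d / Ideal.absNorm I * Y ^ (Fintype.card (Fin m × Jx K)) := by
        rw [card_idx, ← hd, ← hρd, mul_pow C ρ, ← mul_assoc, mul_pow (4 * D)]
        field_simp

end

end Pool.Agent.N906.EQ
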