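import Pool.Agent.N906.EQ.Loc
import Pool.Agent.H691R3.PrimeSum
import Pool.Agent.TH876.Loc

/-!
# The local data of primitive vectors
-/

set_option autoImplicit false
set_option linter.unusedSectionVars false

namespace Pool.Agent.N906.EQ

open NumberField NumberField.InfinitePlace IsDedekindDomain Module Finset Filter Topology
  Pool.Agent.N852 Pool.Agent.H691R3 Pool.Agent.TH876.Loc

section

variable {K : Type} [Field K] [NumberField K] {m q : ℕ}

lemma fv_le_one (v : Pr K) (x : 𝓞 K) : fv v (x : K) ≤ 1 := FinitePlace.norm_le_one K v x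

lemma Nv_gt (v : Pr K) : 1 < Nv v := by linarith [two_le_Nv v]

lemma Nv_pos (v : Pr K) : 0 < Nv v := by linarith [two_le_Nv v]

/-- small absolute value means divisibility -/
lemma mem_pow_of_fv_le (v : Pr K) {x : 𝓞 K} {k : ℕ} (h : fv v (x : K) ≤ (Nv v)⁻¹ ^ k) :
    x ∈ v.asIdeal ^ k := by
  by_cases hx : x = 0
  · rw [hx]
    exact Ideal.zero_mem _
  have h1 : fv v (x : K) = _ := NumberField.FinitePlace.norm_embedding' (v := v) (x := (x : K))
  have hxK : (x : K) ≠ 0 := fun h => hx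
    (FaithfulSMul.algebraMap_injective (𝓞 K) K (h.trans (map_zero _).symm))
  have hx' : v.valuation K (x : K) ≠ 0 := (Valuation.ne_zero_iff _).mpr hxK
  rw [WithZeroMulInt.toNNReal_neg_apply _ hx'] at h1
  push_cast at h1
  rw [h1, inv_pow, ← zpow_natCast, ← zpow_neg] at h
  have h2 : Multiplicative.toAdd (WithZero.unzero hx') ≤ -(k : ℤ) :=
    (zpow_le_zpow_iff_right₀ (Nv_gt v)).1 h
  have h3 : v.valuation K (x : K) ≤ WithZero.exp (-(k : ℤ)) := by
    have h5 : (↑(WithZero.unzero hx') : WithZero (Multiplicative ℤ)) = v.valuation K (x : K) :=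
      WithZero.coe_unzero hx'
    rw [← h5]
    exact WithZero.coe_le_coe.2 h2
  have e : v.valuation K (x : K) = v.intValuation x := v.valuation_of_algebraMap x
  rw [e, HeightOneSpectrum.intValuation_le_pow_iff_dvd] at h3
  rw [← Ideal.span_singleton_le_iff_mem]
  exact Ideal.le_of_dvd h3

lemma fv_le_inv (v : Pr K) {x : 𝓞 K} (h : x ∈ v.asIdeal) : fv v (x : K) ≤ (Nv v)⁻¹ := by
  by_cases hx : x = 0
  · rw [hx]
    have : ((0 : 𝓞 K) : K) = 0 := map_zero _
    rw [this, map_zero]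
    exact inv_nonneg.2 (Nv_pos v).le
  have hxK : (x : K) ≠ 0 := fun h => hx
    (FaithfulSMul.algebraMap_injective (𝓞 K) K (h.trans (map_zero _).symm))
  obtain ⟨n, hn⟩ := fv_zpow v hxK
  have h1 : fv v (x : K) < 1 := (FinitePlace.norm_lt_one_iff_mem K v x).2 h
  rw [hn] at h1 ⊢
  have h2 : n < 0 := by
    by_contra h3
    exact absurd h1 (not_lt.2 (one_le_zpow₀ (Nv_gt v).le (not_lt.1 h3)))
  rw [← zpow_neg_one]
  exact (zpow_le_zpow_iff_right₀ (Nv_gt v)).2 (by omega)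

/-- the sup norm of a vector at a finite place -/
noncomputable def fN (v : Pr K) (x : Fin m → K) : ℝ := ‖fun i => fv v (x i)‖

lemma fN_nonneg (v : Pr K) (x : Fin m → K) : 0 ≤ fN v x := norm_nonneg _

lemma le_fN (v : Pr K) (x : Fin m → K) (i : Fin m) : fv v (x i) ≤ fN v x := by
  have := norm_le_pi_norm (fun i => fv v (x i)) i
  rwa [Real.norm_of_nonneg ((fv v).nonneg _)] at this

lemma fN_le {v : Pr K} {x : Fin m → K} {B : ℝ} (hB : 0 ≤ B) (h : ∀ i, fv v (x i) ≤ B) :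
    fN v x ≤ B := by
  unfold fN
  rw [pi_norm_le_iff_of_nonneg hB]
  intro i
  rw [Real.norm_of_nonneg ((fv v).nonneg _)]
  exact h i

lemma fN_pos (v : Pr K) {x : Fin m → K} (hx : x ≠ 0) : 0 < fN v x := by
  obtain ⟨i, hi⟩ := Function.ne_iff.1 hx
  exact lt_of_lt_of_le ((fv v).pos hi) (le_fN v x i)

lemma fN_smul (v : Pr K) (t : K) (x : Fin m → K) : fN v (t • x) = fv v t * fN v x := by
  unfold fN
  have h1 : (fun i => fv v ((t • x) i)) = fv v t • fun i => fv v (x i) := by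
    funext i
    rw [Pi.smul_apply, smul_eq_mul, map_mul]
    rfl
  rw [h1, norm_smul, Real.norm_of_nonneg ((fv v).nonneg _)]

/-- the sup norm depends on the ideal only -/
lemma fN_le_of_idl (v : Pr K) {x y : Fin m → 𝓞 K} (h : idl x ≤ idl y) :
    fN v (kv x) ≤ fN v (kv y) := by
  refine fN_le (fN_nonneg _ _) fun i => ?_
  have h1 : x i ∈ Ideal.span (Set.range y) := h (Ideal.subset_span ⟨i, rfl⟩)
  obtain ⟨c, hc⟩ := (Ideal.mem_span_range_iff_exists_fun).1 h1
  have h2 : kv x i = ∑ j, (c j : K) * kv y j := by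
    show algebraMap (𝓞 K) K (x i) = _
    rw [← hc, map_sum]
    exact sum_congr rfl fun j _ => map_mul _ _ _
  rw [h2]
  refine fv_sum_le v _ _ _ (fN_nonneg _ _) fun j _ => ?_
  rw [map_mul]
  calc fv v (c j : K) * fv v (kv y j) ≤ 1 * fN v (kv y) :=
        mul_le_mul (fv_le_one v _) (le_fN v _ j) ((fv v).nonneg _) zero_le_one
    _ = _ := one_mul _

lemma fN_eq_of_mem (v : Pr K) {c : ClassGroup (𝓞 K)} {z w : Fin m × Jx K → ℤ} (hz : z ∈ Vc c)
    (hw : w ∈ Vc c) : fN v (kv (vec z)) = fN v (kv (vec w)) := by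
  have h1 : idl (vec z) = Jr c := hz
  have h2 : idl (vec w) = Jr c := hw
  exact le_antisymm (fN_le_of_idl v (by rw [h1, h2])) (fN_le_of_idl v (by rw [h1, h2]))

lemma fN_finite {x : Fin m → K} (hx : x ≠ 0) : {v : Pr K | fN v x ≠ 1}.Finite := by
  classical
  have h1 : ∀ i, {v : Pr K | x i ≠ 0 ∧ fv v (x i) ≠ 1}.Finite := by
    intro i
    by_cases h : x i = 0
    · have : {v : Pr K | x i ≠ 0 ∧ fv v (x i) ≠ 1} = ∅ := by
        ext v
        simp [h]
      rw [this]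
      exact Set.finite_empty
    · exact (fv_support_finite h).subset fun v hv => hv.2
  refine (Set.finite_iUnion h1).subset ?_
  intro v hv
  rw [Set.mem_iUnion]
  by_contra hcon
  push Not at hcon
  apply hv
  have h2 : ∀ i, x i ≠ 0 → fv v (x i) = 1 := by
    intro i hi
    by_contra h3
    exact hcon i ⟨hi, h3⟩
  apply le_antisymm
  · refine fN_le zero_le_one fun i => ?_
    by_cases h : x i = 0
    · rw [h, map_zero]
      exact zero_le_one
    · exact (h2 i h).le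
  · obtain ⟨i, hi⟩ := Function.ne_iff.1 hx
    rw [← h2 i hi]
    exact le_fN v x i

/-- the value of a linear form over the field -/
def lfK (L x : Fin m → K) : K := ∑ i, L i * x i

lemma lfK_kv (L v : Fin m → 𝓞 K) : lfK (kv L) (kv v) = (lf L v : K) := by
  show _ = algebraMap (𝓞 K) K (∑ i, L i * v i)
  rw [map_sum]
  exact sum_congr rfl fun i _ => (map_mul _ _ _).symm

lemma lfK_smul (L x : Fin m → K) (t : K) : lfK L (t • x) = t * lfK L x := by
  unfold lfK
  rw [mul_sum]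
  exact sum_congr rfl fun i _ => by rw [Pi.smul_apply, smul_eq_mul]; ring

lemma lfK_smul_left (L x : Fin m → K) (t : K) : lfK (t • L) x = t * lfK L x := by
  unfold lfK
  rw [mul_sum]
  exact sum_congr rfl fun i _ => by rw [Pi.smul_apply, smul_eq_mul]; ring

lemma fv_lfK_le (v : Pr K) (L x : Fin m → K) : fv v (lfK L x) ≤ fN v L * fN v x := by
  refine fv_sum_le v _ _ _ (mul_nonneg (fN_nonneg _ _) (fN_nonneg _ _)) fun i _ => ?_
  rw [map_mul]
  exact mul_le_mul (le_fN v _ i) (le_fN v _ i) ((fv v).nonneg _) (fN_nonneg _ _)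

/-- the local height at a finite place -/
noncomputable def lamF (v : Pr K) (L x : Fin m → K) : ℝ :=
  Real.log (fN v x * fN v L / fv v (lfK L x))

lemma lamF_smul (v : Pr K) (L x : Fin m → K) {t : K} (ht : t ≠ 0) :
    lamF v L (t • x) = lamF v L x := by
  unfold lamF
  rw [fN_smul, lfK_smul, map_mul, mul_assoc, mul_div_mul_left _ _ ((fv v).pos ht).ne']

lemma lamF_smul_left (v : Pr K) (L x : Fin m → K) {t : K} (ht : t ≠ 0) :
    lamF v (t • L) x = lamF v L x := by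
  unfold lamF
  rw [fN_smul, lfK_smul_left, map_mul, mul_left_comm, mul_div_mul_left _ _ ((fv v).pos ht).ne']

lemma fN_zpow (v : Pr K) {x : Fin m → K} (hx : x ≠ 0) : ∃ n : ℤ, fN v x = (Nv v) ^ n := by
  have hne : (univ : Finset (Fin m)).Nonempty := by
    obtain ⟨i, -⟩ := Function.ne_iff.1 hx
    exact ⟨i, mem_univ i⟩
  obtain ⟨i, -, hi⟩ := exists_max_image univ (fun i => fv v (x i)) hne
  have h1 : fN v x = fv v (x i) :=
    le_antisymm (fN_le ((fv v).nonneg _) fun j => hi j (mem_univ j)) (le_fN v x i)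
  have h2 : x i ≠ 0 := by
    intro h
    have h3 := fN_pos v hx
    rw [h1, h, map_zero] at h3
    exact lt_irrefl _ h3
  rw [h1]
  exact fv_zpow v h2

/-- local heights are nonnegative multiples of `log N(v)` -/
lemma lamF_discrete (v : Pr K) {L x : Fin m → K} (h : lfK L x ≠ 0) :
    ∃ n : ℕ, lamF v L x = n * Real.log (Nv v) ∧
      fN v x * fN v L = (Nv v) ^ n * fv v (lfK L x) := by
  have hL : L ≠ 0 := by
    rintro rfl
    exact h (sum_eq_zero fun i _ => by simp)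
  have hx : x ≠ 0 := by
    rintro rfl
    exact h (sum_eq_zero fun i _ => by simp)
  obtain ⟨a, ha⟩ := fN_zpow v hL
  obtain ⟨b, hb⟩ := fN_zpow v hx
  obtain ⟨c, hc⟩ := fv_zpow v h
  have h1 := fv_lfK_le v L x
  rw [ha, hb, hc, ← zpow_add₀ (Nv_pos v).ne'] at h1
  have h2 : c ≤ a + b := (zpow_le_zpow_iff_right₀ (Nv_gt v)).1 h1
  refine ⟨(a + b - c).toNat, ?_, ?_⟩
  · unfold lamF
    rw [ha, hb, hc, ← zpow_add₀ (Nv_pos v).ne', ← zpow_sub₀ (Nv_pos v).ne', Real.log_zpow]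
    congr 1
    have h3 : ((a + b - c).toNat : ℤ) = b + a - c := by
      rw [Int.toNat_of_nonneg (by omega)]
      ring
    have h4 : (((a + b - c).toNat : ℤ) : ℝ) = ((b + a - c : ℤ) : ℝ) := by rw [h3]
    rw [← h4]
    rfl
  · rw [ha, hb, hc, ← zpow_natCast, Int.toNat_of_nonneg (by omega), ← zpow_add₀ (Nv_pos v).ne',
      ← zpow_add₀ (Nv_pos v).ne']
    congr 1
    ring

/-! ### the set of primitive vectors -/

/-- the vectors in the ideal of the class which are primitive at the places of `F` -/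
def VF (c : ClassGroup (𝓞 K)) (F : Finset (Pr K)) : Set (Fin m × Jx K → ℤ) :=
  {z | (∀ i, vec z i ∈ Jr c) ∧ ∀ v ∈ F, ¬ ∀ i, vec z i ∈ v.asIdeal * Jr c}

/-- the period -/
noncomputable def nVF (c : ClassGroup (𝓞 K)) (F : Finset (Pr K)) : ℕ :=
  Ideal.absNorm (Jr c) * ∏ v ∈ F, Ideal.absNorm v.asIdeal

lemma nVF_ne (c : ClassGroup (𝓞 K)) (F : Finset (Pr K)) : nVF c F ≠ 0 := by
  refine mul_ne_zero ?_ (prod_ne_zero_iff.2 fun v _ => nm_ne_zero v)
  rw [Ne, Ideal.absNorm_eq_zero_iff]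
  exact Jr_ne c

lemma nVF_mem (c : ClassGroup (𝓞 K)) (F : Finset (Pr K)) : ((nVF c F : ℕ) : 𝓞 K) ∈ Jr c := by
  unfold nVF
  rw [Nat.cast_mul]
  exact Ideal.mul_mem_right _ _ (Ideal.absNorm_mem _)

lemma nVF_mem' (c : ClassGroup (𝓞 K)) {F : Finset (Pr K)} {v : Pr K} (hv : v ∈ F) :
    ((nVF c F : ℕ) : 𝓞 K) ∈ v.asIdeal * Jr c := by
  classical
  unfold nVF
  rw [← mul_prod_erase F _ hv, ← mul_assoc, Nat.cast_mul, Nat.cast_mul, mul_comm
    ((Ideal.absNorm (Jr c) : ℕ) : 𝓞 K)]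
  exact Ideal.mul_mem_right _ _ (Ideal.mul_mem_mul (Ideal.absNorm_mem _) (Ideal.absNorm_mem _))

lemma vec_per {n : ℕ} {z w u : Fin m × Jx K → ℤ} (h : z - w = (n : ℤ) • u) (i : Fin m) :
    vec z i = vec w i + (n : 𝓞 K) * vec u i := by
  have h1 : vec (z - w) i = (n : 𝓞 K) * vec u i := by
    rw [h, vec_smul]
    simp
  rw [vec_sub, Pi.sub_apply] at h1
  rw [← h1]
  ring

lemma VF_per (c : ClassGroup (𝓞 K)) (F : Finset (Pr K)) :
    Per (nVF c F) fun z : Fin m × Jx K → ℤ => z ∈ VF c F := by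
  rintro z w ⟨u, hu⟩
  have h1 : ∀ (I : Ideal (𝓞 K)), ((nVF c F : ℕ) : 𝓞 K) ∈ I → ∀ i, (vec z i ∈ I ↔ vec w i ∈ I) := by
    intro I hI i
    rw [vec_per hu i]
    exact Ideal.add_mem_iff_left I (Ideal.mul_mem_right _ _ hI)
  simp only [VF, Set.mem_ofPred_eq, eq_iff_iff]
  refine and_congr (forall_congr' fun i => h1 _ (nVF_mem c F) i) ?_
  refine forall_congr' fun v => forall_congr' fun hv => ?_
  exact not_congr (forall_congr' fun i => h1 _ (nVF_mem' c hv) i)

lemma Vc_sub (c : ClassGroup (𝓞 K)) (F : Finset (Pr K)) :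
    (Vc c : Set (Fin m × Jx K → ℤ)) ⊆ VF c F := by
  intro z hz
  have hz' : idl (vec z) = Jr c := hz
  constructor
  · intro i
    rw [← hz']
    exact Ideal.subset_span ⟨i, rfl⟩
  · intro v _ h
    have h1 : Jr c ≤ v.asIdeal * Jr c := by
      conv_lhs => rw [← hz']
      rw [idl, Ideal.span_le]
      rintro _ ⟨i, rfl⟩
      exact h i
    have h2 : v.asIdeal * Jr c ∣ 1 * Jr c := by
      rw [one_mul]
      exact Ideal.dvd_iff_le.2 h1
    have h3 := (mul_dvd_mul_iff_right (Jr_ne c)).1 h2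
    exact v.isPrime.ne_top (by
      rw [← Ideal.one_eq_top]
      exact isUnit_iff_eq_one.1 (isUnit_of_dvd_one h3))

lemma VF_diff (c : ClassGroup (𝓞 K)) (F : Finset (Pr K)) (z : Fin m × Jx K → ℤ) (hz : z ∈ VF c F)
    (hz' : z ∉ Vc c) : ∃ v : Pr K, v ∉ F ∧ ∀ i, vec z i ∈ v.asIdeal := by
  have h1 := hz.1
  have h2 := hz.2
  have h3 : idl (vec z) ≤ Jr c := by
    unfold idl
    rw [Ideal.span_le]
    rintro _ ⟨i, rfl⟩
    exact h1 i
  obtain ⟨B, hB⟩ := Ideal.dvd_iff_le.2 h3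
  have hB1 : B ≠ ⊤ := by
    intro hBt
    apply hz'
    show idl (vec z) = Jr c
    rw [hB, hBt, Ideal.mul_top]
  obtain ⟨M, hM, hBM⟩ := Ideal.exists_le_maximal B hB1
  have hM0 : M ≠ ⊥ := Ring.ne_bot_of_isMaximal_of_not_isField hM (RingOfIntegers.not_isField K)
  set v : Pr K := ⟨M, hM.isPrime, hM0⟩ with hv
  have h4 : ∀ i, vec z i ∈ v.asIdeal * Jr c := by
    intro i
    have h5 : vec z i ∈ Jr c * B := by
      rw [← hB]
      exact Ideal.subset_span ⟨i, rfl⟩
    rw [mul_comm v.asIdeal]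
    exact Ideal.mul_mono_right (I := Jr c) hBM h5
  refine ⟨v, ?_, ?_⟩
  · intro hvF
    exact h2 v hvF h4
  · intro i
    have h6 : v.asIdeal * Jr c ≤ v.asIdeal := Ideal.mul_le_left
    exact h6 (h4 i)

end

end Pool.Agent.N906.EQ
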