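import Pool.Agent.N906.EQ.Prim

/-!
# Primitive vectors with additive local data are approximable by congruence conditions
-/

set_option autoImplicit false
set_option linter.unusedSectionVars false

namespace Pool.Agent.N906.EQ

open NumberField NumberField.InfinitePlace IsDedekindDomain Module Finset Filter Topology
  Pool.Agent.N852 Pool.Agent.H691R3 Pool.Agent.TH876.Loc

section

variable {K : Type} [Field K] [NumberField K] {m q : ℕ}

/-- the zeros of a linear form are few -/
theorem ed_zero (L : Fin m → 𝓞 K) (hL : L ≠ 0) (δ : ℝ) (hδ : 0 < δ) :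
    ED (fun z : Fin m × Jx K → ℤ => lf L (vec z) = 0) δ := by
  classical
  obtain ⟨i₀, hi₀⟩ := Function.ne_iff.1 hL
  have hi₀' : L i₀ ≠ 0 := hi₀
  set d := finrank ℚ K with hd
  have hd0 : 0 < d := finrank_pos (R := ℚ) (M := K)
  have h1 : ∀ᶠ Y : ℝ in atTop, (4 : ℝ) ^ (m * d) / δ ≤ Y := eventually_ge_atTop _
  filter_upwards [eventually_ge_atTop 1, h1] with Y hY hYδ S hS
  have hY0 : 0 < Y := by linarith
  have hp := pack S (fun p => if p.1 = i₀ then Y else 1)
    (fun p => by split_ifs; exacts [hY0, one_pos]) hY0.le (fun z hz => (hS z hz).2.1)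
    (by
      intro z hz z' hz' hlt
      have h2 : ∀ p : Fin m × Jx K, p.1 ≠ i₀ → z p = z' p := by
        intro p hp
        have h7 := hlt p
        simp only [if_neg hp] at h7
        have h8 : |((z p - z' p : ℤ) : ℝ)| < 1 := by
          push_cast
          exact h7
        rw [← Int.cast_abs] at h8
        have h9 : |z p - z' p| < 1 := by exact_mod_cast h8
        have h10 := Int.abs_lt_one_iff.1 h9
        omega
      have h5 : ∀ i, i ≠ i₀ → vec z i = vec z' i := by
        intro i hi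
        unfold vec
        exact sum_congr rfl fun j _ => by rw [h2 (i, j) hi]
      have h4 : lf L (vec z) = lf L (vec z') := by rw [(hS z hz).2.2, (hS z' hz').2.2]
      have h6 : vec z i₀ = vec z' i₀ := by
        unfold lf at h4
        rw [← add_sum_erase univ _ (mem_univ i₀), ← add_sum_erase univ _ (mem_univ i₀)] at h4
        have h7 : ∑ i ∈ univ.erase i₀, L i * vec z i = ∑ i ∈ univ.erase i₀, L i * vec z' i :=
          sum_congr rfl fun i hi => by rw [h5 i (ne_of_mem_erase hi)]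
        rw [h7] at h4
        exact mul_left_cancel₀ hi₀' (add_right_cancel h4)
      apply vec_inj
      funext i
      by_cases hi : i = i₀
      · rw [hi, h6]
      · exact h5 i hi)
  refine hp.trans ?_
  rw [Fintype.prod_prod_type]
  have h3 : ∀ i : Fin m, ∏ _j : Jx K, (2 * Y / (if i = i₀ then Y else 1) + 2) ≤
      if i = i₀ then (4 : ℝ) ^ d else (4 * Y) ^ d := by
    intro i
    rw [prod_const, card_univ, card_Jx, ← hd]
    by_cases hi : i = i₀
    · rw [if_pos hi, if_pos hi]
      refine pow_le_pow_left₀ (by positivity) ?_ _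
      rw [mul_div_assoc, div_self hY0.ne']
      norm_num
    · rw [if_neg hi, if_neg hi]
      refine pow_le_pow_left₀ (by positivity) ?_ _
      linarith
  have hm : m = (m - 1) + 1 := by
    have := i₀.2
    omega
  calc ∏ i : Fin m, ∏ j : Jx K, (2 * Y / (if (i, j).1 = i₀ then Y else 1) + 2)
      ≤ ∏ i : Fin m, if i = i₀ then (4 : ℝ) ^ d else (4 * Y) ^ d :=
        prod_le_prod (fun i _ => prod_nonneg fun j _ => by
          split_ifs <;> positivity) fun i _ => h3 i
    _ = (4 : ℝ) ^ d * ((4 * Y) ^ d) ^ (m - 1) := by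
        rw [← mul_prod_erase univ _ (mem_univ i₀), if_pos rfl]
        congr 1
        rw [prod_congr rfl (g := fun _ => (4 * Y) ^ d) fun i hi =>
          if_neg (ne_of_mem_erase hi), prod_const, card_erase_of_mem (mem_univ i₀), card_univ,
          Fintype.card_fin]
    _ = (4 : ℝ) ^ (m * d) * Y ^ (d * (m - 1)) := by
        rw [← pow_mul, mul_pow, ← mul_assoc, ← pow_add]
        congr 2
        conv_rhs => rw [hm]
        ring
    _ ≤ (δ * Y) * Y ^ (d * (m - 1)) := by
        refine mul_le_mul_of_nonneg_right ?_ (by positivity)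
        rw [div_le_iff₀ hδ] at hYδ
        linarith
    _ ≤ (δ * Y ^ d) * Y ^ (d * (m - 1)) := by
        refine mul_le_mul_of_nonneg_right ?_ (by positivity)
        exact mul_le_mul_of_nonneg_left (le_self_pow₀ hY hd0.ne') hδ.le
    _ = δ * Y ^ (Fintype.card (Fin m × Jx K)) := by
        rw [card_idx, ← hd, mul_assoc, ← pow_add]
        congr 2
        conv_rhs => rw [hm]
        ring

/-- the primitive vectors off the hyperplanes -/
def Vo (c : ClassGroup (𝓞 K)) (L : Fin q → Fin m → 𝓞 K) : Set (Fin m × Jx K → ℤ) :=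
  {z | z ∈ Vc c ∧ ∀ l, lf (L l) (vec z) ≠ 0}

/-- the local function at a finite place -/
noncomputable def locf (g : Pr K → ℝ → ℝ) (L : Fin q → Fin m → 𝓞 K) (v : Pr K)
    (z : Fin m × Jx K → ℤ) : ℝ :=
  ∑ l, g v (lamF v (kv (L l)) (kv (vec z)))

lemma exists_zero {z : Fin m × Jx K → ℤ} {L : Fin q → Fin m → 𝓞 K} {l : Fin q}
    (h : lf (L l) (vec z) ≠ 0) : lfK (kv (L l)) (kv (vec z)) ≠ 0 := by
  rw [lfK_kv]
  intro h1
  exact h (FaithfulSMul.algebraMap_injective (𝓞 K) K (h1.trans (map_zero _).symm))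

/-- two numbers close to each other at a finite place -/
lemma max_eq_of_close (v : Pr K) {a b : K} {M : ℝ} (h : fv v (a - b) ≤ M) :
    max (fv v a) M = max (fv v b) M := by
  have h1 : ∀ a b : K, fv v (a - b) ≤ M → fv v a ≤ max (fv v b) M := by
    intro a b h
    have h2 := fv_na v b (a - b)
    rw [add_sub_cancel] at h2
    exact h2.trans (max_le_max le_rfl h)
  apply le_antisymm
  · exact max_le (h1 a b h) (le_max_right _ _)
  · refine max_le (h1 b a ?_) (le_max_right _ _)
    rw [← neg_sub, (fv v).map_neg]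
    exact h

/-- **Primitive vectors with additive local data.** -/
theorem approx_class (hm : 2 ≤ m) (c : ClassGroup (𝓞 K)) (L : Fin q → Fin m → 𝓞 K)
    (hL : ∀ l, L l ≠ 0) (g : Pr K → ℝ → ℝ) (A : Finset (Pr K))
    (hg : ∀ v, v ∉ A → g v 0 = 0 ∧ g v (Real.log (Nv v)) = 0) :
    Approx (Vo c L) fun z => ∑ᶠ v, locf g L v z := by
  classical
  by_cases hne : (Vc c : Set (Fin m × Jx K → ℤ)).Nonempty
  swap
  · -- no primitive vectors
    rw [Set.not_nonempty_iff_eq_empty] at hne
    have hVo : Vo c L = (∅ : Set (Fin m × Jx K → ℤ)) := by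
      rw [Set.eq_empty_iff_forall_notMem]
      intro z hz
      have h1 := hz.1
      rw [hne] at h1
      exact h1
    rw [hVo]
    intro ε hε
    refine ⟨1, one_ne_zero, ∅, fun _ => 0, fun z w _ => ⟨Iff.rfl, rfl⟩, ?_⟩
    filter_upwards [eventually_ge_atTop 1] with Y hY S hS
    have : S = ∅ := by
      rw [eq_empty_iff_forall_notMem]
      intro z hz
      exact (hS z hz).2.2 ⟨Iff.rfl, fun h => absurd h (Set.notMem_empty z)⟩
    rw [this, card_empty, Nat.cast_zero]
    positivity
  obtain ⟨z₀, hz₀⟩ := hne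
  set κ : Pr K → ℝ := fun v => fN v (kv (vec z₀)) with hκ
  have hz₀ne : kv (vec z₀) ≠ 0 := kv_ne (vec_ne_zero.2 (ne_zero_of_mem hz₀))
  have hκpos : ∀ v, 0 < κ v := fun v => fN_pos v hz₀ne
  have hκle : ∀ v, κ v ≤ 1 := fun v => fN_le zero_le_one fun i => fv_le_one v _
  have hκeq : ∀ v (z : Fin m × Jx K → ℤ), z ∈ Vc c → fN v (kv (vec z)) = κ v :=
    fun v z hz => fN_eq_of_mem v hz hz₀
  have hLne : ∀ l, kv (L l) ≠ 0 := fun l => kv_ne (hL l)
  have hLle : ∀ v l, fN v (kv (L l)) ≤ 1 := fun v l => fN_le zero_le_one fun i => fv_le_one v _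
  have hLpos : ∀ v l, 0 < fN v (kv (L l)) := fun v l => fN_pos v (hLne l)
  -- constants
  obtain ⟨CQ, hCQ, hQ⟩ := ud_all K m
  choose CB hCB hB using fun l => ud_form (L l) (hL l)
  have hsum2 : Summable fun v : Pr K => ((Ideal.absNorm v.asIdeal : ℝ) ^ 2)⁻¹ := by
    have h1 := nm_summable (K := K) (x := 2) (by norm_num)
    refine h1.congr fun v => ?_
    rw [Real.rpow_neg (Nat.cast_nonneg _), ← Real.rpow_natCast]
    push_cast
    rfl
  have hN1 : ∀ v : Pr K, (1 : ℝ) ≤ Ideal.absNorm v.asIdeal := by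
    intro v
    have := two_le_nm v
    have h2 : (2 : ℝ) ≤ nm v := by exact_mod_cast this
    have h3 : (nm v : ℝ) = Ideal.absNorm v.asIdeal := rfl
    linarith
  have hA₀ : {v : Pr K | κ v ≠ 1 ∨ ∃ l, fN v (kv (L l)) ≠ 1}.Finite := by
    have h1 : {v : Pr K | κ v ≠ 1 ∨ ∃ l, fN v (kv (L l)) ≠ 1} =
        {v : Pr K | κ v ≠ 1} ∪ ⋃ l, {v : Pr K | fN v (kv (L l)) ≠ 1} := by
      ext v
      simp
    rw [h1]
    exact (fN_finite hz₀ne).union (Set.finite_iUnion fun l => fN_finite (hLne l))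
  -- the union over the forms
  have hUDor : ∀ (I : Ideal (𝓞 K)), I ≠ ⊥ → UD (fun z : Fin m × Jx K → ℤ =>
      ∃ l, lf (L l) (vec z) ∈ I ∧ lf (L l) (vec z) ≠ 0) ((∑ l, CB l) / Ideal.absNorm I) := by
    intro I hI
    have h1 := UD.exists (P := fun (l : Fin q) (z : Fin m × Jx K → ℤ) => lf (L l) (vec z) ∈ I ∧
      lf (L l) (vec z) ≠ 0) (ε := fun l => CB l / Ideal.absNorm I) (hasSum_fintype _).summable
      (fun l => div_nonneg (hCB l).le (Nat.cast_nonneg _)) (fun l => hB l I hI)
    rw [tsum_fintype, ← sum_div] at h1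
    exact h1
  refine approx_local (V := Vc c) (VF c) (nVF c) (nVF_ne c) (VF_per c) (Vc_sub c)
    (Q := fun v z => ∀ i, vec z i ∈ v.asIdeal)
    (εQ := fun v => CQ / (Ideal.absNorm v.asIdeal : ℝ) ^ m) ?_ ?_ ?_ (fun F z => VF_diff c F z)
    (V₁ := Vo c L) (fun z hz => hz.1) ?_
    (loc := locf g L) (bad := fun v z => ∃ l, lf (L l) (vec z) ∈ v.asIdeal ^ 2 ∧
      lf (L l) (vec z) ≠ 0) (εB := fun v => (∑ l, CB l) / (Ideal.absNorm v.asIdeal : ℝ) ^ 2)
    ?_ ?_ ?_ (A ∪ hA₀.toFinset) ?_ ?_ (fun z _ => rfl)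
  · -- summability
    refine Summable.of_nonneg_of_le (fun v => by positivity) (fun v => ?_) (hsum2.mul_left CQ)
    rw [← div_eq_mul_inv]
    refine div_le_div_of_nonneg_left hCQ.le (by have := hN1 v; positivity) ?_
    exact pow_le_pow_right₀ (hN1 v) hm
  · intro v
    positivity
  · intro v
    exact hQ v.asIdeal v.ne_bot
  · -- zeros
    intro δ hδ
    have h1 : ∀ G : Finset (Fin q), ED (fun z : Fin m × Jx K → ℤ => ∃ l ∈ G, lf (L l) (vec z) = 0)
        (G.card * (δ / (q + 1))) := by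
      intro G
      induction G using Finset.induction_on with
      | empty =>
        rw [card_empty, Nat.cast_zero, zero_mul]
        refine Eventually.of_forall fun Y S hS => ?_
        rw [zero_mul]
        rcases S.eq_empty_or_nonempty with h | ⟨z, hz⟩
        · rw [h, card_empty, Nat.cast_zero]
        · obtain ⟨a, ha, -⟩ := (hS z hz).2.2
          exact absurd ha (notMem_empty a)
      | insert a G ha ih =>
        rw [card_insert_of_notMem ha]
        refine ((ed_zero (L a) (hL a) (δ / (q + 1)) (by positivity)).or ih).mono ?_ |>.mono_eps ?_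
        · intro z _ hz
          obtain ⟨b, hb, h⟩ := hz
          rcases mem_insert.1 hb with rfl | hb
          · exact Or.inl h
          · exact Or.inr ⟨b, hb, h⟩
        · push_cast
          linarith
    refine (h1 univ).mono ?_ |>.mono_eps ?_
    · rintro z _ ⟨h2, h3⟩
      by_contra h4
      push Not at h4
      exact h3 ⟨h2, fun l => h4 l (mem_univ l)⟩
    · rw [card_univ, Fintype.card_fin, mul_div_assoc', div_le_iff₀ (by positivity)]
      nlinarith
  · have h1 := hsum2.mul_left (∑ l, CB l)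
    exact h1.congr fun v => (div_eq_mul_inv _ _).symm
  · intro v
    exact div_nonneg (sum_nonneg fun l _ => (hCB l).le) (by positivity)
  · intro v
    have h1 := hUDor (v.asIdeal ^ 2) (pow_ne_zero 2 v.ne_bot)
    rw [map_pow, Nat.cast_pow] at h1
    exact h1
  · -- large places
    intro v hv z hz hloc
    rw [mem_union, not_or, Set.Finite.mem_toFinset] at hv
    obtain ⟨hv1, hv2⟩ := hv
    simp only [Set.mem_ofPred_eq, not_or, not_exists, not_not] at hv2
    obtain ⟨g0, g1⟩ := hg v hv1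
    obtain ⟨l, -, hl⟩ := exists_ne_zero_of_sum_ne_zero hloc
    refine ⟨l, ?_, hz.2 l⟩
    obtain ⟨n, hn1, hn2⟩ := lamF_discrete v (exists_zero (hz.2 l))
    rw [hκeq v z hz.1, hv2.1, hv2.2 l, one_mul, lfK_kv] at hn2
    have hn0 : n ≠ 0 := by
      rintro rfl
      rw [Nat.cast_zero, zero_mul] at hn1
      rw [hn1, g0] at hl
      exact hl rfl
    have hn1' : n ≠ 1 := by
      rintro rfl
      rw [Nat.cast_one, one_mul] at hn1
      rw [hn1, g1] at hl
      exact hl rfl
    apply mem_pow_of_fv_le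
    have h3 : fv v (lf (L l) (vec z) : K) = (Nv v)⁻¹ ^ n := by
      have hp : (Nv v) ^ n ≠ 0 := pow_ne_zero _ (Nv_pos v).ne'
      rw [inv_pow, ← one_mul ((Nv v ^ n)⁻¹), ← div_eq_mul_inv, eq_div_iff hp, mul_comm]
      exact hn2.symm
    rw [h3]
    refine pow_le_pow_of_le_one (inv_nonneg.2 (Nv_pos v).le) (inv_le_one_of_one_le₀ (Nv_gt v).le) ?_
    omega
  · -- a fixed place
    intro v δ hδ
    obtain ⟨k, hk⟩ : ∃ k : ℕ, (∑ l, CB l) / (Ideal.absNorm v.asIdeal : ℝ) ^ k ≤ δ := by
      have h1 : Tendsto (fun k : ℕ => (∑ l, CB l) * ((Ideal.absNorm v.asIdeal : ℝ)⁻¹) ^ k) atTop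
          (𝓝 ((∑ l, CB l) * 0)) := by
        refine Tendsto.const_mul _ (tendsto_pow_atTop_nhds_zero_of_lt_one (by positivity) ?_)
        exact inv_lt_one_of_one_lt₀ (Nv_gt v)
      rw [mul_zero] at h1
      obtain ⟨k, hk⟩ := (h1.eventually (ge_mem_nhds hδ)).exists
      refine ⟨k, ?_⟩
      rw [div_eq_mul_inv, ← inv_pow]
      exact hk
    obtain ⟨j, hj⟩ : ∃ j : ℕ, (Nv v)⁻¹ ^ j ≤ κ v := by
      have h1 : Tendsto (fun j : ℕ => (Nv v)⁻¹ ^ j) atTop (𝓝 0) :=
        tendsto_pow_atTop_nhds_zero_of_lt_one (inv_nonneg.2 (Nv_pos v).le)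
          (inv_lt_one_of_one_lt₀ (Nv_gt v))
      exact (h1.eventually (ge_mem_nhds (hκpos v))).exists
    set n : ℕ := (Ideal.absNorm v.asIdeal) ^ (j + k) with hn
    have hnv : fv v ((n : ℕ) : K) ≤ κ v * (Nv v)⁻¹ ^ k := by
      have h1 : fv v (((Ideal.absNorm v.asIdeal : ℕ) : 𝓞 K) : K) ≤ (Nv v)⁻¹ :=
        fv_le_inv v (Ideal.absNorm_mem _)
      have h2 : (((Ideal.absNorm v.asIdeal : ℕ) : 𝓞 K) : K) =
          ((Ideal.absNorm v.asIdeal : ℕ) : K) := map_natCast (algebraMap (𝓞 K) K) _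
      rw [h2] at h1
      rw [hn, Nat.cast_pow, map_pow]
      calc fv v ((Ideal.absNorm v.asIdeal : ℕ) : K) ^ (j + k) ≤ (Nv v)⁻¹ ^ (j + k) :=
            pow_le_pow_left₀ ((fv v).nonneg _) h1 _
        _ = (Nv v)⁻¹ ^ j * (Nv v)⁻¹ ^ k := pow_add _ _ _
        _ ≤ _ := mul_le_mul_of_nonneg_right hj (pow_nonneg (inv_nonneg.2 (Nv_pos v).le) _)
    refine ⟨n, fun z => ∑ l, g v (Real.log (κ v * fN v (kv (L l)) /
      max (fv v (lfK (kv (L l)) (kv (vec z)))) (κ v * fN v (kv (L l)) * (Nv v)⁻¹ ^ k))),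
      pow_ne_zero _ (nm_ne_zero v), ?_, ?_⟩
    · rintro z w ⟨u, hu⟩
      refine sum_congr rfl fun l _ => ?_
      rw [max_eq_of_close v (a := lfK (kv (L l)) (kv (vec z))) (b := lfK (kv (L l)) (kv (vec w)))]
      have h1 : lfK (kv (L l)) (kv (vec z)) - lfK (kv (L l)) (kv (vec w)) =
          ((n : ℕ) : K) * lfK (kv (L l)) (kv (vec u)) := by
        rw [lfK_kv, lfK_kv, lfK_kv]
        have h2 : lf (L l) (vec z) = lf (L l) (vec w) + (n : 𝓞 K) * lf (L l) (vec u) := by
          unfold lf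
          rw [mul_sum, ← sum_add_distrib]
          refine sum_congr rfl fun i _ => ?_
          rw [vec_per hu i]
          ring
        rw [h2]
        show algebraMap (𝓞 K) K _ - algebraMap (𝓞 K) K _ = _
        rw [map_add, map_mul, map_natCast]
        ring
      rw [h1, map_mul]
      have h3 : fv v (lfK (kv (L l)) (kv (vec u))) ≤ fN v (kv (L l)) := by
        refine (fv_lfK_le v _ _).trans ?_
        exact mul_le_of_le_one_right (fN_nonneg _ _) (fN_le zero_le_one fun i => fv_le_one v _)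
      calc fv v ((n : ℕ) : K) * fv v (lfK (kv (L l)) (kv (vec u)))
          ≤ (κ v * (Nv v)⁻¹ ^ k) * fN v (kv (L l)) :=
            mul_le_mul hnv h3 ((fv v).nonneg _) (mul_nonneg (hκpos v).le
              (pow_nonneg (inv_nonneg.2 (Nv_pos v).le) _))
        _ = _ := by ring
    · have h1 := (hUDor (v.asIdeal ^ k) (pow_ne_zero k v.ne_bot)).ed
      rw [map_pow, Nat.cast_pow] at h1
      refine (h1.mono ?_).mono_eps hk
      rintro z _ ⟨hz, hne⟩
      by_contra hcon
      push Not at hcon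
      apply hne
      unfold locf
      refine sum_congr rfl fun l _ => ?_
      have h2 : κ v * fN v (kv (L l)) * (Nv v)⁻¹ ^ k ≤ fv v (lfK (kv (L l)) (kv (vec z))) := by
        by_contra h3
        rw [not_le] at h3
        apply hz.2 l
        apply hcon l
        apply mem_pow_of_fv_le
        rw [← lfK_kv]
        refine h3.le.trans ?_
        refine mul_le_of_le_one_left (pow_nonneg (inv_nonneg.2 (Nv_pos v).le) _) ?_
        exact mul_le_one₀ (hκle v) (hLpos v l).le (hLle v l)
      rw [max_eq_left h2]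
      unfold lamF
      rw [hκeq v z hz.1]

end

end Pool.Agent.N906.EQ
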