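import Pool.Agent.N852.Riem

/-!
# Sums over lattice points: convergence of the normalised sums

Riemann sums over residue classes, and over sets of integral vectors which can be approximated by
congruence conditions.
-/

set_option autoImplicit false

namespace Pool.Agent.N906.EQ

open Filter Topology MeasureTheory Pool.Agent.N852

variable {ι : Type} [Fintype ι]

theorem unif {F : (ι → ℝ) → ℝ} (hF : Continuous F) {R : ℝ} (hR : ∀ w, R < ‖w‖ → F w = 0) :
    UniformContinuous F := by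
  have h : HasCompactSupport F := by
    refine HasCompactSupport.intro (K := Metric.closedBall 0 R) (isCompact_closedBall 0 R) ?_
    intro x hx
    apply hR
    rw [Metric.mem_closedBall, dist_zero_right, not_le] at hx
    exact hx
  exact h.uniformContinuous_of_continuous hF

/-- the modulus of continuity at scale `Y` -/
theorem modulus {F : (ι → ℝ) → ℝ} (hF : Continuous F) {R : ℝ} (hR : ∀ w, R < ‖w‖ → F w = 0)
    (A : ℝ) {η : ℝ} (hη : 0 < η) : ∃ Y₀ : ℝ, 1 ≤ Y₀ ∧ ∀ Y : ℝ, Y₀ ≤ Y →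
      ∀ w w', ‖w - w'‖ ≤ A / Y → |F w - F w'| ≤ η := by
  obtain ⟨δ, hδ, h⟩ := Metric.uniformContinuous_iff.1 (unif hF hR) η hη
  refine ⟨max 1 (|A| / (δ / 2)), le_max_left _ _, fun Y hY w w' hw => ?_⟩
  have hY0 : 0 < Y := lt_of_lt_of_le one_pos ((le_max_left _ _).trans hY)
  have h1 : |A| / (δ / 2) ≤ Y := (le_max_right _ _).trans hY
  have h2 : dist w w' < δ := by
    rw [dist_eq_norm]
    have h3 : A / Y ≤ δ / 2 := by
      rw [div_le_iff₀ hY0]
      rw [div_le_iff₀ (by positivity)] at h1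
      have := le_abs_self A
      linarith
    linarith
  have h4 := h h2
  rw [Real.dist_eq] at h4
  exact h4.le

/-- Riemann sums. -/
theorem riem_tendsto {F : (ι → ℝ) → ℝ} (hF : Continuous F) {R : ℝ} (hR0 : 0 ≤ R)
    (hR : ∀ w, R < ‖w‖ → F w = 0) :
    Tendsto (fun Y : ℝ => (∑' z : ι → ℤ, F (Y⁻¹ • ic z)) / Y ^ (Fintype.card ι)) atTop
      (𝓝 (∫ x, F x)) := by
  classical
  rw [Metric.tendsto_atTop]
  intro ε hε
  set A : ℝ := (2 * R + 4 * Fintype.card ι + 1) ^ (Fintype.card ι) with hA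
  have hA0 : 0 < A := by positivity
  obtain ⟨Y₀, hY₀, h⟩ := modulus hF hR (2 * Fintype.card ι) (η := ε / 2 / A) (by positivity)
  refine ⟨Y₀, fun Y hY => ?_⟩
  have hY1 : 1 ≤ Y := hY₀.trans hY
  have hY0 : 0 < Y := by linarith
  have h1 := riem_err F hF R (ε / 2 / A) Y hR0 (by positivity) hY1 hR (h Y hY)
  rw [mul_pow, ← hA] at h1
  have h2 : ε / 2 / A * (A * Y ^ Fintype.card ι) = ε / 2 * Y ^ Fintype.card ι := by
    field_simp
  rw [h2] at h1
  have hp : 0 < Y ^ Fintype.card ι := by positivity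
  rw [Real.dist_eq]
  have h3 : (∑' z : ι → ℤ, F (Y⁻¹ • ic z)) / Y ^ (Fintype.card ι) - ∫ x, F x =
      (∑' z : ι → ℤ, F (Y⁻¹ • ic z) - Y ^ (Fintype.card ι) * ∫ x, F x) / Y ^ (Fintype.card ι) := by
    field_simp
  rw [h3, abs_div, abs_of_pos hp, div_lt_iff₀ hp]
  nlinarith

open Classical in
/-- Riemann sums over a residue class. -/
theorem coset_tendsto {F : (ι → ℝ) → ℝ} (hF : Continuous F) {R : ℝ} (hR0 : 0 ≤ R)
    (hR : ∀ w, R < ‖w‖ → F w = 0) (n : ℕ) (hn : n ≠ 0) (c : ι → ℤ) :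
    Tendsto (fun Y : ℝ => (∑' z : ι → ℤ, (if ∃ w : ι → ℤ, z - c = (n : ℤ) • w then
      F (Y⁻¹ • ic z) else 0)) / Y ^ (Fintype.card ι)) atTop
      (𝓝 (((n : ℝ) ^ (Fintype.card ι))⁻¹ * ∫ x, F x)) := by
  have hn0 : (0 : ℝ) < n := by exact_mod_cast Nat.pos_of_ne_zero hn
  have hnp : (0 : ℝ) < (n : ℝ) ^ (Fintype.card ι) := by positivity
  have h0 := riem_tendsto hF hR0 hR
  set r := Fintype.card ι with hr
  -- the difference tends to zero
  have hd : Tendsto (fun Y : ℝ => ((n : ℝ) ^ r * (∑' z : ι → ℤ, (if ∃ w : ι → ℤ, z - c = (n : ℤ) • w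
      then F (Y⁻¹ • ic z) else 0)) - ∑' z : ι → ℤ, F (Y⁻¹ • ic z)) / Y ^ r) atTop (𝓝 0) := by
    rw [Metric.tendsto_atTop]
    intro ε hε
    set A : ℝ := (2 * (R + 2 * (r * n)) + 1) ^ r with hA
    have hA0 : 0 < A := by positivity
    obtain ⟨Y₀, hY₀, h⟩ := modulus hF hR (2 * (r * n)) (η := ε / 2 / A) (by positivity)
    refine ⟨Y₀, fun Y hY => ?_⟩
    have hY1 : 1 ≤ Y := hY₀.trans hY
    have hY0 : 0 < Y := by linarith
    have h1 := mul_coset_sum n hn F R Y (ε / 2 / A) hR0 hY0 (by positivity) hR (h Y hY) c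
    have h2 : ε / 2 / A * (2 * (R * Y + 2 * (r * n)) + 1) ^ r ≤ ε / 2 * Y ^ r := by
      have h3 : (2 * (R * Y + 2 * (r * n)) + 1) ^ r ≤ A * Y ^ r := by
        rw [hA, ← mul_pow]
        refine pow_le_pow_left₀ (by positivity) ?_ _
        have : (r : ℝ) * n ≤ r * n * Y := le_mul_of_one_le_right (by positivity) hY1
        nlinarith
      calc ε / 2 / A * (2 * (R * Y + 2 * (r * n)) + 1) ^ r ≤ ε / 2 / A * (A * Y ^ r) := by gcongr
        _ = _ := by field_simp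
    have hp : 0 < Y ^ r := by positivity
    rw [Real.dist_eq, sub_zero, abs_div, abs_of_pos hp, div_lt_iff₀ hp]
    refine lt_of_le_of_lt (h1.trans h2) ?_
    nlinarith
  have h3 := (hd.add h0).const_mul (((n : ℝ) ^ r)⁻¹)
  rw [zero_add] at h3
  refine h3.congr fun Y => ?_
  rw [← add_div, sub_add_cancel, mul_div_assoc', inv_mul_cancel_left₀ hnp.ne']

open Classical in
/-- the set `V` and the function `e` on it are determined by congruence conditions up to a small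
proportion of the integral vectors -/
def Approx (V : Set (ι → ℤ)) (e : (ι → ℤ) → ℝ) : Prop :=
  ∀ ε : ℝ, 0 < ε → ∃ n : ℕ, n ≠ 0 ∧ ∃ (V' : Set (ι → ℤ)) (ξ : (ι → ℤ) → ℝ),
    (∀ z w : ι → ℤ, (∃ u : ι → ℤ, z - w = (n : ℤ) • u) → ((z ∈ V' ↔ w ∈ V') ∧ ξ z = ξ w)) ∧
    ∀ᶠ Y : ℝ in atTop, ∀ S : Finset (ι → ℤ),
      (∀ z ∈ S, z ≠ 0 ∧ ‖ic z‖ ≤ Y ∧ ¬ ((z ∈ V ↔ z ∈ V') ∧ (z ∈ V → e z = ξ z))) →
      (S.card : ℝ) ≤ ε * Y ^ (Fintype.card ι)

/-- residues -/
def res (n : ℕ) (z : ι → ℤ) : ι → ℤ := fun i => z i % n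

omit [Fintype ι] in
theorem res_iff {n : ℕ} {z w : ι → ℤ} :
    (∃ u : ι → ℤ, z - w = (n : ℤ) • u) ↔ res n z = res n w := by
  constructor
  · rintro ⟨u, hu⟩
    funext i
    have h1 : z i - w i = n * u i := by
      have := congrFun hu i
      simpa using this
    exact (Int.emod_emod_of_dvd (z i) dvd_rfl).symm.trans
      ((Int.emod_emod_of_dvd (z i) dvd_rfl).trans
        (Int.emod_eq_emod_iff_emod_sub_eq_zero.2 (by rw [h1]; exact Int.mul_emod_right _ _)))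
  · intro h
    have h1 : ∀ i, ∃ u : ℤ, z i - w i = n * u := by
      intro i
      have h2 := congrFun h i
      have h3 := Int.emod_eq_emod_iff_emod_sub_eq_zero.1 h2
      exact Int.dvd_of_emod_eq_zero h3
    choose u hu using h1
    exact ⟨u, funext fun i => by simpa using hu i⟩

open Classical in
/-- sums over a set which is a union of residue classes -/
theorem periodic_tendsto {F : ℝ → (ι → ℝ) → ℝ} {R : ℝ} (hR0 : 0 ≤ R)
    (hF : ∀ s, Continuous (F s)) (hR : ∀ s w, R < ‖w‖ → F s w = 0) {n : ℕ} (hn : n ≠ 0)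
    {V' : Set (ι → ℤ)} {ξ : (ι → ℤ) → ℝ}
    (hper : ∀ z w : ι → ℤ, (∃ u : ι → ℤ, z - w = (n : ℤ) • u) → ((z ∈ V' ↔ w ∈ V') ∧ ξ z = ξ w)) :
    ∃ L : ℝ, Tendsto (fun Y : ℝ => (∑' z : ι → ℤ, (if z ∈ V' then F (ξ z) (Y⁻¹ • ic z) else 0)) /
      Y ^ (Fintype.card ι)) atTop (𝓝 L) := by
  set Bx : Finset (ι → ℤ) := Fintype.piFinset fun _ : ι => Finset.Ico (0 : ℤ) n with hBx
  have hmem : ∀ z : ι → ℤ, res n z ∈ Bx := by
    intro z
    rw [hBx, Fintype.mem_piFinset]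
    intro i
    rw [Finset.mem_Ico]
    exact ⟨Int.emod_nonneg _ (by exact_mod_cast hn), Int.emod_lt_of_pos _ (by omega)⟩
  have hself : ∀ r ∈ Bx, res n r = r := by
    intro r hr
    rw [hBx, Fintype.mem_piFinset] at hr
    funext i
    have := Finset.mem_Ico.1 (hr i)
    exact Int.emod_eq_of_lt this.1 this.2
  have hsplit : ∀ Y : ℝ, 0 < Y → (∑' z : ι → ℤ, (if z ∈ V' then F (ξ z) (Y⁻¹ • ic z) else 0)) =
      ∑ r ∈ Bx, (if r ∈ V' then ∑' z : ι → ℤ, (if ∃ w : ι → ℤ, z - r = (n : ℤ) • w then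
        F (ξ r) (Y⁻¹ • ic z) else 0) else 0) := by
    intro Y hY
    have h1 : ∀ z : ι → ℤ, (if z ∈ V' then F (ξ z) (Y⁻¹ • ic z) else 0) =
        ∑ r ∈ Bx, (if r ∈ V' then (if ∃ w : ι → ℤ, z - r = (n : ℤ) • w then
          F (ξ r) (Y⁻¹ • ic z) else 0) else 0) := by
      intro z
      rw [Finset.sum_eq_single_of_mem (res n z) (hmem z)]
      · have h2 : ∃ w : ι → ℤ, z - res n z = (n : ℤ) • w := by
          rw [res_iff, hself _ (hmem z)]
        obtain ⟨h3, h4⟩ := hper z (res n z) h2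
        rw [if_pos h2, ← h4]
        by_cases h : z ∈ V'
        · rw [if_pos h, if_pos (h3.1 h)]
        · rw [if_neg h, if_neg (fun h' => h (h3.2 h'))]
      · intro r hr hne
        rw [if_neg (show ¬ ∃ w : ι → ℤ, z - r = (n : ℤ) • w from ?_)]
        · split_ifs <;> rfl
        · rw [res_iff, hself r hr]
          exact fun h => hne h.symm
    simp_rw [h1]
    rw [Summable.tsum_finsetSum]
    · refine Finset.sum_congr rfl fun r _ => ?_
      split_ifs
      · rfl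
      · exact tsum_zero
    · intro r _
      apply summable_of_box (R * Y)
      intro z hz
      have h2 : F (ξ r) (Y⁻¹ • ic z) = 0 := by
        apply hR
        rw [norm_smul, norm_inv, Real.norm_of_nonneg hY.le, lt_inv_mul_iff₀ hY]
        linarith
      rw [h2]
      split_ifs <;> rfl
  refine ⟨∑ r ∈ Bx, (if r ∈ V' then ((n : ℝ) ^ (Fintype.card ι))⁻¹ * ∫ x, F (ξ r) x else 0), ?_⟩
  have h1 : Tendsto (fun Y : ℝ => ∑ r ∈ Bx, (if r ∈ V' then (∑' z : ι → ℤ,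
      (if ∃ w : ι → ℤ, z - r = (n : ℤ) • w then F (ξ r) (Y⁻¹ • ic z) else 0)) /
        Y ^ (Fintype.card ι) else 0)) atTop
      (𝓝 (∑ r ∈ Bx, (if r ∈ V' then ((n : ℝ) ^ (Fintype.card ι))⁻¹ * ∫ x, F (ξ r) x else 0))) := by
    refine tendsto_finsetSum _ fun r _ => ?_
    split_ifs
    · exact coset_tendsto (hF _) hR0 (hR _) n hn r
    · exact tendsto_const_nhds
  refine h1.congr' ?_
  filter_upwards [eventually_gt_atTop 0] with Y hY
  rw [hsplit Y hY, Finset.sum_div]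
  refine Finset.sum_congr rfl fun r _ => ?_
  split_ifs
  · rfl
  · rw [zero_div]

/-- a function which is uniformly approximated by convergent functions converges -/
theorem tendsto_of_approx {g : ℝ → ℝ}
    (h : ∀ ε : ℝ, 0 < ε → ∃ g' : ℝ → ℝ, (∃ L, Tendsto g' atTop (𝓝 L)) ∧
      ∀ᶠ Y in atTop, |g Y - g' Y| ≤ ε) : ∃ L : ℝ, Tendsto g atTop (𝓝 L) := by
  apply cauchy_map_iff_exists_tendsto.1
  rw [Metric.cauchy_iff]
  refine ⟨inferInstance, fun ε hε => ?_⟩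
  obtain ⟨g', ⟨L, hL⟩, hg⟩ := h (ε / 5) (by positivity)
  have h1 : ∀ᶠ Y in atTop, |g' Y - L| < ε / 5 := by
    have := (Metric.tendsto_nhds.1 hL) (ε / 5) (by positivity)
    simpa [Real.dist_eq] using this
  refine ⟨g '' {Y | |g Y - g' Y| ≤ ε / 5 ∧ |g' Y - L| < ε / 5}, ?_, ?_⟩
  · rw [mem_map]
    filter_upwards [hg, h1] with Y hY1 hY2
    exact ⟨Y, ⟨hY1, hY2⟩, rfl⟩
  · rintro _ ⟨Y, ⟨h2, h3⟩, rfl⟩ _ ⟨Y', ⟨h4, h5⟩, rfl⟩
    rw [Real.dist_eq]
    rw [abs_le] at h2 h4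
    rw [abs_lt] at h3 h5 ⊢
    constructor <;> linarith [h2.1, h2.2, h3.1, h3.2, h4.1, h4.2, h5.1, h5.2]

open Classical in
/-- **The engine.** -/
theorem engine {V : Set (ι → ℤ)} {e : (ι → ℤ) → ℝ} (hA : Approx V e) {F : ℝ → (ι → ℝ) → ℝ}
    {C R : ℝ} (hC0 : 0 ≤ C) (hR0 : 0 < R) (hF : ∀ s, Continuous (F s)) (hC : ∀ s w, |F s w| ≤ C)
    (hR : ∀ s w, R < ‖w‖ → F s w = 0) (h0 : ∀ s, F s 0 = 0) :
    ∃ L : ℝ, Tendsto (fun Y : ℝ => (∑' z : ι → ℤ, (if z ∈ V then F (e z) (Y⁻¹ • ic z) else 0)) /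
      Y ^ (Fintype.card ι)) atTop (𝓝 L) := by
  apply tendsto_of_approx
  intro ε hε
  set r := Fintype.card ι with hr
  set δ : ℝ := ε / ((2 * C + 1) * (R + 1) ^ r) with hδ
  have hδ0 : 0 < δ := by positivity
  obtain ⟨n, hn, V', ξ, hper, hS⟩ := hA δ hδ0
  refine ⟨_, periodic_tendsto (F := F) hR0.le hF hR hn hper, ?_⟩
  have hS' : ∀ᶠ Y : ℝ in atTop, ∀ S : Finset (ι → ℤ),
      (∀ z ∈ S, z ≠ 0 ∧ ‖ic z‖ ≤ R * Y ∧ ¬ ((z ∈ V ↔ z ∈ V') ∧ (z ∈ V → e z = ξ z))) →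
      (S.card : ℝ) ≤ δ * (R * Y) ^ (Fintype.card ι) :=
    (tendsto_id.const_mul_atTop hR0).eventually hS
  filter_upwards [eventually_ge_atTop 1, hS'] with Y hY hSY
  have hY0 : 0 < Y := by linarith
  have hbox : ∀ s (z : ι → ℤ), R * Y < ‖ic z‖ → F s (Y⁻¹ • ic z) = 0 := by
    intro s z hz
    apply hR
    rw [norm_smul, norm_inv, Real.norm_of_nonneg hY0.le, lt_inv_mul_iff₀ hY0]
    linarith
  have hs1 : Summable fun z : ι → ℤ => (if z ∈ V then F (e z) (Y⁻¹ • ic z) else 0) := by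
    apply summable_of_box (R * Y)
    intro z hz
    rw [hbox _ z hz]
    split_ifs <;> rfl
  have hs2 : Summable fun z : ι → ℤ => (if z ∈ V' then F (ξ z) (Y⁻¹ • ic z) else 0) := by
    apply summable_of_box (R * Y)
    intro z hz
    rw [hbox _ z hz]
    split_ifs <;> rfl
  rw [← sub_div, ← hs1.tsum_sub hs2]
  -- the bad vectors
  have hfin : {z : ι → ℤ | ‖ic z‖ ≤ R * Y}.Finite := finite_box (R * Y)
  set S : Finset (ι → ℤ) := hfin.toFinset.filter fun z =>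
    z ≠ 0 ∧ ¬ ((z ∈ V ↔ z ∈ V') ∧ (z ∈ V → e z = ξ z)) with hSdef
  have hzero : ∀ z ∉ S, (if z ∈ V then F (e z) (Y⁻¹ • ic z) else 0) -
      (if z ∈ V' then F (ξ z) (Y⁻¹ • ic z) else 0) = 0 := by
    intro z hz
    by_cases h1 : ‖ic z‖ ≤ R * Y
    · by_cases h2 : z = 0
      · have h3 : Y⁻¹ • ic z = 0 := by
          rw [h2]
          have : ic (0 : ι → ℤ) = 0 := by
            funext k
            simp [ic]
          rw [this, smul_zero]
        rw [h3, h0, h0]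
        split_ifs <;> simp
      · have h3 : (z ∈ V ↔ z ∈ V') ∧ (z ∈ V → e z = ξ z) := by
          by_contra h4
          exact hz (Finset.mem_filter.2 ⟨hfin.mem_toFinset.2 h1, h2, h4⟩)
        by_cases h4 : z ∈ V
        · rw [if_pos h4, if_pos (h3.1.1 h4), h3.2 h4, sub_self]
        · rw [if_neg h4, if_neg (fun h => h4 (h3.1.2 h)), sub_self]
    · rw [not_le] at h1
      rw [hbox _ z h1, hbox _ z h1]
      split_ifs <;> simp
  rw [tsum_eq_sum (s := S) (fun z hz => hzero z hz)]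
  have hcard := hSY S (by
    intro z hz
    obtain ⟨h1, h2, h3⟩ := Finset.mem_filter.1 hz
    exact ⟨h2, hfin.mem_toFinset.1 h1, h3⟩)
  have hmax : R * Y ≤ (R + 1) * Y := by nlinarith
  have hp : 0 < Y ^ r := by positivity
  rw [abs_div, abs_of_pos hp, div_le_iff₀ hp]
  calc |∑ z ∈ S, ((if z ∈ V then F (e z) (Y⁻¹ • ic z) else 0) -
      (if z ∈ V' then F (ξ z) (Y⁻¹ • ic z) else 0))|
      ≤ ∑ z ∈ S, (2 * C) := by
        refine (Finset.abs_sum_le_sum_abs _ _).trans (Finset.sum_le_sum fun z _ => ?_)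
        have hb : ∀ s w (p : Prop), |if p then F s w else 0| ≤ C := by
          intro s w p
          split_ifs
          · exact hC s w
          · rw [abs_zero]; exact hC0
        refine (abs_sub _ _).trans ?_
        have g1 := hb (e z) (Y⁻¹ • ic z) (z ∈ V)
        have g2 := hb (ξ z) (Y⁻¹ • ic z) (z ∈ V')
        linarith
    _ = S.card * (2 * C) := by rw [Finset.sum_const, nsmul_eq_mul]
    _ ≤ (δ * ((R + 1) * Y) ^ r) * (2 * C + 1) := by
        refine mul_le_mul (hcard.trans ?_) (by linarith) (by positivity) (by positivity)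
        gcongr
    _ = ε * Y ^ r := by
        rw [hδ, mul_pow]
        field_simp

end Pool.Agent.N906.EQ
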