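import Pool.Agent.N906.EQ.Hgt
import Pool.Agent.N906.EQ.Prim2

/-!
# Smooth averages over the points of projective space converge
-/

set_option autoImplicit false
set_option linter.unusedSectionVars false

namespace Pool.Agent.N906.EQ

open NumberField NumberField.InfinitePlace IsDedekindDomain Module Finset Filter Topology
  Pool.Agent.N852 Pool.Agent.H691R3 Pool.Agent.TH876.Loc

section

variable {K : Type} [Field K] [NumberField K] {m q : ℕ}

/-- the sup norm of a vector at an infinite place -/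
noncomputable def iN (w : InfinitePlace K) (x : Fin m → K) : ℝ := ‖fun i => w (x i)‖

lemma iN_pos (w : InfinitePlace K) {x : Fin m → K} (hx : x ≠ 0) : 0 < iN w x := by
  unfold iN
  rw [norm_pos_iff]
  intro h
  apply hx
  funext i
  have h1 : w (x i) = 0 := congrFun h i
  rwa [map_eq_zero] at h1

lemma iN_smul (w : InfinitePlace K) (t : K) (x : Fin m → K) : iN w (t • x) = w t * iN w x := by
  unfold iN
  have h1 : (fun i => w ((t • x) i)) = w t • fun i => w (x i) := by
    funext i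
    rw [Pi.smul_apply, smul_eq_mul, map_mul]
    rfl
  rw [h1, norm_smul, Real.norm_of_nonneg (apply_nonneg w _)]

/-- the local height at an infinite place -/
noncomputable def lamI (w : InfinitePlace K) (L x : Fin m → K) : ℝ :=
  Real.log (iN w x * iN w L / w (lfK L x))

lemma lamI_smul (w : InfinitePlace K) (L x : Fin m → K) {t : K} (ht : t ≠ 0) :
    lamI w L (t • x) = lamI w L x := by
  unfold lamI
  rw [iN_smul, lfK_smul, map_mul, mul_assoc, mul_div_mul_left _ _ ((w.pos_iff).2 ht).ne']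

lemma lamI_smul_left (w : InfinitePlace K) (L x : Fin m → K) {t : K} (ht : t ≠ 0) :
    lamI w (t • L) x = lamI w L x := by
  unfold lamI
  rw [iN_smul, lfK_smul_left, map_mul, mul_left_comm, mul_div_mul_left _ _ ((w.pos_iff).2 ht).ne']

/-- the error term -/
noncomputable def DE (g : Pr K → ℝ → ℝ) (L : Fin q → Fin m → K) (x : Fin m → K) : ℝ :=
  ∑ l, ∑ w : InfinitePlace K, (w.mult : ℝ) * lamI w (L l) x +
    ∑ᶠ v : Pr K, ∑ l, g v (lamF v (L l) x)

lemma DE_smul (g : Pr K → ℝ → ℝ) (L : Fin q → Fin m → K) (x : Fin m → K) {t : K} (ht : t ≠ 0) :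
    DE g L (t • x) = DE g L x := by
  unfold DE
  simp only [lamI_smul _ _ _ ht, lamF_smul _ _ _ ht]

lemma DE_smul_left (g : Pr K → ℝ → ℝ) (L : Fin q → Fin m → K) (x : Fin m → K) {t : Fin q → K}
    (ht : ∀ l, t l ≠ 0) : DE g (fun l => t l • L l) x = DE g L x := by
  unfold DE
  simp only [lamI_smul_left _ _ _ (ht _), lamF_smul_left _ _ _ (ht _)]

/-- the absolute value of a linear form in real coordinates -/
noncomputable def lN (w : InfinitePlace K) (L : Fin m → 𝓞 K) (c : Fin m × Jx K → ℝ) : ℝ :=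
  ‖∑ i, w.embedding (L i : K) * ev w.embedding c i‖

lemma lN_continuous (w : InfinitePlace K) (L : Fin m → 𝓞 K) : Continuous (lN w L) := by
  refine continuous_norm.comp (continuous_finsetSum _ fun i _ => ?_)
  exact continuous_const.mul ((continuous_apply i).comp (ev_continuous _))

lemma lN_smul (w : InfinitePlace K) (L : Fin m → 𝓞 K) {r : ℝ} (hr : 0 ≤ r)
    (c : Fin m × Jx K → ℝ) : lN w L (r • c) = r * lN w L c := by
  unfold lN
  have h1 : ev w.embedding (r • c) = r • ev w.embedding c := (evL w.embedding).map_smul r c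
  have h2 : ∑ i, w.embedding (L i : K) * ev w.embedding (r • c) i =
      (r : ℂ) * ∑ i, w.embedding (L i : K) * ev w.embedding c i := by
    rw [h1, mul_sum]
    refine sum_congr rfl fun i _ => ?_
    rw [Pi.smul_apply, Complex.real_smul]
    ring
  rw [h2, norm_mul, Complex.norm_real, Real.norm_of_nonneg hr]

lemma lN_int (w : InfinitePlace K) (L : Fin m → 𝓞 K) (z : Fin m × Jx K → ℤ) :
    lN w L (ic z) = w (lfK (kv L) (kv (vec z))) := by
  unfold lN
  have h1 : ∑ i, w.embedding (L i : K) * ev w.embedding (ic z) i =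
      w.embedding (lfK (kv L) (kv (vec z))) := by
    unfold lfK
    rw [map_sum]
    refine sum_congr rfl fun i _ => ?_
    rw [ev_int, map_mul]
    rfl
  rw [h1, norm_embedding_eq]

/-- the archimedean part -/
noncomputable def Qc (L : Fin q → Fin m → 𝓞 K) (c : Fin m × Jx K → ℝ) : ℝ :=
  ∏ l, ∏ w : InfinitePlace K, (lN w (L l) c / (sN w c * iN w (kv (L l)))) ^ w.mult

lemma Qc_continuousAt {L : Fin q → Fin m → 𝓞 K} (hL : ∀ l, L l ≠ 0) {c : Fin m × Jx K → ℝ}
    (hc : Hc c ≠ 0) : ContinuousAt (Qc L) c := by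
  unfold Qc
  refine tendsto_finsetProd _ fun l _ => tendsto_finsetProd _ fun w _ => ?_
  refine ContinuousAt.pow (ContinuousAt.div (lN_continuous w _).continuousAt
    ((sN_continuous w).continuousAt.mul continuousAt_const) ?_) _
  exact (mul_pos (Hc_ne hc w) (iN_pos w (kv_ne (hL l)))).ne'

lemma Qc_smul (L : Fin q → Fin m → 𝓞 K) {r : ℝ} (hr : 0 < r) (c : Fin m × Jx K → ℝ) :
    Qc L (r • c) = Qc L c := by
  unfold Qc
  refine prod_congr rfl fun l _ => prod_congr rfl fun w _ => ?_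
  rw [lN_smul w _ hr.le, sN_smul, abs_of_pos hr, mul_assoc, mul_div_mul_left _ _ hr.ne']

lemma Qc_int {L : Fin q → Fin m → 𝓞 K} (hL : ∀ l, L l ≠ 0) {z : Fin m × Jx K → ℤ} (hz : z ≠ 0)
    (h : ∀ l, lf (L l) (vec z) ≠ 0) : 0 < Qc L (ic z) ∧
    -Real.log (Qc L (ic z)) =
      ∑ l, ∑ w : InfinitePlace K, (w.mult : ℝ) * lamI w (kv (L l)) (kv (vec z)) := by
  have hpos : ∀ l (w : InfinitePlace K), 0 < lN w (L l) (ic z) / (sN w (ic z) * iN w (kv (L l))) := by
    intro l w
    refine div_pos ?_ (mul_pos (sN_int_pos w hz) (iN_pos w (kv_ne (hL l))))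
    rw [lN_int]
    exact (w.pos_iff).2 (exists_zero (h l))
  refine ⟨prod_pos fun l _ => prod_pos fun w _ => pow_pos (hpos l w) _, ?_⟩
  unfold Qc
  rw [Real.log_prod fun l _ => (prod_pos fun w _ => pow_pos (hpos l w) _).ne', ← sum_neg_distrib]
  refine sum_congr rfl fun l _ => ?_
  rw [Real.log_prod fun w _ => (pow_pos (hpos l w) _).ne', ← sum_neg_distrib]
  refine sum_congr rfl fun w _ => ?_
  rw [Real.log_pow, ← mul_neg, ← Real.log_inv, inv_div, lN_int]
  congr 2
  unfold iN
  rw [sN_int]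
  rfl

/-- extension by zero -/
noncomputable def ftil (f : ℝ → ℝ) (s y : ℝ) : ℝ := if 0 < y then f (s - Real.log y) else 0

lemma ftil_continuous {f : ℝ → ℝ} (hf : Continuous f) {B : ℝ} (hB : ∀ x, B ≤ x → f x = 0) (s : ℝ) :
    Continuous (ftil f s) := by
  rw [continuous_iff_continuousAt]
  intro y
  rcases lt_or_ge 0 y with hy | hy
  · have h1 : (fun y => f (s - Real.log y)) =ᶠ[𝓝 y] ftil f s := by
      filter_upwards [lt_mem_nhds hy] with y' hy'
      rw [ftil, if_pos hy']
    refine ContinuousAt.congr ?_ h1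
    exact hf.continuousAt.comp (continuousAt_const.sub (Real.continuousAt_log hy.ne'))
  · have h1 : (fun _ => (0 : ℝ)) =ᶠ[𝓝 y] ftil f s := by
      have h2 : y < Real.exp (s - B) := lt_of_le_of_lt hy (Real.exp_pos _)
      filter_upwards [gt_mem_nhds h2] with y' hy'
      unfold ftil
      split_ifs with h3
      · symm
        apply hB
        have h4 := (Real.log_lt_iff_lt_exp h3).2 hy'
        linarith
      · rfl
    exact ContinuousAt.congr continuousAt_const h1

lemma ftil_abs_le {f : ℝ → ℝ} {C : ℝ} (hC0 : 0 ≤ C) (hC : ∀ x, |f x| ≤ C) (s y : ℝ) :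
    |ftil f s y| ≤ C := by
  unfold ftil
  split_ifs
  · exact hC _
  · rw [abs_zero]; exact hC0

open Classical in
/-- the weighted sum over the points off the hyperplanes -/
noncomputable def SP (L : Fin q → Fin m → K) (g : Pr K → ℝ → ℝ) (f χ : ℝ → ℝ) (Y : ℝ) : ℝ :=
  ∑' P : Projectivization K (Fin m → K), if ∀ l, lfK (L l) P.rep ≠ 0 then
    χ (Height.mulHeight P.rep / Y ^ (finrank ℚ K)) * f (DE g L P.rep) else 0

open Classical in
/-- **Smooth averages converge.** -/
theorem smooth (hm : 2 ≤ m) (L : Fin q → Fin m → 𝓞 K) (hL : ∀ l, L l ≠ 0) (g : Pr K → ℝ → ℝ)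
    (A : Finset (Pr K)) (hg : ∀ v, v ∉ A → g v 0 = 0 ∧ g v (Real.log (Nv v)) = 0)
    {f : ℝ → ℝ} (hf : Continuous f) {Bf : ℝ} (hBf : ∀ x, Bf ≤ x → f x = 0) {Cf : ℝ}
    (hCf : ∀ x, |f x| ≤ Cf) {χ : ℝ → ℝ} (hχ : Continuous χ) {a b : ℝ} (ha : 0 < a)
    (hχa : ∀ y, y ≤ a → χ y = 0) (hχb : ∀ y, b ≤ y → χ y = 0) {Cχ : ℝ} (hCχ : ∀ x, |χ x| ≤ Cχ) :
    ∃ ℓ : ℝ, Tendsto (fun Y : ℝ => SP (fun l => kv (L l)) g f χ Y / Y ^ (m * finrank ℚ K)) atTop
      (𝓝 ℓ) := by
  obtain ⟨Φ, R, hR, hΦc, hΦ0, hΦ1, hΦs, hΦsum, hΦconst⟩ := exists_weight K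
  set d := finrank ℚ K with hd
  have hd0 : 0 < d := finrank_pos (R := ℚ) (M := K)
  have hCf0 : 0 ≤ Cf := (abs_nonneg _).trans (hCf 0)
  have hCχ0 : 0 ≤ Cχ := (abs_nonneg _).trans (hCχ 0)
  -- the functions for the classes
  set χc : ClassGroup (𝓞 K) → ℝ → ℝ := fun c y => χ (y / Ideal.absNorm (Jr c)) with hχcdef
  have hNc : ∀ c : ClassGroup (𝓞 K), (1 : ℝ) ≤ Ideal.absNorm (Jr c) := Jr_norm_pos
  have hN0 : ∀ c : ClassGroup (𝓞 K), (0 : ℝ) < Ideal.absNorm (Jr c) := fun c => by
    linarith [hNc c]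
  have hχcc : ∀ c, Continuous (χc c) := fun c => hχ.comp (continuous_id.div_const _)
  have hχca : ∀ c y, y ≤ a → χc c y = 0 := by
    intro c y hy
    apply hχa
    rw [div_le_iff₀ (hN0 c)]
    nlinarith [hNc c]
  have hχcb : ∀ c y, b * Ideal.absNorm (Jr c) ≤ y → χc c y = 0 := by
    intro c y hy
    apply hχb
    rw [le_div_iff₀ (hN0 c)]
    exact hy
  set F : ClassGroup (𝓞 K) → ℝ → (Fin m × Jx K → ℝ) → ℝ := fun c s x =>
    Φ (el x) * χc c (Hc x) * ftil f s (Qc L x) with hF
  have hFc : ∀ c s, Continuous (F c s) := by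
    intro c s
    refine test_continuous hΦc (hχcc c) ha (hχca c) fun x hx => ?_
    exact (ftil_continuous hf hBf s).continuousAt.comp (Qc_continuousAt hL hx)
  have hFsupp : ∀ c, ∃ R' : ℝ, 0 < R' ∧ ∀ s x, R' < ‖x‖ → F c s x = 0 := by
    intro c
    obtain ⟨R', hR', h⟩ := test_support (m := m) hΦs (χ := χc c) ha (hχca c) (hχcb c)
    refine ⟨R', hR', fun s x hx => ?_⟩
    simp only [hF]
    rw [h x hx, zero_mul]
  have hFb : ∀ c s x, |F c s x| ≤ Cχ * Cf := by
    intro c s x
    simp only [hF]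
    rw [abs_mul, abs_mul]
    refine mul_le_mul ?_ (ftil_abs_le hCf0 hCf _ _) (abs_nonneg _) hCχ0
    calc |Φ (el x)| * |χc c (Hc x)| ≤ 1 * Cχ :=
          mul_le_mul (by rw [abs_of_nonneg (hΦ0 _)]; exact hΦ1 _) (hCχ _) (abs_nonneg _)
            zero_le_one
      _ = Cχ := one_mul _
  have hF0 : ∀ c s, F c s 0 = 0 := by
    intro c s
    have h1 : Hc (0 : Fin m × Jx K → ℝ) = 0 := by
      have h2 := Hc_smul (K := K) (m := m) le_rfl (r := 0) 0
      rw [zero_smul, zero_pow hd0.ne', zero_mul] at h2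
      exact h2
    simp only [hF]
    rw [h1, hχca c 0 ha.le, mul_zero, zero_mul]
  set e : (Fin m × Jx K → ℤ) → ℝ := fun z => ∑ᶠ v, locf g L v z with he
  have hlim : ∀ c : ClassGroup (𝓞 K), ∃ ℓ : ℝ, Tendsto (fun Y : ℝ =>
      (∑' z : Fin m × Jx K → ℤ, (if z ∈ Vo c L then F c (e z) (Y⁻¹ • ic z) else 0)) /
        Y ^ (m * d)) atTop (𝓝 ℓ) := by
    intro c
    obtain ⟨R', hR', hs⟩ := hFsupp c
    have h1 := engine (approx_class hm c L hL g A hg) (F := F c) (C := Cχ * Cf) (R := R')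
      (by positivity) hR' (hFc c) (hFb c) hs (hF0 c)
    rw [card_idx, ← hd] at h1
    exact h1
  choose ℓ hℓ using hlim
  refine ⟨∑ c, ℓ c, ?_⟩
  have hsum := tendsto_finsetSum (univ : Finset (ClassGroup (𝓞 K))) fun c _ => hℓ c
  refine hsum.congr' ?_
  filter_upwards [eventually_gt_atTop 0] with Y hY
  rw [← sum_div]
  congr 1
  -- the sum over the points
  set av : (Fin m → K) → ℝ := fun x => if ∀ l, lfK (kv (L l)) x ≠ 0 then
    χ (Height.mulHeight x / Y ^ d) * f (DE g (fun l => kv (L l)) x) else 0 with hav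
  have hav1 : ∀ (t : K) (x : Fin m → K), t ≠ 0 → x ≠ 0 → av (t • x) = av x := by
    intro t x ht hx
    simp only [hav]
    rw [Height.mulHeight_smul_eq_mulHeight x ht, DE_smul g _ x ht]
    have h1 : (∀ l, lfK (kv (L l)) (t • x) ≠ 0) ↔ ∀ l, lfK (kv (L l)) x ≠ 0 := by
      refine forall_congr' fun l => ?_
      rw [lfK_smul]
      exact ⟨fun h h2 => h (by rw [h2, mul_zero]), fun h h2 => h ((mul_eq_zero.1 h2).resolve_left ht)⟩
    by_cases h2 : ∀ l, lfK (kv (L l)) x ≠ 0
    · rw [if_pos h2, if_pos (h1.2 h2)]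
    · rw [if_neg h2, if_neg fun h => h2 (h1.1 h)]
  have hfin : Summable fun P : Projectivization K (Fin m → K) => av P.rep := by
    apply summable_of_hasFiniteSupport
    obtain ⟨C, hC, hcount⟩ := count_le K m
    set B : ℝ := max 1 (|b| + 1) * max 1 Y with hB
    have hB1 : 1 ≤ B := by
      have h1 := le_max_left (1 : ℝ) (|b| + 1)
      have h2 := le_max_left (1 : ℝ) Y
      rw [hB]
      nlinarith
    refine (hcount B hB1).1.subset ?_
    intro P hP
    rw [Function.mem_support] at hP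
    by_contra hcon
    apply hP
    simp only [hav]
    have h1 : b ≤ Height.mulHeight P.rep / Y ^ d := by
      have h2 : B ^ d < Height.mulHeight P.rep := not_le.1 hcon
      rw [le_div_iff₀ (by positivity)]
      refine le_trans ?_ h2.le
      rw [hB, mul_pow]
      have h3 : b ≤ max 1 (|b| + 1) ^ d := by
        refine le_trans ?_ (le_self_pow₀ (le_max_left _ _) hd0.ne')
        refine le_trans ?_ (le_max_right _ _)
        linarith [le_abs_self b]
      have h4 : Y ^ d ≤ max 1 Y ^ d := pow_le_pow_left₀ hY.le (le_max_right _ _) _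
      exact mul_le_mul h3 h4 (by positivity) (by positivity)
    rw [hχb _ h1, zero_mul]
    split_ifs <;> rfl
  have hos := orbit_sum hΦ0 hΦsum av hav1 hfin
  have hSP : SP (fun l => kv (L l)) g f χ Y = ∑' P : Projectivization K (Fin m → K), av P.rep := rfl
  rw [hSP, ← hos.tsum_eq]
  -- the terms
  have hterm : ∀ (c : ClassGroup (𝓞 K)) (z : Fin m × Jx K → ℤ), z ∈ Vc c →
      Φ (el (ic z)) * av (kv (vec z)) =
        if z ∈ Vo c L then F c (e z) (Y⁻¹ • ic z) else 0 := by
    intro c z hz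
    have hz0 := ne_zero_of_mem hz
    by_cases hoff : ∀ l, lf (L l) (vec z) ≠ 0
    · have h1 : ∀ l, lfK (kv (L l)) (kv (vec z)) ≠ 0 := fun l => exists_zero (hoff l)
      have hVo : z ∈ Vo c L := ⟨hz, hoff⟩
      obtain ⟨hQ0, hQ⟩ := Qc_int hL hz0 hoff
      rw [if_pos hVo]
      simp only [hav, hF]
      rw [if_pos h1, Qc_smul L (inv_pos.2 hY), el_smul (inv_pos.2 hY) fun w => sN_int_pos w hz0,
        hΦconst, mul_assoc]
      congr 1
      congr 1
      · simp only [hχcdef]
        congr 1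
        rw [Hc_smul (inv_nonneg.2 hY.le), ← mh_int hz, ← hd, inv_pow]
        have := (hN0 c).ne'
        have := (pow_pos hY d).ne'
        field_simp
      · unfold ftil
        rw [if_pos hQ0]
        congr 1
        unfold DE
        rw [← hQ]
        simp only [he, locf]
        ring
    · have h1 : ¬ ∀ l, lfK (kv (L l)) (kv (vec z)) ≠ 0 := by
        intro h2
        apply hoff
        intro l h3
        apply h2 l
        rw [lfK_kv, h3]
        exact map_zero (algebraMap (𝓞 K) K)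
      have hVo : z ∉ Vo c L := fun h => hoff h.2
      rw [if_neg hVo]
      simp only [hav]
      rw [if_neg h1, mul_zero]
  have huniq : ∀ (c c' : ClassGroup (𝓞 K)) (z : Fin m × Jx K → ℤ), z ∈ Vc c → z ∈ Vc c' →
      c = c' := by
    intro c c' z h1 h2
    exact (prim_unique h1 h2 (t := 1) (by rw [one_smul])).1
  rw [← Summable.tsum_finsetSum]
  · refine tsum_congr fun z => ?_
    by_cases h : ∃ c : ClassGroup (𝓞 K), z ∈ Vc c
    · rw [if_pos h]
      obtain ⟨c, hc⟩ := h
      rw [sum_eq_single_of_mem c (mem_univ c), ← hterm c z hc]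
      intro c' _ hne
      rw [if_neg]
      intro h2
      exact hne (huniq c' c z h2.1 hc)
    · rw [if_neg h]
      refine sum_eq_zero fun c _ => ?_
      rw [if_neg]
      intro h2
      exact h ⟨c, h2.1⟩
  · intro c _
    obtain ⟨R', hR', hs⟩ := hFsupp c
    apply summable_of_box (R' * Y)
    intro z hz
    have h2 : F c (e z) (Y⁻¹ • ic z) = 0 := by
      apply hs
      rw [norm_smul, norm_inv, Real.norm_of_nonneg hY.le, lt_inv_mul_iff₀ hY]
      linarith
    rw [h2]
    split_ifs <;> rfl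

end

end Pool.Agent.N906.EQ
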