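import Pool.Agent.N906.EQ.Ext
import Pool.Agent.N906.EQ.Cut

/-!
# The limit measure, and the change of the order
-/

set_option autoImplicit false

namespace Pool.Agent.N906.EQ

open Filter Topology MeasureTheory
open scoped CompactlySupported

section measure

variable {Ω : Type} {ρ E : Ω → ℝ}

/-- The limits on the functions of compact support are given by a measure. -/
theorem exists_measure (hfin : ∀ B : ℝ, {P | ρ P ≤ B}.Finite) {D : ℝ}
    (hlim : ∀ f : ℝ → ℝ, Continuous f → HasCompactSupport f → (∀ x, 0 ≤ f x) →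
      ∃ ℓ : ℝ, Tendsto (fun B : ℝ => SS ρ E f B / B ^ D) atTop (𝓝 ℓ)) :
    ∃ μ : Measure ℝ, IsFiniteMeasureOnCompacts μ ∧ ConvC ρ E D μ := by
  have hex : ∀ f : C_c(ℝ, ℝ), ∃ ℓ : ℝ, Tendsto (fun B : ℝ => SS ρ E f B / B ^ D) atTop (𝓝 ℓ) := by
    intro f
    obtain ⟨ℓ₁, h1⟩ := hlim (fun x => max (f x) 0) (f.continuous.max continuous_const)
      (by
        refine f.hasCompactSupport.mono fun x hx => ?_
        rw [Function.mem_support] at hx ⊢
        intro h
        rw [h, max_self] at hx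
        exact hx rfl) (fun x => le_max_right _ _)
    obtain ⟨ℓ₂, h2⟩ := hlim (fun x => max (-f x) 0) (f.continuous.neg.max continuous_const)
      (by
        refine f.hasCompactSupport.mono fun x hx => ?_
        rw [Function.mem_support] at hx ⊢
        intro h
        rw [h, neg_zero, max_self] at hx
        exact hx rfl) (fun x => le_max_right _ _)
    refine ⟨ℓ₁ - ℓ₂, (h1.sub h2).congr fun B => ?_⟩
    rw [← sub_div, ← ss_sub hfin]
    congr 2
    funext x
    rcases le_total 0 (f x) with h | h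
    · rw [max_eq_left h, max_eq_right (by linarith), sub_zero]
    · rw [max_eq_right h, max_eq_left (by linarith)]
      ring
  choose Lam hLam using hex
  let Λ₀ : C_c(ℝ, ℝ) →ₗ[ℝ] ℝ :=
    { toFun := Lam
      map_add' := by
        intro f g
        refine tendsto_nhds_unique (hLam (f + g)) (((hLam f).add (hLam g)).congr fun B => ?_)
        rw [← add_div, ← ss_add hfin]
        rfl
      map_smul' := by
        intro c f
        refine tendsto_nhds_unique (hLam (c • f)) (((hLam f).const_mul c).congr fun B => ?_)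
        rw [mul_div_assoc', ← ss_smul]
        rfl }
  have hpos : ∀ f : C_c(ℝ, ℝ), 0 ≤ f → 0 ≤ Λ₀ f := by
    intro f hf
    refine ge_of_tendsto (hLam f) ?_
    filter_upwards [eventually_gt_atTop 0] with B hB
    exact div_nonneg (ss_nonneg (fun x => hf x) B) (Real.rpow_nonneg hB.le _)
  let Λ : C_c(ℝ, ℝ) →ₚ[ℝ] ℝ := PositiveLinearMap.mk₀ Λ₀ hpos
  refine ⟨RealRMK.rieszMeasure Λ, inferInstance, ?_⟩
  intro f hf hfc _
  have h1 := RealRMK.integral_rieszMeasure Λ ⟨⟨f, hf⟩, hfc⟩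
  have h2 : Λ ⟨⟨f, hf⟩, hfc⟩ = Lam ⟨⟨f, hf⟩, hfc⟩ := rfl
  have h3 : ∫ x, f x ∂(RealRMK.rieszMeasure Λ) = Lam ⟨⟨f, hf⟩, hfc⟩ := by
    rw [← h2, ← h1]
    rfl
  rw [h3]
  exact hLam ⟨⟨f, hf⟩, hfc⟩

end measure

section order

variable {Ω : Type} {ρ E : Ω → ℝ}

/-- the other size -/
noncomputable def rn (ρ E : Ω → ℝ) (κ : ℝ) (P : Ω) : ℝ := ρ P * Real.exp (-(E P / κ))

lemma rn_fin {κ : ℝ} (hρ : ∀ P, 0 < ρ P) {D c₀ : ℝ} (hκ : 0 < κ) (h : Tail (rn ρ E κ) E D c₀) :
    ∀ B : ℝ, {P | ρ P ≤ B}.Finite := by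
  intro B
  refine (h.fin (B * Real.exp (c₀ / κ))).subset fun P hP => ?_
  have h1 := h.low P
  have hP' : ρ P ≤ B := hP
  have h2 : -(E P / κ) ≤ c₀ / κ := by
    rw [← neg_div]
    exact div_le_div_of_nonneg_right (by linarith) hκ.le
  exact mul_le_mul hP' (Real.exp_le_exp.2 h2) (Real.exp_pos _).le ((hρ P).le.trans hP')

/-- the bound for the tail in the order by `ρ` -/
theorem tail_size {κ D c₀ : ℝ} (hκ : 0 < κ) (hD : 0 < D) (hρ : ∀ P, 0 < ρ P)
    (h : Tail (rn ρ E κ) E D c₀) : Tail ρ E D c₀ := by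
  refine ⟨rn_fin hρ hκ h, h.low, fun ε hε => ?_⟩
  obtain ⟨t, ht⟩ := h.tail ε hε
  refine ⟨max t 0, ?_⟩
  have h1 : Tendsto (fun B : ℝ => B * Real.exp (-(max t 0 / κ))) atTop atTop :=
    tendsto_id.atTop_mul_const (Real.exp_pos _)
  filter_upwards [h1.eventually ht, eventually_gt_atTop 0] with B hB hB0
  have h2 : {P | ρ P ≤ B ∧ max t 0 ≤ E P} ⊆
      {P | rn ρ E κ P ≤ B * Real.exp (-(max t 0 / κ)) ∧ t ≤ E P} := by
    rintro P ⟨g1, g2⟩
    refine ⟨?_, (le_max_left _ _).trans g2⟩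
    refine mul_le_mul g1 (Real.exp_le_exp.2 ?_) (Real.exp_pos _).le hB0.le
    exact neg_le_neg (div_le_div_of_nonneg_right g2 hκ.le)
  have h3 : ({P | ρ P ≤ B ∧ max t 0 ≤ E P}.ncard : ℝ) ≤
      ({P | rn ρ E κ P ≤ B * Real.exp (-(max t 0 / κ)) ∧ t ≤ E P}.ncard : ℝ) := by
    exact_mod_cast Set.ncard_le_ncard h2
      ((h.fin (B * Real.exp (-(max t 0 / κ)))).subset fun P hP => hP.1)
  refine h3.trans (hB.trans ?_)
  refine mul_le_mul_of_nonneg_left ?_ hε.le
  refine Real.rpow_le_rpow (by positivity) ?_ hD.le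
  have h4 : Real.exp (-(max t 0 / κ)) ≤ 1 := by
    rw [Real.exp_le_one_iff]
    have : 0 ≤ max t 0 / κ := div_nonneg (le_max_right _ _) hκ.le
    linarith
  exact mul_le_of_le_one_right hB0.le h4

lemma ss_le_of_size {ρ' : Ω → ℝ} (hfin : ∀ B : ℝ, {P | ρ P ≤ B}.Finite)
    (hfin' : ∀ B : ℝ, {P | ρ' P ≤ B}.Finite) {f : ℝ → ℝ} (hf : ∀ x, 0 ≤ f x) {B B' : ℝ}
    (h : ∀ P, f (E P) ≠ 0 → ρ P ≤ B → ρ' P ≤ B') : SS ρ E f B ≤ SS ρ' E f B' := by
  classical
  unfold SS
  refine Summable.tsum_le_tsum (fun P => ?_) (ss_summable hfin f B) (ss_summable hfin' f B')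
  by_cases h1 : ρ P ≤ B
  · rw [if_pos h1]
    by_cases h2 : f (E P) = 0
    · rw [h2]
      split_ifs <;> exact le_rfl
    · rw [if_pos (h P h2 h1)]
  · rw [if_neg h1]
    split_ifs
    · exact hf _
    · exact le_rfl

/-- the comparison of the two orders, for functions of small support -/
lemma two_orders {κ D : ℝ} (hκ : 0 < κ) (hρ : ∀ P, 0 < ρ P)
    (hfin : ∀ B : ℝ, {P | ρ P ≤ B}.Finite) (hfin' : ∀ B : ℝ, {P | rn ρ E κ P ≤ B}.Finite)
    {μ : Measure ℝ} [IsFiniteMeasureOnCompacts μ] (hD : 0 < D) (hμ : ConvC ρ E D μ)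
    {f : ℝ → ℝ} (hfc : Continuous f) (hf : ∀ x, 0 ≤ f x) {a b : ℝ}
    (hsupp : ∀ x, f x ≠ 0 → a ≤ x ∧ x ≤ b) {η : ℝ} (hη : 0 < η) :
    ∀ᶠ B : ℝ in atTop,
      Real.exp (-(D * (b - a) / κ)) * (∫ x, f x * Real.exp (D * x / κ) ∂μ) - η ≤
        SS (rn ρ E κ) E f B / B ^ D ∧
      SS (rn ρ E κ) E f B / B ^ D ≤
        Real.exp (D * (b - a) / κ) * (∫ x, f x * Real.exp (D * x / κ) ∂μ) + η := by
  have hcs : HasCompactSupport f := by
    refine HasCompactSupport.intro (K := Set.Icc a b) isCompact_Icc fun x hx => ?_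
    by_contra h
    exact hx ⟨(hsupp x h).1, (hsupp x h).2⟩
  have hconv := hμ f hfc hcs hf
  have hI0 : Integrable f μ := hfc.integrable_of_hasCompactSupport hcs
  have hI1 : Integrable (fun x => f x * Real.exp (D * x / κ)) μ := by
    refine Continuous.integrable_of_hasCompactSupport ?_ hcs.mul_right
    fun_prop
  -- the integrals
  have hlo : Real.exp (D * a / κ) * ∫ x, f x ∂μ ≤ ∫ x, f x * Real.exp (D * x / κ) ∂μ := by
    rw [← integral_const_mul]
    refine integral_mono (hI0.const_mul _) hI1 fun x => ?_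
    show Real.exp (D * a / κ) * f x ≤ f x * Real.exp (D * x / κ)
    rw [mul_comm]
    by_cases hx : f x = 0
    · rw [hx, zero_mul, zero_mul]
    · refine mul_le_mul_of_nonneg_left (Real.exp_le_exp.2 ?_) (hf x)
      exact div_le_div_of_nonneg_right (mul_le_mul_of_nonneg_left (hsupp x hx).1 hD.le) hκ.le
  have hhi : ∫ x, f x * Real.exp (D * x / κ) ∂μ ≤ Real.exp (D * b / κ) * ∫ x, f x ∂μ := by
    rw [← integral_const_mul]
    refine integral_mono hI1 (hI0.const_mul _) fun x => ?_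
    show f x * Real.exp (D * x / κ) ≤ Real.exp (D * b / κ) * f x
    rw [mul_comm (Real.exp (D * b / κ))]
    by_cases hx : f x = 0
    · rw [hx, zero_mul, zero_mul]
    · refine mul_le_mul_of_nonneg_left (Real.exp_le_exp.2 ?_) (hf x)
      exact div_le_div_of_nonneg_right (mul_le_mul_of_nonneg_left (hsupp x hx).2 hD.le) hκ.le
  -- dilations
  have hdil : ∀ c : ℝ, Tendsto (fun B : ℝ => SS ρ E f (B * Real.exp (c / κ)) / B ^ D) atTop
      (𝓝 (Real.exp (D * c / κ) * ∫ x, f x ∂μ)) := by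
    intro c
    have h1 : Tendsto (fun B : ℝ => B * Real.exp (c / κ)) atTop atTop :=
      tendsto_id.atTop_mul_const (Real.exp_pos _)
    refine ((hconv.comp h1).const_mul (Real.exp (D * c / κ))).congr' ?_
    filter_upwards [eventually_gt_atTop 0] with B hB
    show Real.exp (D * c / κ) * (SS ρ E f (B * Real.exp (c / κ)) / (B * Real.exp (c / κ)) ^ D) = _
    have h2 : Real.exp (c / κ) ^ D = Real.exp (D * c / κ) := by
      rw [← Real.exp_mul]
      congr 1
      ring
    rw [Real.mul_rpow hB.le (Real.exp_pos _).le, h2]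
    have h3 := (Real.rpow_pos_of_pos hB D).ne'
    have h4 := (Real.exp_pos (D * c / κ)).ne'
    field_simp
  have e1 := (hdil a).eventually (lt_mem_nhds (show Real.exp (D * a / κ) * ∫ x, f x ∂μ - η <
    Real.exp (D * a / κ) * ∫ x, f x ∂μ by linarith))
  have e2 := (hdil b).eventually (gt_mem_nhds (show Real.exp (D * b / κ) * ∫ x, f x ∂μ <
    Real.exp (D * b / κ) * ∫ x, f x ∂μ + η by linarith))
  filter_upwards [e1, e2, eventually_gt_atTop 0] with B h1 h2 hB
  have hBD : 0 < B ^ D := Real.rpow_pos_of_pos hB D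
  have k1 : SS ρ E f (B * Real.exp (a / κ)) ≤ SS (rn ρ E κ) E f B := by
    refine ss_le_of_size hfin hfin' hf fun P hP h3 => ?_
    have h4 : -(E P / κ) ≤ -(a / κ) :=
      neg_le_neg (div_le_div_of_nonneg_right (hsupp _ hP).1 hκ.le)
    calc rn ρ E κ P ≤ B * Real.exp (a / κ) * Real.exp (-(a / κ)) :=
          mul_le_mul h3 (Real.exp_le_exp.2 h4) (Real.exp_pos _).le (by positivity)
      _ = B := by rw [mul_assoc, ← Real.exp_add, add_neg_cancel, Real.exp_zero, mul_one]
  have k2 : SS (rn ρ E κ) E f B ≤ SS ρ E f (B * Real.exp (b / κ)) := by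
    refine ss_le_of_size hfin' hfin hf fun P hP h3 => ?_
    have h4 : E P / κ ≤ b / κ := div_le_div_of_nonneg_right (hsupp _ hP).2 hκ.le
    have h5 : ρ P = rn ρ E κ P * Real.exp (E P / κ) := by
      unfold rn
      rw [mul_assoc, ← Real.exp_add, neg_add_cancel, Real.exp_zero, mul_one]
    rw [h5]
    exact mul_le_mul h3 (Real.exp_le_exp.2 h4) (Real.exp_pos _).le hB.le
  have k1' := div_le_div_of_nonneg_right k1 hBD.le
  have k2' := div_le_div_of_nonneg_right k2 hBD.le
  constructor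
  · refine le_trans ?_ (h1.le.trans k1')
    have h5 : Real.exp (-(D * (b - a) / κ)) * (∫ x, f x * Real.exp (D * x / κ) ∂μ) ≤
        Real.exp (-(D * (b - a) / κ)) * (Real.exp (D * b / κ) * ∫ x, f x ∂μ) :=
      mul_le_mul_of_nonneg_left hhi (Real.exp_pos _).le
    rw [← mul_assoc, ← Real.exp_add] at h5
    have h6 : -(D * (b - a) / κ) + D * b / κ = D * a / κ := by ring
    rw [h6] at h5
    linarith
  · refine (k2'.trans h2.le).trans ?_
    have h5 : Real.exp (D * (b - a) / κ) * (Real.exp (D * a / κ) * ∫ x, f x ∂μ) ≤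
        Real.exp (D * (b - a) / κ) * ∫ x, f x * Real.exp (D * x / κ) ∂μ :=
      mul_le_mul_of_nonneg_left hlo (Real.exp_pos _).le
    rw [← mul_assoc, ← Real.exp_add] at h5
    have h6 : D * (b - a) / κ + D * a / κ = D * b / κ := by ring
    rw [h6] at h5
    linarith

/-- a ramp -/
noncomputable def rmp (t : ℝ) : ℝ := max 0 (min 1 t)

lemma rmp_continuous : Continuous rmp := by
  unfold rmp
  fun_prop

lemma rmp_mono {s t : ℝ} (h : s ≤ t) : rmp s ≤ rmp t := by
  unfold rmp
  gcongr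

lemma rmp_zero {t : ℝ} (h : t ≤ 0) : rmp t = 0 := max_eq_left ((min_le_right _ _).trans h)

lemma rmp_one {t : ℝ} (h : 1 ≤ t) : rmp t = 1 := by
  unfold rmp
  rw [min_eq_left h, max_eq_right zero_le_one]

/-- a hat -/
noncomputable def hat (j : ℕ) (y : ℝ) : ℝ := rmp (y - j) - rmp (y - (j + 1 : ℕ))

lemma hat_nonneg (j : ℕ) (y : ℝ) : 0 ≤ hat j y := by
  unfold hat
  have := rmp_mono (s := y - (j + 1 : ℕ)) (t := y - j) (by push_cast; linarith)
  linarith

lemma hat_supp {j : ℕ} {y : ℝ} (h : hat j y ≠ 0) : (j : ℝ) ≤ y ∧ y ≤ j + 2 := by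
  unfold hat at h
  constructor
  · by_contra h1
    push Not at h1
    apply h
    rw [rmp_zero (by linarith), rmp_zero (by push_cast; linarith), sub_zero]
  · by_contra h1
    push Not at h1
    apply h
    rw [rmp_one (by linarith), rmp_one (by push_cast; linarith), sub_self]

lemma hat_sum {n : ℕ} {y : ℝ} (h1 : 1 ≤ y) (h2 : y ≤ n) :
    ∑ j ∈ Finset.range n, hat j y = 1 := by
  unfold hat
  rw [Finset.sum_range_sub' (fun j : ℕ => rmp (y - j))]
  rw [rmp_one (by simpa using h1), rmp_zero (by linarith), sub_zero]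

/-- the limits in the other order -/
theorem convC_rn {κ D : ℝ} (hκ : 0 < κ) (hρ : ∀ P, 0 < ρ P)
    (hfin : ∀ B : ℝ, {P | ρ P ≤ B}.Finite) (hfin' : ∀ B : ℝ, {P | rn ρ E κ P ≤ B}.Finite)
    {μ : Measure ℝ} [IsFiniteMeasureOnCompacts μ] (hD : 0 < D) (hμ : ConvC ρ E D μ)
    {f : ℝ → ℝ} (hfc : Continuous f) (hcs : HasCompactSupport f) (hf : ∀ x, 0 ≤ f x) :
    Tendsto (fun B : ℝ => SS (rn ρ E κ) E f B / B ^ D) atTop
      (𝓝 (∫ x, f x * Real.exp (D * x / κ) ∂μ)) := by
  set I := ∫ x, f x * Real.exp (D * x / κ) ∂μ with hI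
  -- the decomposition
  have key : ∀ k : ℕ, 0 < k → ∀ η : ℝ, 0 < η → ∀ᶠ B : ℝ in atTop,
      Real.exp (-(D * (2 / k) / κ)) * I - η ≤ SS (rn ρ E κ) E f B / B ^ D ∧
      SS (rn ρ E κ) E f B / B ^ D ≤ Real.exp (D * (2 / k) / κ) * I + η := by
    intro k hk η hη
    have hkR : (0 : ℝ) < k := by exact_mod_cast hk
    obtain ⟨M, hM⟩ : ∃ M : ℝ, ∀ x, f x ≠ 0 → |x| ≤ M := by
      obtain ⟨M, hM⟩ := hcs.isCompact.isBounded.exists_norm_le
      exact ⟨M, fun x hx => by
        rw [← Real.norm_eq_abs]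
        exact hM x (subset_tsupport f hx)⟩
    obtain ⟨N, hN⟩ := exists_nat_ge (k * M + 1)
    set n : ℕ := 2 * N with hn
    set g : ℕ → ℝ → ℝ := fun j x => f x * hat j (k * x + N) with hg
    have hgc : ∀ j, Continuous (g j) := by
      intro j
      have := rmp_continuous
      simp only [hg, hat]
      fun_prop
    have hg0 : ∀ j x, 0 ≤ g j x := fun j x => mul_nonneg (hf x) (hat_nonneg _ _)
    have hgsum : ∀ x, f x = ∑ j ∈ Finset.range n, g j x := by
      intro x
      simp only [hg]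
      rw [← Finset.mul_sum]
      by_cases hx : f x = 0
      · rw [hx, zero_mul]
      · have h1 := abs_le.1 (hM x hx)
        rw [hat_sum, mul_one]
        · nlinarith [h1.1]
        · rw [hn]; push_cast; nlinarith [h1.2]
    have hgs : ∀ j x, g j x ≠ 0 → (j - N : ℝ) / k ≤ x ∧ x ≤ (j - N : ℝ) / k + 2 / k := by
      intro j x hx
      have h1 := hat_supp (right_ne_zero_of_mul hx)
      constructor
      · rw [div_le_iff₀ hkR]; linarith [h1.1]
      · rw [← add_div, le_div_iff₀ hkR]; linarith [h1.2]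
    have hsumS : ∀ B, SS (rn ρ E κ) E f B = ∑ j ∈ Finset.range n, SS (rn ρ E κ) E (g j) B := by
      intro B
      classical
      unfold SS
      rw [← Summable.tsum_finsetSum fun j _ => ss_summable hfin' (g j) B]
      refine tsum_congr fun P => ?_
      split_ifs
      · exact hgsum _
      · rw [Finset.sum_const_zero]
    have hgi : ∀ j, Integrable (fun x => g j x * Real.exp (D * x / κ)) μ := by
      intro j
      refine Continuous.integrable_of_hasCompactSupport ?_ ?_
      · exact (hgc j).mul (by fun_prop)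
      · exact (hcs.mul_right).mul_right
    have hIsum : I = ∑ j ∈ Finset.range n, ∫ x, g j x * Real.exp (D * x / κ) ∂μ := by
      rw [hI, ← integral_finsetSum _ fun j _ => hgi j]
      refine integral_congr_ae (Eventually.of_forall fun x => ?_)
      show f x * Real.exp (D * x / κ) = ∑ j ∈ Finset.range n, g j x * Real.exp (D * x / κ)
      rw [← Finset.sum_mul, ← hgsum]
    have hη' : 0 < η / (n + 1) := by positivity
    have hall : ∀ᶠ B : ℝ in atTop, ∀ j ∈ Finset.range n,
        Real.exp (-(D * (2 / k) / κ)) * (∫ x, g j x * Real.exp (D * x / κ) ∂μ) - η / (n + 1) ≤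
          SS (rn ρ E κ) E (g j) B / B ^ D ∧
        SS (rn ρ E κ) E (g j) B / B ^ D ≤
          Real.exp (D * (2 / k) / κ) * (∫ x, g j x * Real.exp (D * x / κ) ∂μ) + η / (n + 1) := by
      rw [Filter.eventually_all_finset]
      intro j _
      have h1 := two_orders hκ hρ hfin hfin' hD hμ (hgc j) (hg0 j) (hgs j) hη'
      have h2 : (j - N : ℝ) / k + 2 / k - (j - N : ℝ) / k = 2 / k := by ring
      rw [h2] at h1
      exact h1
    filter_upwards [hall] with B hB
    have hs : (n : ℝ) * (η / (n + 1)) ≤ η := by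
      rw [mul_div_assoc', div_le_iff₀ (by positivity)]
      nlinarith
    have hS2 : SS (rn ρ E κ) E f B / B ^ D = ∑ j ∈ Finset.range n, SS (rn ρ E κ) E (g j) B / B ^ D := by
      rw [hsumS, Finset.sum_div]
    rw [hS2]
    generalize η / ((n : ℝ) + 1) = η₁ at hB hs
    have hc : ∑ _j ∈ Finset.range n, η₁ = n * η₁ := by
      rw [Finset.sum_const, Finset.card_range, nsmul_eq_mul]
    constructor
    · have h1 := Finset.sum_le_sum fun j hj => (hB j hj).1
      rw [Finset.sum_sub_distrib, ← Finset.mul_sum, ← hIsum, hc] at h1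
      linarith
    · have h1 := Finset.sum_le_sum fun j hj => (hB j hj).2
      rw [Finset.sum_add_distrib, ← Finset.mul_sum, ← hIsum, hc] at h1
      linarith
  -- the limit in `k`
  have hk1 : Tendsto (fun k : ℕ => Real.exp (-(D * (2 / k) / κ)) * I) atTop (𝓝 I) := by
    have h1 : Tendsto (fun k : ℕ => -(D * (2 / (k : ℝ)) / κ)) atTop (𝓝 (-(D * 0 / κ))) :=
      (((tendsto_const_div_atTop_nhds_zero_nat 2).const_mul D).div_const κ).neg
    rw [mul_zero, zero_div, neg_zero] at h1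
    have h2 := ((Real.continuous_exp.tendsto 0).comp h1).mul_const I
    rw [Real.exp_zero, one_mul] at h2
    exact h2
  have hk2 : Tendsto (fun k : ℕ => Real.exp (D * (2 / k) / κ) * I) atTop (𝓝 I) := by
    have h1 : Tendsto (fun k : ℕ => D * (2 / (k : ℝ)) / κ) atTop (𝓝 (D * 0 / κ)) :=
      ((tendsto_const_div_atTop_nhds_zero_nat 2).const_mul D).div_const κ
    rw [mul_zero, zero_div] at h1
    have h2 := ((Real.continuous_exp.tendsto 0).comp h1).mul_const I
    rw [Real.exp_zero, one_mul] at h2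
    exact h2
  rw [Metric.tendsto_nhds]
  intro ε hε
  have e1 := hk1.eventually (lt_mem_nhds (show I - ε / 2 < I by linarith))
  have e2 := hk2.eventually (gt_mem_nhds (show I < I + ε / 2 by linarith))
  obtain ⟨k, ⟨h1, h2⟩, h3⟩ := ((e1.and e2).and (eventually_gt_atTop 0)).exists
  filter_upwards [key k h3 (ε / 2) (by positivity)] with B hB
  rw [Real.dist_eq, abs_lt]
  constructor
  · linarith [hB.1]
  · linarith [hB.2]

end order

end Pool.Agent.N906.EQ
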